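import Pool.Agent.V5helper25.TG.Main

/-!
# MP_4a0782, circle extensions: the derivative along the fibres
-/

set_option autoImplicit false

open scoped Manifold ContDiff Topology
open Filter Set Metric

universe u v

namespace Pool.Agent.V5helper25.EX

open Pool.Agent.H718R2.G Pool.Agent.W564.SC Pool.Agent.TH80.OMS Pool.Agent.TH290.CL
  Pool.Agent.N813.OF Pool.Agent.N813.CX

section

variable {n : ℕ} {N : Type u} [TopologicalSpace N] [ChartedSpace (V n) N]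
  [IsManifold (𝓡 n) ∞ N]

/-- partial derivatives of `C^1` families of maps, in charts -/
theorem part {k : ℝ → N → N}
    (hk : ContMDiff (𝓘(ℝ, ℝ).prod (𝓡 n)) (𝓡 n) 1 (fun q : ℝ × N => k q.1 q.2)) (y₀ : N)
    {χ : OpenPartialHomeomorph N (V n)} (hχ : χ ∈ IsManifold.maximalAtlas (𝓡 n) ∞ N)
    (hz : k 0 y₀ ∈ χ.source) :
    ∃ D : N → V n, ContinuousAt D y₀ ∧ ∀ᶠ y in 𝓝 y₀, HasDerivAt (fun s => χ (k s y)) (D y) 0 := by
  set φ := chartAt (V n) y₀ with hφ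
  set G : ℝ × V n → V n := fun q => χ (k q.1 (φ.symm q.2)) with hG
  have hy₀ : y₀ ∈ φ.source := mem_chart_source _ _
  have hinv : φ.symm (φ y₀) = y₀ := φ.left_inv hy₀
  have hGd : ContDiffAt ℝ 1 G (0, φ y₀) := by
    rw [← contMDiffAt_iff_contDiffAt]
    have h1 : ContMDiffAt 𝓘(ℝ, ℝ × V n) 𝓘(ℝ, ℝ) 1 (fun q : ℝ × V n => q.1) (0, φ y₀) :=
      contDiffAt_fst.contMDiffAt
    have h2 : ContMDiffAt 𝓘(ℝ, ℝ × V n) (𝓡 n) 1 (fun q : ℝ × V n => q.2) (0, φ y₀) :=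
      contDiffAt_snd.contMDiffAt
    have h3 : ContMDiffAt (𝓡 n) (𝓡 n) 1 φ.symm (φ y₀) := by
      have h4 : ContMDiffOn (𝓡 n) (𝓡 n) ∞ φ.symm φ.target :=
        contMDiffOn_symm_of_mem_maximalAtlas (IsManifold.chart_mem_maximalAtlas y₀)
      exact (h4.contMDiffAt (φ.open_target.mem_nhds (φ.map_source hy₀))).of_le (by norm_cast)
    have h5 : ContMDiffAt 𝓘(ℝ, ℝ × V n) (𝓡 n) 1 (fun q : ℝ × V n => φ.symm q.2) (0, φ y₀) :=
      ContMDiffAt.comp (g := φ.symm) (f := fun q : ℝ × V n => q.2) _ h3 h2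
    have h6 : ContMDiffAt 𝓘(ℝ, ℝ × V n) (𝓘(ℝ, ℝ).prod (𝓡 n)) 1
        (fun q : ℝ × V n => (q.1, φ.symm q.2)) (0, φ y₀) := h1.prodMk h5
    have h7 : ContMDiffAt 𝓘(ℝ, ℝ × V n) (𝓡 n) 1 (fun q : ℝ × V n => k q.1 (φ.symm q.2))
        (0, φ y₀) :=
      ContMDiffAt.comp (g := fun q : ℝ × N => k q.1 q.2)
        (f := fun q : ℝ × V n => (q.1, φ.symm q.2)) _ hk.contMDiffAt h6
    have h8 : ContMDiffAt (𝓡 n) (𝓡 n) 1 χ (k 0 (φ.symm (φ y₀))) :=
      ((contMDiffOn_of_mem_maximalAtlas hχ).contMDiffAt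
        (χ.open_source.mem_nhds (by rw [hinv]; exact hz))).of_le (by norm_cast)
    exact ContMDiffAt.comp (g := χ) (f := fun q : ℝ × V n => k q.1 (φ.symm q.2)) _ h8 h7
  refine ⟨fun y => fderiv ℝ G (0, φ y) (1, 0), ?_, ?_⟩
  · have h1 : ContinuousAt (fderiv ℝ G) (0, φ y₀) :=
      (hGd.fderiv_right (m := 0) (by norm_num)).continuousAt
    have h2 : ContinuousAt (fun y => ((0 : ℝ), φ y)) y₀ :=
      continuousAt_const.prodMk (φ.continuousAt hy₀)
    have h3 : ContinuousAt (fun y => fderiv ℝ G (0, φ y)) y₀ :=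
      ContinuousAt.comp (f := fun y => ((0 : ℝ), φ y)) (g := fderiv ℝ G) h1 h2
    exact h3.clm_apply continuousAt_const
  · have h1 := hGd.eventually (by norm_num)
    have h2 : ContinuousAt (fun y => ((0 : ℝ), φ y)) y₀ :=
      continuousAt_const.prodMk (φ.continuousAt hy₀)
    filter_upwards [h2.eventually h1, φ.open_source.mem_nhds hy₀] with y hy hys
    have h3 : HasFDerivAt G (fderiv ℝ G (0, φ y)) (0, φ y) :=
      (hy.differentiableAt (by norm_num)).hasFDerivAt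
    have h4 : HasDerivAt (fun s : ℝ => (s, φ y)) ((1 : ℝ), (0 : V n)) 0 :=
      (hasDerivAt_id (0 : ℝ)).prodMk (hasDerivAt_const _ _)
    have h5 := HasFDerivAt.comp_hasDerivAt (f := fun s : ℝ => (s, φ y)) (0 : ℝ) h3 h4
    refine h5.congr_of_eventuallyEq (Eventually.of_forall fun s => ?_)
    show χ (k s y) = χ (k s (φ.symm (φ y)))
    rw [φ.left_inv hys]

variable [T2Space N] {r : ℕ∞}

/-- **The derivative along the fibres.** -/
theorem exists_der (hr : 1 ≤ r) (F : DiffM n N r) {ψ : ℝ → N → N} (hψ : IsFlow n N ψ)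
    {a : N → ℝ → ℝ} (top : TopExt F ψ a) :
    ∃ A : N → ℝ, Continuous A ∧ (∀ y, 0 < A y) ∧ ∀ y, HasDerivAt (a y) (A y) 0 := by
  have hr1 : (1 : WithTop ℕ∞) ≤ (r : WithTop ℕ∞) := WithTop.coe_le_coe.mpr hr
  have hF1 : ContMDiff (𝓡 n) (𝓡 n) 1 F := F.contMDiff.of_le hr1
  have hk1 : ContMDiff (𝓘(ℝ, ℝ).prod (𝓡 n)) (𝓡 n) 1 (fun q : ℝ × N => F (ψ q.1 q.2)) :=
    hF1.comp (hψ.smooth.of_le (by norm_cast))
  have hk2 : ContMDiff (𝓘(ℝ, ℝ).prod (𝓡 n)) (𝓡 n) 1 (fun q : ℝ × N => ψ q.1 (F q.2)) :=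
    ContMDiff.comp (g := fun q : ℝ × N => ψ q.1 q.2) (f := fun q : ℝ × N => (q.1, F q.2))
      (hψ.smooth.of_le (by norm_cast)) (contMDiff_fst.prodMk (hF1.comp contMDiff_snd))
  have hnc : ∀ y : N, ¬ ∀ t, ψ t y = y := fun y h => LIFT.half_free top y (h _)
  -- local formula
  have key : ∀ y₀ : N, ∃ A : N → ℝ, ContinuousAt A y₀ ∧ ∀ᶠ y in 𝓝 y₀,
      HasDerivAt (a y) (A y) 0 := by
    intro y₀
    set χ := chartAt (V n) (F y₀) with hχd
    have hχ : χ ∈ IsManifold.maximalAtlas (𝓡 n) ∞ N := IsManifold.chart_mem_maximalAtlas _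
    have hs : F y₀ ∈ χ.source := mem_chart_source _ _
    obtain ⟨D₁, c₁, d₁⟩ := part (k := fun s y => F (ψ s y)) hk1 y₀ hχ (by
      show F (ψ 0 y₀) ∈ χ.source
      rw [hψ.zero]; exact hs)
    obtain ⟨D₂, c₂, d₂⟩ := part (k := fun s y => ψ s (F y)) hk2 y₀ hχ (by
      show ψ 0 (F y₀) ∈ χ.source
      rw [hψ.zero]; exact hs)
    have hX0 : D₂ y₀ ≠ 0 := by
      intro hX
      have h1 := d₂.self_of_nhds
      rw [hX] at h1
      exact hnc (F y₀) (TAN.const_of_deriv_zero hψ (F y₀) hχ hs h1)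
    set X := D₂ y₀ with hXd
    set ℓ : V n →L[ℝ] ℝ := (‖X‖ ^ 2)⁻¹ • innerSL ℝ X with hℓ
    have hℓX : ℓ X = 1 := by
      have hn : ‖X‖ ≠ 0 := norm_ne_zero_iff.2 hX0
      show (‖X‖ ^ 2)⁻¹ * inner ℝ X X = 1
      rw [real_inner_self_eq_norm_sq]
      field_simp
    have e₁ : ContinuousAt (fun y => ℓ (D₁ y)) y₀ := ℓ.continuous.continuousAt.comp c₁
    have e₂ : ContinuousAt (fun y => ℓ (D₂ y)) y₀ := ℓ.continuous.continuousAt.comp c₂
    have hne : ∀ᶠ y in 𝓝 y₀, ℓ (D₂ y) ≠ 0 :=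
      e₂.eventually_ne (by show ℓ (D₂ y₀) ≠ 0; rw [← hXd, hℓX]; norm_num)
    refine ⟨fun y => ℓ (D₁ y) / ℓ (D₂ y), e₁.div e₂ hne.self_of_nhds, ?_⟩
    filter_upwards [d₁, d₂, hne] with y g₁ g₂ hy
    set f : ℝ → ℝ := fun u => (ℓ (χ (ψ u (F y)) - χ (F y))) / ℓ (D₂ y) with hf
    have hf1 : HasDerivAt f 1 0 := by
      have h5 := (ℓ.hasFDerivAt.comp_hasDerivAt (0 : ℝ) (g₂.sub_const (χ (F y)))).div_const
        (ℓ (D₂ y))
      rw [div_self hy] at h5
      exact h5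
    have hf0 : f 0 = 0 := by
      show (ℓ (χ (ψ 0 (F y)) - χ (F y))) / ℓ (D₂ y) = 0
      rw [hψ.zero, sub_self, map_zero, zero_div]
    have hfh : HasDerivAt (fun s => f (a y s)) (ℓ (D₁ y) / ℓ (D₂ y)) 0 := by
      have h5 := (ℓ.hasFDerivAt.comp_hasDerivAt (0 : ℝ) (g₁.sub_const (χ (F y)))).div_const
        (ℓ (D₂ y))
      refine h5.congr_of_eventuallyEq (Eventually.of_forall fun s => ?_)
      show (ℓ (χ (ψ (a y s) (F y)) - χ (F y))) / ℓ (D₂ y) =
        (ℓ (χ (F (ψ s y)) - χ (F y))) / ℓ (D₂ y)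
      rw [top.ext]
    exact TAN.hasDerivAt_of_comp hf1 hf0 (top.acont y).continuousAt (top.azero y) hfh
  have hder : ∀ y, HasDerivAt (a y) (deriv (a y) 0) 0 := by
    intro y
    obtain ⟨A, -, h⟩ := key y
    exact h.self_of_nhds.differentiableAt.hasDerivAt
  refine ⟨fun y => deriv (a y) 0, ?_, ?_, hder⟩
  · rw [continuous_iff_continuousAt]
    intro y₀
    obtain ⟨A, hA, h⟩ := key y₀
    refine hA.congr ?_
    filter_upwards [h] with y hy
    exact hy.deriv.symm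
  · intro y
    have h0 : 0 ≤ deriv (a y) 0 := (top.amono y).monotone.deriv_nonneg
    refine lt_of_le_of_ne h0 fun he' => ?_
    have he : (0 : ℝ) = deriv (a y) 0 := he'
    set χ := chartAt (V n) (F y) with hχd
    have hχ : χ ∈ IsManifold.maximalAtlas (𝓡 n) ∞ N := IsManifold.chart_mem_maximalAtlas _
    have hs : F y ∈ χ.source := mem_chart_source _ _
    set φ := chartAt (V n) y with hφd
    have hφ : φ ∈ IsManifold.maximalAtlas (𝓡 n) ∞ N := IsManifold.chart_mem_maximalAtlas _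
    have hsy : y ∈ φ.source := mem_chart_source _ _
    -- the derivative of `s ↦ χ (F (ψ_s y))` vanishes
    have h1 : HasDerivAt (fun s => χ (F (ψ s y))) 0 0 := by
      obtain ⟨D₂, -, d₂⟩ := part (k := fun s y => ψ s (F y)) hk2 y hχ (by
        show ψ 0 (F y) ∈ χ.source
        rw [hψ.zero]; exact hs)
      have g₂ : HasDerivAt (fun s => χ (ψ s (F y))) (D₂ y) (a y 0) := by
        rw [top.azero]; exact d₂.self_of_nhds
      have h2 := HasDerivAt.scomp (0 : ℝ) g₂ (hder y)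
      rw [← he, zero_smul] at h2
      refine h2.congr_of_eventuallyEq (Eventually.of_forall fun s => ?_)
      show χ (F (ψ s y)) = χ (ψ (a y s) (F y))
      rw [top.ext]
    obtain ⟨L, hL⟩ := MULT.exists_DA hr F.symm F.symm.contMDiff hχ hφ hs
      (by rw [F.symm_apply_apply]; exact hsy)
    have h2 : HasDerivAt (fun s => φ (F.symm (χ.symm (χ (F (ψ s y)))))) (L 0) 0 := by
      have h3 : HasFDerivAt (fun v => φ (F.symm (χ.symm v))) L (χ (F (ψ 0 y))) := by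
        rw [hψ.zero]; exact hL.der
      exact h3.comp_hasDerivAt (0 : ℝ) h1
    rw [map_zero] at h2
    have h3 : HasDerivAt (fun s => φ (ψ s y)) 0 0 := by
      refine h2.congr_of_eventuallyEq ?_
      have hc : ContinuousAt (fun s => F (ψ s y)) 0 :=
        (F.continuous.comp (TAN.line hψ y).continuous).continuousAt
      have hs' : ∀ᶠ s in 𝓝 (0 : ℝ), F (ψ s y) ∈ χ.source := by
        apply hc.eventually_mem
        rw [hψ.zero]
        exact χ.open_source.mem_nhds hs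
      filter_upwards [hs'] with s hs'
      rw [χ.left_inv hs', F.symm_apply_apply]
    exact hnc y (TAN.const_of_deriv_zero hψ y hφ hsy h3)

end

end Pool.Agent.V5helper25.EX
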