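import Pool.Agent.V5helper25.TG.Main

/-!
# MP_4a0782, circle extensions: canonical conjugacies near typical parameters
-/

set_option autoImplicit false
set_option linter.unusedSectionVars false

open scoped Topology
open Filter Set Metric

universe u v

namespace Pool.Agent.V5helper25.EX

open Pool.Agent.TH80.OMS Pool.Agent.N813.CX Pool.Agent.N813.CX.CLOS Pool.Agent.V5helper25.TK
  Pool.Agent.V5helper25.TG

/-- bi-infinite orbits in invariant sets -/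
theorem biinf {X : Type*} (M : X → X) (K : Set X) (h1 : ∀ x ∈ K, M x ∈ K)
    (h2 : ∀ x ∈ K, ∃ y ∈ K, M y = x) {x : X} (hx : x ∈ K) :
    ∃ c : ℤ → X, c 0 = x ∧ (∀ i, c i ∈ K) ∧ ∀ i, c (i + 1) = M (c i) := by
  have h3 : ∀ x : X, ∃ y, x ∈ K → y ∈ K ∧ M y = x := by
    intro x
    by_cases hx : x ∈ K
    · obtain ⟨y, hy, hy'⟩ := h2 x hx
      exact ⟨y, fun _ => ⟨hy, hy'⟩⟩
    · exact ⟨x, fun hh => absurd hh hx⟩
  choose g hg using h3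
  have hf : ∀ n : ℕ, M^[n] x ∈ K := by
    intro n
    induction n with
    | zero => exact hx
    | succ n ih => rw [Function.iterate_succ_apply']; exact h1 _ ih
  have hb : ∀ n : ℕ, g^[n] x ∈ K := by
    intro n
    induction n with
    | zero => exact hx
    | succ n ih => rw [Function.iterate_succ_apply']; exact (hg _ ih).1
  refine ⟨fun i => match i with
    | Int.ofNat n => M^[n] x
    | Int.negSucc n => g^[n + 1] x, rfl, fun i => ?_, fun i => ?_⟩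
  · cases i with
    | ofNat n => exact hf n
    | negSucc n => exact hb (n + 1)
  · cases i with
    | ofNat n =>
      show M^[n + 1] x = M (M^[n] x)
      rw [Function.iterate_succ_apply']
    | negSucc n =>
      cases n with
      | zero =>
        show x = M (g^[0 + 1] x)
        rw [zero_add, Function.iterate_one, (hg x hx).2]
      | succ k =>
        show g^[k + 1] x = M (g^[k + 1 + 1] x)
        rw [Function.iterate_succ_apply' g (k + 1), (hg _ (hb (k + 1))).2]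

section

variable {N : Type u} [MetricSpace N] [CompactSpace N] {B : Type v} [MetricSpace B] {F : N ≃ₜ N}
  {ψ : ℝ → N → N} {a : N → ℝ → ℝ} {π : N → B} {f : B → B} {θ₀ : ℝ} {S : N → ℝ → ℝ} {e : ℝ}
  {Ω : Type u} [MetricSpace Ω] [CompactSpace Ω] {R : Ω ≃ₜ Ω} {Φ : Pm θ₀ → C(Ω, N)}

theorem a_joint {G : N → N} (h : TopExt G ψ a) (hG : Continuous G) :
    Continuous fun q : N × ℝ => a q.1 q.2 := by
  rw [continuous_iff_continuousAt]
  rintro ⟨v₀, t₀⟩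
  rw [Metric.continuousAt_iff]
  intro ε hε
  obtain ⟨δ₁, hδ₁, H1⟩ := a_close h hG (show 0 < ε / 2 by linarith)
  obtain ⟨δ₂, hδ₂, H2⟩ := Metric.continuousAt_iff.1 ((h.acont v₀).continuousAt (x := t₀)) (ε / 2)
    (by linarith)
  refine ⟨min δ₁ δ₂, lt_min hδ₁ hδ₂, ?_⟩
  rintro ⟨v, t⟩ hd
  rw [Prod.dist_eq] at hd
  have d1 : dist v v₀ < δ₁ := (le_max_left _ _).trans_lt (hd.trans_le (min_le_left _ _))
  have d2 : dist t t₀ < δ₂ := (le_max_right _ _).trans_lt (hd.trans_le (min_le_right _ _))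
  have e1 := H1 v v₀ d1 t
  have e2 := H2 d2
  rw [Real.dist_eq] at e2
  show dist (a v t) (a v₀ t₀) < ε
  rw [Real.dist_eq]
  have e3 : a v t - a v₀ t₀ = (a v t - a v₀ t) + (a v₀ t - a v₀ t₀) := by ring
  rw [e3]
  have e4 := abs_add_le (a v t - a v₀ t) (a v₀ t - a v₀ t₀)
  linarith

/-- the cocycle property of the lifts -/
theorem a_add {G : N → N} (h : TopExt G ψ a) (v : N) (u t : ℝ) :
    a (ψ u v) t = a v (t + u) - a v u := by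
  have key : ∀ t, ∃ j : ℤ, a v (t + u) - a v u - a (ψ u v) t = j := by
    intro t
    have e1 : ψ (a (ψ u v) t + a v u) (G v) = ψ (a v (t + u)) (G v) := by
      rw [h.add, ← h.ext, ← h.ext, ← h.add, h.ext]
    obtain ⟨j, hj⟩ := (psi_eq h _ _ _).1 e1
    exact ⟨-j, by push_cast; linarith⟩
  have hc : Continuous fun t => a v (t + u) - a v u - a (ψ u v) t :=
    (((h.acont v).comp (continuous_id.add continuous_const)).sub continuous_const).sub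
      (h.acont _)
  have h0 : a v (0 + u) - a v u - a (ψ u v) 0 = 0 := by rw [h.azero, zero_add]; ring
  by_contra hcon
  have hne : a v (t + u) - a v u - a (ψ u v) t ≠ 0 := fun hh => hcon (by linarith)
  obtain ⟨c, hc1, hc2⟩ : ∃ c : ℝ, |a v (c + u) - a v u - a (ψ u v) c| = 1 / 2 ∧ True := by
    obtain ⟨j, hj⟩ := key t
    have hj1 : (1 : ℝ) ≤ |a v (t + u) - a v u - a (ψ u v) t| := by
      rw [hj]
      have : j ≠ 0 := by
        rintro rfl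
        exact hne (by rw [hj]; simp)
      have h2 : 1 ≤ |j| := Int.one_le_abs this
      exact_mod_cast h2
    obtain ⟨c, hc'⟩ := mem_range_of_exists_le_of_exists_ge (c := (1 / 2 : ℝ)) hc.abs
      ⟨0, by
        show |a v (0 + u) - a v u - a (ψ u v) 0| ≤ 1 / 2
        rw [h0, abs_zero]; norm_num⟩ ⟨t, by
        show (1 / 2 : ℝ) ≤ |a v (t + u) - a v u - a (ψ u v) t|
        linarith⟩
    exact ⟨c, hc', trivial⟩
  obtain ⟨j, hj⟩ := key c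
  rw [hj] at hc1
  have h3 : |(j : ℝ)| < 1 := by rw [hc1]; norm_num
  have h4 : |j| < 1 := by exact_mod_cast h3
  rw [Int.abs_lt_one_iff.1 h4] at hc1
  norm_num at hc1

/-- typical parameters -/
def Typ (Φ : Pm θ₀ → C(Ω, N)) (s : Pm θ₀) : Prop :=
  ∀ ε : ℝ, 0 < ε → (∃ s' : Pm θ₀, (s : ℝ) < s' ∧ (s' : ℝ) < s + ε ∧ dist (Φ s') (Φ s) < ε) ∧
    ∃ s' : Pm θ₀, (s' : ℝ) < s ∧ (s : ℝ) - ε < s' ∧ dist (Φ s') (Φ s) < ε

/-- the data near a typical parameter -/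
structure Loc (ψ : ℝ → N → N) (a : N → ℝ → ℝ) (Φ : Pm θ₀ → C(Ω, N)) (s₀ sm sp : Pm θ₀)
    (ρ ρ₁ δa : ℝ) (αm αp : Ω → ℝ) : Prop where
  typ : Typ Φ s₀
  hδa : ∀ (v : N) (t : ℝ), |t| < δa → |a v t| < 1 / 4
  ρpos : 0 < ρ
  ρ1 : ρ ≤ ρ₁
  hρ : ∀ (v : N) (t : ℝ), |t| ≤ ρ → |a v t| ≤ ρ₁
  r1 : 8 * ρ₁ ≤ δa
  r2 : ρ₁ ≤ 1 / 64
  r3 : |(s₀ : ℝ)| + 40 * ρ₁ ≤ θ₀
  m1 : (sm : ℝ) < s₀
  m2 : (s₀ : ℝ) - ρ < sm
  p1 : (s₀ : ℝ) < sp
  p2 : (sp : ℝ) < s₀ + ρ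
  shm : Shf ψ Φ s₀ sm ρ αm
  shp : Shf ψ Φ s₀ sp ρ αp

/-- the canonical position of the conjugate points -/
structure Can (F : N ≃ₜ N) (ψ : ℝ → N → N) (a : N → ℝ → ℝ) (R : Ω ≃ₜ Ω) (Φ : Pm θ₀ → C(Ω, N))
    (s₀ : Pm θ₀) (ρ s : ℝ) (τ : Ω → ℝ) : Prop where
  cont : Continuous τ
  small : ∀ ω, |τ ω| ≤ ρ
  step : ∀ ω, τ (R ω) = a (Φ s₀ ω) (τ ω) + (s - s₀)
  per : ∀ ω ∈ Per R, ψ (τ ω) (Φ s₀ ω) ∈ Per (Rt F ψ s)

/-- the positions of the periodic points -/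
def Gam0 (F : N ≃ₜ N) (ψ : ℝ → N → N) (R : Ω ≃ₜ Ω) (Φ : Pm θ₀ → C(Ω, N))
    (s₀ : Pm θ₀) (ρ s : ℝ) : Set (Ω × ℝ) :=
  {q | q.1 ∈ Per R ∧ |q.2| ≤ ρ ∧ ψ q.2 (Φ s₀ q.1) ∈ Per (Rt F ψ s)}

end

end Pool.Agent.V5helper25.EX

namespace Pool.Agent.V5helper25.TG.DG

open Pool.Agent.TH80.OMS Pool.Agent.N813.CX Pool.Agent.N813.CX.CLOS Pool.Agent.V5helper25.TK
  Pool.Agent.V5helper25.TG Pool.Agent.V5helper25.EX

variable {N : Type u} [MetricSpace N] [CompactSpace N] {B : Type v} [MetricSpace B] {F : N ≃ₜ N}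
  {ψ : ℝ → N → N} {a : N → ℝ → ℝ} {π : N → B} {f : B → B} {θ₀ : ℝ} {S : N → ℝ → ℝ} {e : ℝ}
  {Ω : Type u} [MetricSpace Ω] [CompactSpace Ω] {R : Ω ≃ₜ Ω} {Φ : Pm θ₀ → C(Ω, N)}

variable (h : DG F ψ a π f θ₀ S e R Φ)

include h

theorem exLoc {s₀ : Pm θ₀} (ht : Typ Φ s₀) :
    ∃ (sm sp : Pm θ₀) (ρ ρ₁ δa : ℝ) (αm αp : Ω → ℝ), Loc ψ a Φ s₀ sm sp ρ ρ₁ δa αm αp := by
  obtain ⟨δa, hδa, H⟩ := a_small h.top F.continuous (show (0 : ℝ) < 1 / 4 by norm_num)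
  have hg : 0 < θ₀ - |(s₀ : ℝ)| := by linarith [s₀.2]
  obtain ⟨ρ₁, hρ₁, q1, q2, q3⟩ : ∃ ρ₁ : ℝ, 0 < ρ₁ ∧ ρ₁ ≤ δa / 8 ∧ ρ₁ ≤ 1 / 64 ∧
      ρ₁ ≤ (θ₀ - |(s₀ : ℝ)|) / 40 :=
    ⟨min (δa / 8) (min (1 / 64) ((θ₀ - |(s₀ : ℝ)|) / 40)), by positivity, min_le_left _ _,
      (min_le_right _ _).trans (min_le_left _ _), (min_le_right _ _).trans (min_le_right _ _)⟩
  obtain ⟨δ, hδ, H'⟩ := a_small h.top F.continuous hρ₁
  obtain ⟨ρ, hρ, t1, t2⟩ : ∃ ρ : ℝ, 0 < ρ ∧ ρ ≤ δ / 2 ∧ ρ ≤ ρ₁ :=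
    ⟨min (δ / 2) ρ₁, by positivity, min_le_left _ _, min_le_right _ _⟩
  obtain ⟨ε, hε, Hsh⟩ := h.shift_of hρ
  obtain ⟨⟨sp, p1, p2, p3⟩, sm, m1, m2, m3⟩ := ht (min ε ρ) (lt_min hε hρ)
  obtain ⟨αp, hαp⟩ := Hsh s₀ sp (p3.trans_le (min_le_left _ _))
  obtain ⟨αm, hαm⟩ := Hsh s₀ sm (m3.trans_le (min_le_left _ _))
  have l1 := min_le_right ε ρ
  exact ⟨sm, sp, ρ, ρ₁, δa, αm, αp, ht, H, hρ, t2, fun v t hvt => (H' v t (by linarith)).le,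
    by linarith, q2, by linarith, m1, by linarith, p1, by linarith, hαm, hαp⟩

theorem S0 {ω : Ω} (hω : ω ∈ Per R) (s : Pm θ₀) : Φ s ω ∈ Per (Rt F ψ s) := by
  obtain ⟨m, hm, hω⟩ := hω
  exact ⟨m, hm, by rw [← h.phi_iter, hω]⟩

theorem Sb {ω : Ω} (hω : ω ∈ Per R) (s : Pm θ₀) : π (Φ s ω) ∈ Per f :=
  per_base h.orb (h.S0 hω s)

theorem Sval {ω : Ω} (hω : ω ∈ Per R) (s₀ s : Pm θ₀) {t : ℝ} (ht : Φ s ω = ψ t (Φ s₀ ω)) :
    S (Φ s₀ ω) t = s :=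
  (h.per _ (h.Sb hω s₀) s s.2 t).1 (by rw [← ht]; exact h.S0 hω s)

variable {s₀ sm sp : Pm θ₀} {ρ ρ₁ δa : ℝ} {αm αp : Ω → ℝ}
  (l : Loc ψ a Φ s₀ sm sp ρ ρ₁ δa αm αp)

include l

theorem types {ω : Ω} (hω : ω ∈ Per R) :
    (αm ω < 0 ∧ 0 < αp ω) ∨ (αp ω < 0 ∧ 0 < αm ω) := by
  have hT := h.sf _ (h.Sb hω s₀)
  have hl := h.lip _ (h.Sb hω s₀)
  have e0 : S (Φ s₀ ω) 0 = s₀ := h.Sval hω s₀ s₀ (h.top.zero _).symm
  have ep : S (Φ s₀ ω) (αp ω) = sp := h.Sval hω s₀ sp (l.shp.eq ω)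
  have em : S (Φ s₀ ω) (αm ω) = sm := h.Sval hω s₀ sm (l.shm.eq ω)
  have b1 := abs_lt.1 (l.shp.small ω)
  have b2 := abs_lt.1 (l.shm.small ω)
  have b3 := abs_le.1 (le_refl |(s₀ : ℝ)|)
  have r3 := l.r3
  have ρp := l.ρpos
  have ρ1 := l.ρ1
  have m1 := l.m1
  have m2 := l.m2
  have p1 := l.p1
  have p2 := l.p2
  have np : αp ω ≠ 0 := by
    intro hh
    rw [hh, e0] at ep
    linarith
  have nm : αm ω ≠ 0 := by
    intro hh
    rw [hh, e0] at em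
    linarith
  have npm : αp ω ≠ αm ω := by
    intro hh
    rw [hh, em] at ep
    linarith
  rcases lt_or_gt_of_ne np with h1 | h1 <;> rcases lt_or_gt_of_ne nm with h2 | h2
  · exfalso
    rcases lt_or_gt_of_ne npm with h3 | h3
    · exact valley hT hl h3 h2 (by rw [ep, em]; linarith) (by rw [em, e0]; linarith)
        (by rw [e0]; linarith) (by rw [em]; linarith)
    · exact hill hT hl h3 h1 (by rw [ep, em]; linarith) (by rw [ep, e0]; linarith)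
        (by rw [em]; linarith) (by rw [ep]; linarith)
  · exact Or.inr ⟨h1, h2⟩
  · exact Or.inl ⟨h2, h1⟩
  · exfalso
    rcases lt_or_gt_of_ne npm with h3 | h3
    · exact hill hT hl h1 h3 (by rw [e0, ep]; linarith) (by rw [em, ep]; linarith)
        (by rw [e0]; linarith) (by rw [ep]; linarith)
    · exact valley hT hl h2 h3 (by rw [e0, em]; linarith) (by rw [em, ep]; linarith)
        (by rw [ep]; linarith) (by rw [em]; linarith)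

theorem ex1 {ω : Ω} (hω : ω ∈ Per R) {s : ℝ} (h1 : (sm : ℝ) < s) (h2 : s < sp) :
    ∃ t, |t| < ρ ∧ S (Φ s₀ ω) t = s ∧ ((αm ω < t ∧ t < αp ω) ∨ (αp ω < t ∧ t < αm ω)) := by
  have hT := h.sf _ (h.Sb hω s₀)
  have ep : S (Φ s₀ ω) (αp ω) = sp := h.Sval hω s₀ sp (l.shp.eq ω)
  have em : S (Φ s₀ ω) (αm ω) = sm := h.Sval hω s₀ sm (l.shm.eq ω)
  have b1 := abs_lt.1 (l.shp.small ω)
  have b2 := abs_lt.1 (l.shm.small ω)
  rcases h.types l hω with ⟨a1, a2⟩ | ⟨a1, a2⟩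
  · obtain ⟨t, ht, ht'⟩ := intermediate_value_Ioo (show αm ω ≤ αp ω by linarith)
      hT.cont.continuousOn (show s ∈ Ioo (S (Φ s₀ ω) (αm ω)) (S (Φ s₀ ω) (αp ω)) by
        rw [ep, em]; exact ⟨h1, h2⟩)
    exact ⟨t, by rw [abs_lt]; constructor <;> linarith [ht.1, ht.2], ht', Or.inl ht⟩
  · obtain ⟨t, ht, ht'⟩ := intermediate_value_Ioo' (show αp ω ≤ αm ω by linarith)
      hT.cont.continuousOn (show s ∈ Ioo (S (Φ s₀ ω) (αm ω)) (S (Φ s₀ ω) (αp ω)) by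
        rw [ep, em]; exact ⟨h1, h2⟩)
    exact ⟨t, by rw [abs_lt]; constructor <;> linarith [ht.1, ht.2], ht', Or.inr ht⟩

theorem win {s : ℝ} (h1 : (sm : ℝ) < s) (h2 : s < sp) : |s| + 39 * ρ₁ ≤ θ₀ := by
  have b3 := abs_le.1 (le_refl |(s₀ : ℝ)|)
  have r3 := l.r3
  have ρ1 := l.ρ1
  have m2 := l.m2
  have p2 := l.p2
  have : |s| ≤ |(s₀ : ℝ)| + ρ₁ := by
    rw [abs_le]; constructor <;> linarith
  linarith

theorem un1 {ω : Ω} (hω : ω ∈ Per R) {s : ℝ} (h1 : (sm : ℝ) < s) (h2 : s < sp) {t t' : ℝ}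
    (ht : |t| ≤ 4 * ρ₁) (ht' : |t'| ≤ 4 * ρ₁) (hS : S (Φ s₀ ω) t = s)
    (hS' : S (Φ s₀ ω) t' = s) : t = t' := by
  have hT := h.sf _ (h.Sb hω s₀)
  have hl := h.lip _ (h.Sb hω s₀)
  have hw := h.win l h1 h2
  have hρ₁ : 0 < ρ₁ := l.ρpos.trans_le l.ρ1
  have b1 := abs_le.1 (le_refl |s|)
  obtain ⟨c1, c2⟩ := abs_le.1 ht
  obtain ⟨d1, d2⟩ := abs_le.1 ht'
  refine hT.inj' (hS.trans hS'.symm) fun u hu => ?_
  rcases mem_uIcc.1 hu with ⟨u1, u2⟩ | ⟨u1, u2⟩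
  · have e1 := hl t u u1
    have e2 := hl u t' u2
    rw [abs_lt]; constructor <;> linarith
  · have e1 := hl t' u u1
    have e2 := hl u t u2
    rw [abs_lt]; constructor <;> linarith

/-- one step -/
theorem step_eq (s : ℝ) (ω : Ω) (t : ℝ) :
    ψ (a (Φ s₀ ω) t + (s - s₀)) (Φ s₀ (R ω)) = Rt F ψ s (ψ t (Φ s₀ ω)) := by
  rw [← h.conj, Rt_ext h.top]
  show ψ (a (Φ s₀ ω) t + (s - s₀)) (ψ s₀ (F (Φ s₀ ω))) = _
  rw [← h.top.add]
  congr 1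
  ring

omit l in
theorem perR {ω : Ω} : R ω ∈ Per R ↔ ω ∈ Per R := by
  constructor
  · rintro ⟨m, hm, h1⟩
    refine ⟨m, hm, R.injective ?_⟩
    rw [← Function.iterate_succ_apply' (R : Ω → Ω), Function.iterate_succ_apply, h1]
  · rintro ⟨m, hm, h1⟩
    exact ⟨m, hm, by rw [← Function.iterate_succ_apply, Function.iterate_succ_apply', h1]⟩

theorem gam_step {s : ℝ} (h1 : (sm : ℝ) < s) (h2 : s < sp) {q : Ω × ℝ}
    (hq : q ∈ Gam0 F ψ R Φ s₀ ρ s) :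
    (R q.1, a (Φ s₀ q.1) q.2 + (s - s₀)) ∈ Gam0 F ψ R Φ s₀ ρ s := by
  obtain ⟨q1, q2, q3⟩ := hq
  have hR : R q.1 ∈ Per R := h.perR.2 q1
  have hp : ψ (a (Φ s₀ q.1) q.2 + (s - s₀)) (Φ s₀ (R q.1)) ∈ Per (Rt F ψ s) := by
    rw [h.step_eq l]
    exact per_step q3
  have hw := h.win l h1 h2
  have hρ₁ : 0 < ρ₁ := l.ρpos.trans_le l.ρ1
  have hsθ : |s| < θ₀ := by linarith
  have hS := (h.per _ (h.Sb hR s₀) s hsθ _).1 hp
  obtain ⟨t, ht, hSt, -⟩ := h.ex1 l hR h1 h2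
  have b1 := abs_le.1 (l.hρ (Φ s₀ q.1) q.2 q2)
  have m2 := l.m2
  have p2 := l.p2
  have ρ1 := l.ρ1
  have e1 : a (Φ s₀ q.1) q.2 + (s - s₀) = t := by
    refine h.un1 l hR h1 h2 ?_ (by linarith) hS hSt
    rw [abs_le]; constructor <;> linarith
  exact ⟨hR, by show |a (Φ s₀ q.1) q.2 + (s - s₀)| ≤ ρ; rw [e1]; exact ht.le, hp⟩

theorem gam_back {s : ℝ} (h1 : (sm : ℝ) < s) (h2 : s < sp) {q : Ω × ℝ}
    (hq : q ∈ Gam0 F ψ R Φ s₀ ρ s) :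
    ∃ q' ∈ Gam0 F ψ R Φ s₀ ρ s, (R q'.1, a (Φ s₀ q'.1) q'.2 + (s - s₀)) = q := by
  obtain ⟨q1, q2, q3⟩ := hq
  have hR : R.symm q.1 ∈ Per R := h.perR.1 (by rw [R.apply_symm_apply]; exact q1)
  have hw := h.win l h1 h2
  have hρ₁ : 0 < ρ₁ := l.ρpos.trans_le l.ρ1
  have ρ1 := l.ρ1
  have hsθ : |s| < θ₀ := by linarith
  obtain ⟨t, ht, hSt, -⟩ := h.ex1 l hR h1 h2
  have hg : (R.symm q.1, t) ∈ Gam0 F ψ R Φ s₀ ρ s :=
    ⟨hR, ht.le, (h.per _ (h.Sb hR s₀) s hsθ _).2 hSt⟩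
  refine ⟨_, hg, ?_⟩
  obtain ⟨g1, g2, g3⟩ := h.gam_step l h1 h2 hg
  have e0 : R (R.symm q.1) = q.1 := R.apply_symm_apply _
  simp only [e0] at g1 g2 g3 ⊢
  refine Prod.ext rfl ?_
  exact h.un1 l g1 h1 h2 (by show |_| ≤ _; linarith) (by linarith)
    ((h.per _ (h.Sb g1 s₀) s hsθ _).1 g3) ((h.per _ (h.Sb g1 s₀) s hsθ _).1 q3)

/-- **The canonical conjugacies.** -/
theorem exCan {s : Pm θ₀} (hs : Typ Φ s) (h1 : (sm : ℝ) < s) (h2 : (s : ℝ) < sp) :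
    ∃ τ : Ω → ℝ, Can F ψ a R Φ s₀ ρ s τ := by
  have hw := h.win l h1 h2
  have hρ₁ : 0 < ρ₁ := l.ρpos.trans_le l.ρ1
  have ρ1 := l.ρ1
  set Γ : Set (Ω × ℝ) := closure (Gam0 F ψ R Φ s₀ ρ s) with hΓ
  have hΓs : Γ ⊆ univ ×ˢ Icc (-ρ) ρ := by
    refine closure_minimal ?_ (isClosed_univ.prod isClosed_Icc)
    intro q hq
    exact ⟨mem_univ _, abs_le.1 hq.2.1⟩
  have hΓc : IsCompact Γ :=
    (isCompact_univ.prod isCompact_Icc).of_isClosed_subset isClosed_closure hΓs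
  have hΓb : ∀ q ∈ Γ, |q.2| ≤ ρ := fun q hq => abs_le.2 (hΓs hq).2
  set M : Ω × ℝ → Ω × ℝ := fun q => (R q.1, a (Φ s₀ q.1) q.2 + (s - s₀)) with hM
  have hMc : Continuous M := by
    refine (R.continuous.comp continuous_fst).prodMk (Continuous.add ?_ continuous_const)
    exact (a_joint h.top F.continuous).comp
      (((Φ s₀).continuous.comp continuous_fst).prodMk continuous_snd)
  have hM1 : ∀ q ∈ Γ, M q ∈ Γ := by
    intro q hq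
    exact map_mem_closure hMc hq fun q' hq' => h.gam_step l h1 h2 hq'
  have hM2 : ∀ q ∈ Γ, ∃ q' ∈ Γ, M q' = q := by
    have : Γ ⊆ M '' Γ := by
      refine closure_minimal ?_ (hΓc.image hMc).isClosed
      intro q hq
      obtain ⟨q', hq', hq''⟩ := h.gam_back l h1 h2 hq
      exact ⟨q', subset_closure hq', hq''⟩
    exact this
  have hrng : ∀ q ∈ Γ, ψ q.2 (Φ s₀ q.1) ∈ range (Φ s) := by
    have hcl : IsClosed {q : Ω × ℝ | ψ q.2 (Φ s₀ q.1) ∈ range (Φ s)} := by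
      refine IsClosed.preimage ?_ (isCompact_range (Φ s).continuous).isClosed
      exact h.top.cont.comp (continuous_snd.prodMk ((Φ s₀).continuous.comp continuous_fst))
    have hsub : Gam0 F ψ R Φ s₀ ρ s ⊆ {q : Ω × ℝ | ψ q.2 (Φ s₀ q.1) ∈ range (Φ s)} :=
      fun q hq => h.rng s hq.2.2
    exact fun q hq => closure_minimal hsub hcl hq
  -- existence
  have hex : ∀ ω, ∃ t, (ω, t) ∈ Γ := by
    have hcl : IsClosed (Prod.fst '' Γ) := (hΓc.image continuous_fst).isClosed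
    intro ω
    by_contra hcon
    push Not at hcon
    obtain ⟨ω', hω', hp⟩ := h.dens (Prod.fst '' Γ)ᶜ hcl.isOpen_compl
      ⟨ω, by rintro ⟨q, hq, rfl⟩; exact hcon q.2 hq⟩
    obtain ⟨t, ht, hSt, -⟩ := h.ex1 l hp h1 h2
    exact hω' ⟨(ω', t), subset_closure ⟨hp, ht.le, (h.per _ (h.Sb hp s₀) s s.2 _).2 hSt⟩, rfl⟩
  -- uniqueness
  have huniq : ∀ ω t t', (ω, t) ∈ Γ → (ω, t') ∈ Γ → t = t' := by
    intro ω t t' ht ht'
    obtain ⟨c, c0, cK, cM⟩ := biinf M Γ hM1 hM2 ht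
    obtain ⟨c', c0', cK', cM'⟩ := biinf M Γ hM1 hM2 ht'
    have hfst : ∀ i, (c i).1 = (c' i).1 := by
      refine int_all (P := fun i => (c i).1 = (c' i).1) (fun i hi => ?_) (fun i hi => ?_)
        (j := 0) (by rw [c0, c0'])
      · rw [cM, cM']
        show R (c i).1 = R (c' i).1
        rw [hi]
      · have hi' : (c (i + 1)).1 = (c' (i + 1)).1 := hi
        rw [cM, cM'] at hi'
        exact R.injective hi'
    have hx : ∀ i, ∃ x, Φ s x = ψ (c i).2 (Φ s₀ (c i).1) := fun i => hrng _ (cK i)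
    have hy : ∀ i, ∃ x, Φ s x = ψ (c' i).2 (Φ s₀ (c' i).1) := fun i => hrng _ (cK' i)
    choose x hx using hx
    choose y hy using hy
    have hxR : ∀ i, x (i + 1) = R (x i) := by
      intro i
      refine h.inj s ?_
      rw [hx, ← h.conj, hx, ← h.step_eq l, cM]
    have hyR : ∀ i, y (i + 1) = R (y i) := by
      intro i
      refine h.inj s ?_
      rw [hy, ← h.conj, hy, ← h.step_eq l, cM']
    have hxy := h.noexp' l.hδa (fun ε hε => (hs ε hε).1) (ρ := 4 * ρ₁) (by linarith)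
      (by linarith [l.r1]) (by linarith [l.r2]) (by linarith) x y hxR hyR fun i => by
        refine ⟨(c' i).2 - (c i).2, ?_, ?_⟩
        · have b1 := abs_le.1 (hΓb _ (cK i))
          have b2 := abs_le.1 (hΓb _ (cK' i))
          rw [abs_lt]; constructor <;> linarith
        · rw [hy, hx, ← h.top.add, hfst]
          congr 1
          ring
    have e1 : ψ t (Φ s₀ ω) = ψ t' (Φ s₀ ω) := by
      have e2 := hx 0
      have e3 := hy 0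
      rw [← hxy, e2, c0, c0'] at e3
      exact e3
    refine h.uniq e1 ?_
    have b1 := abs_le.1 (hΓb _ ht)
    have b2 := abs_le.1 (hΓb _ ht')
    have := l.r2
    rw [abs_lt]; constructor <;> linarith
  choose τ hτ using hex
  refine ⟨τ, ?_, fun ω => hΓb _ (hτ ω), fun ω => ?_, fun ω hω => ?_⟩
  · rw [continuous_iff_isClosed]
    intro C hC
    have e1 : τ ⁻¹' C = Prod.fst '' (Γ ∩ (Prod.snd ⁻¹' C)) := by
      ext ω
      constructor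
      · intro hω
        exact ⟨(ω, τ ω), ⟨hτ ω, hω⟩, rfl⟩
      · rintro ⟨q, ⟨hq, hq'⟩, rfl⟩
        show τ q.1 ∈ C
        rw [huniq q.1 (τ q.1) q.2 (hτ _) hq]
        exact hq'
    rw [e1]
    exact ((hΓc.inter_right (hC.preimage continuous_snd)).image continuous_fst).isClosed
  · exact huniq (R ω) _ _ (hτ _) (hM1 _ (hτ ω))
  · obtain ⟨t, ht, hSt, -⟩ := h.ex1 l hω h1 h2
    have hp := (h.per _ (h.Sb hω s₀) s s.2 _).2 hSt
    have e1 : (ω, t) ∈ Γ := subset_closure ⟨hω, ht.le, hp⟩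
    rw [huniq ω (τ ω) t (hτ ω) e1]
    exact hp

end Pool.Agent.V5helper25.TG.DG
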