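import Pool.Agent.V5helper25.EX.Can

/-!
# MP_4a0782, circle extensions: canonical conjugacies near typical parameters, second part
-/

set_option autoImplicit false
set_option linter.unusedSectionVars false

open scoped Topology
open Filter Set Metric

universe u v

namespace Pool.Agent.V5helper25.TG.DG

open Pool.Agent.TH80.OMS Pool.Agent.N813.CX Pool.Agent.N813.CX.CLOS Pool.Agent.V5helper25.TK
  Pool.Agent.V5helper25.TG Pool.Agent.V5helper25.EX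

variable {N : Type u} [MetricSpace N] [CompactSpace N] {B : Type v} [MetricSpace B] {F : N ≃ₜ N}
  {ψ : ℝ → N → N} {a : N → ℝ → ℝ} {π : N → B} {f : B → B} {θ₀ : ℝ} {S : N → ℝ → ℝ} {e : ℝ}
  {Ω : Type u} [MetricSpace Ω] [CompactSpace Ω] {R : Ω ≃ₜ Ω} {Φ : Pm θ₀ → C(Ω, N)}

variable (h : DG F ψ a π f θ₀ S e R Φ) {s₀ sm sp : Pm θ₀} {ρ ρ₁ δa : ℝ} {αm αp : Ω → ℝ}
  (l : Loc ψ a Φ s₀ sm sp ρ ρ₁ δa αm αp)

include h l

theorem can_conj {s : ℝ} {τ : Ω → ℝ} (c : Can F ψ a R Φ s₀ ρ s τ) (ω : Ω) :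
    Rt F ψ s (ψ (τ ω) (Φ s₀ ω)) = ψ (τ (R ω)) (Φ s₀ (R ω)) := by
  rw [c.step, h.step_eq l]

theorem can_inj {s : ℝ} {τ : Ω → ℝ} (c : Can F ψ a R Φ s₀ ρ s τ) :
    Function.Injective fun ω => ψ (τ ω) (Φ s₀ ω) := by
  intro ω ω' he
  have he : ψ (τ ω) (Φ s₀ ω) = ψ (τ ω') (Φ s₀ ω') := he
  have hρ₁ : 0 < ρ₁ := l.ρpos.trans_le l.ρ1
  have ρ1 := l.ρ1
  have hz : ∀ (ω : Ω) (i : ℤ), R (((R.toEquiv : Equiv.Perm Ω) ^ i) ω) =
      ((R.toEquiv : Equiv.Perm Ω) ^ (i + 1)) ω := by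
    intro ω i
    rw [add_comm, zpow_add, zpow_one, Equiv.Perm.mul_apply]
    rfl
  have hall : ∀ i : ℤ, ψ (τ (((R.toEquiv : Equiv.Perm Ω) ^ i) ω))
      (Φ s₀ (((R.toEquiv : Equiv.Perm Ω) ^ i) ω)) = ψ (τ (((R.toEquiv : Equiv.Perm Ω) ^ i) ω'))
      (Φ s₀ (((R.toEquiv : Equiv.Perm Ω) ^ i) ω')) := by
    refine int_all (P := fun i : ℤ => ψ (τ (((R.toEquiv : Equiv.Perm Ω) ^ i) ω))
      (Φ s₀ (((R.toEquiv : Equiv.Perm Ω) ^ i) ω)) = ψ (τ (((R.toEquiv : Equiv.Perm Ω) ^ i) ω'))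
      (Φ s₀ (((R.toEquiv : Equiv.Perm Ω) ^ i) ω'))) (fun i hi => ?_) (fun i hi => ?_) (j := 0)
      (by simpa using he)
    · rw [← hz, ← hz, ← h.can_conj l c, ← h.can_conj l c, hi]
    · refine Rt_inj h.top s ?_
      rw [h.can_conj l c, h.can_conj l c, hz, hz]
      exact hi
  have hxy := h.noexp' l.hδa (fun ε hε => (l.typ ε hε).1) (ρ := 4 * ρ₁) (by linarith)
    (by linarith [l.r1]) (by linarith [l.r2]) (by linarith [l.r3])
    (fun i => ((R.toEquiv : Equiv.Perm Ω) ^ i) ω) (fun i => ((R.toEquiv : Equiv.Perm Ω) ^ i) ω')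
    (fun i => (hz ω i).symm) (fun i => (hz ω' i).symm) fun i => by
      refine ⟨-τ (((R.toEquiv : Equiv.Perm Ω) ^ i) ω') + τ (((R.toEquiv : Equiv.Perm Ω) ^ i) ω),
        ?_, ?_⟩
      · have b1 := abs_le.1 (c.small (((R.toEquiv : Equiv.Perm Ω) ^ i) ω))
        have b2 := abs_le.1 (c.small (((R.toEquiv : Equiv.Perm Ω) ^ i) ω'))
        rw [abs_lt]; constructor <;> linarith
      · rw [h.top.add, hall, ← h.top.add, neg_add_cancel, h.top.zero]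
  have := congrFun hxy 0
  simpa using this

theorem can_rng {s : ℝ} (h1 : (sm : ℝ) < s) (h2 : s < sp) {τ : Ω → ℝ}
    (c : Can F ψ a R Φ s₀ ρ s τ) {q : N} (hq : q ∈ Per (Rt F ψ s)) :
    ∃ ω ∈ Per R, ψ (τ ω) (Φ s₀ ω) = q := by
  have hw := h.win l h1 h2
  have hρ₁ : 0 < ρ₁ := l.ρpos.trans_le l.ρ1
  have ρ1 := l.ρ1
  have hsθ : |s| < θ₀ := by linarith
  have hP : π q ∈ Per f := per_base h.orb hq
  have hT := h.sf q hP
  have T0 : S q 0 = s := (h.per q hP s hsθ 0).1 (by rw [h.top.zero]; exact hq)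
  obtain ⟨α, β, hα, hβ, hab, hends⟩ := hT.comp (x := 0) (σ₁ := sm) (σ₂ := sp)
    (by rw [T0]; exact h1) (by rw [T0]; exact h2) (abs_lt.1 sm.2).1 (abs_lt.1 sp.2).2
  have m1 := l.m1
  have p1 := l.p1
  have hαβ : α < β := hα.trans hβ
  obtain ⟨u, hu, hTu⟩ : ∃ u ∈ Ioo α β, S q u = s₀ := by
    rcases hends with ⟨e1, e2⟩ | ⟨e1, e2⟩
    · exact intermediate_value_Ioo hαβ.le hT.cont.continuousOn
        (show (s₀ : ℝ) ∈ Ioo (S q α) (S q β) by rw [e1, e2]; exact ⟨m1, p1⟩)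
    · exact intermediate_value_Ioo' hαβ.le hT.cont.continuousOn
        (show (s₀ : ℝ) ∈ Ioo (S q β) (S q α) by rw [e1, e2]; exact ⟨m1, p1⟩)
  have hp : ψ u q ∈ Per (Rt F ψ s₀) := (h.per q hP s₀ s₀.2 u).2 hTu
  obtain ⟨ω, hω⟩ := h.rng s₀ hp
  have hωP : ω ∈ Per R := by
    obtain ⟨m, hm, hm'⟩ := hp
    refine ⟨m, hm, h.inj s₀ ?_⟩
    rw [h.phi_iter, hω, hm']
  have hsh : ∀ (σ : Pm θ₀) (t : ℝ), S (Φ s₀ ω) t = σ → S q (t + u) = σ := by
    intro σ t ht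
    refine (h.per q hP σ σ.2 _).1 ?_
    rw [h.top.add, ← hω]
    exact (h.per _ (h.Sb hωP s₀) σ σ.2 t).2 ht
  have ep := hsh sp _ (h.Sval hωP s₀ sp (l.shp.eq ω))
  have em := hsh sm _ (h.Sval hωP s₀ sm (l.shm.eq ω))
  have np : ¬ (α < αp ω + u ∧ αp ω + u < β) := by
    intro hh
    have := (hab _ hh.1 hh.2).2
    rw [ep] at this
    exact lt_irrefl _ this
  have nm : ¬ (α < αm ω + u ∧ αm ω + u < β) := by
    intro hh
    have := (hab _ hh.1 hh.2).1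
    rw [em] at this
    exact lt_irrefl _ this
  push Not at np nm
  have b1 := abs_lt.1 (l.shp.small ω)
  have b2 := abs_lt.1 (l.shm.small ω)
  have hub : |(-u)| ≤ 4 * ρ₁ := by
    rcases h.types l hωP with ⟨a1, a2⟩ | ⟨a1, a2⟩
    · have c1 : β ≤ αp ω + u := np (by linarith [hu.1])
      have c2 : αm ω + u ≤ α := by
        by_contra hcon
        push Not at hcon
        have := nm hcon
        linarith [hu.2]
      rw [abs_le]; constructor <;> linarith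
    · have c1 : β ≤ αm ω + u := nm (by linarith [hu.1])
      have c2 : αp ω + u ≤ α := by
        by_contra hcon
        push Not at hcon
        have := np hcon
        linarith [hu.2]
      rw [abs_le]; constructor <;> linarith
  have e1 : S (Φ s₀ ω) (-u) = s := by
    refine (h.per _ (h.Sb hωP s₀) s hsθ _).1 ?_
    rw [hω, ← h.top.add, neg_add_cancel, h.top.zero]
    exact hq
  have e2 : S (Φ s₀ ω) (τ ω) = s := (h.per _ (h.Sb hωP s₀) s hsθ _).1 (c.per ω hωP)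
  have e3 := h.un1 l hωP h1 h2 ((c.small ω).trans (by linarith)) hub e2 e1
  refine ⟨ω, hωP, ?_⟩
  rw [e3, hω, ← h.top.add, neg_add_cancel, h.top.zero]

/-- monotonicity, for the periodic points -/
theorem mono_per {s s' : ℝ} (hss : s < s') (h1 : (sm : ℝ) < s) (h2 : s' < sp) {τ τ' : Ω → ℝ}
    (c : Can F ψ a R Φ s₀ ρ s τ) (c' : Can F ψ a R Φ s₀ ρ s' τ') {ω : Ω} (hω : ω ∈ Per R) :
    (0 ≤ αp ω → τ ω < τ' ω) ∧ (αp ω < 0 → τ' ω < τ ω) := by
  have hT := h.sf _ (h.Sb hω s₀)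
  have hl := h.lip _ (h.Sb hω s₀)
  have hw := h.win l h1 (hss.trans h2)
  have hw' := h.win l (h1.trans hss) h2
  have hρ₁ : 0 < ρ₁ := l.ρpos.trans_le l.ρ1
  have ρ1 := l.ρ1
  have e1 : S (Φ s₀ ω) (τ ω) = s :=
    (h.per _ (h.Sb hω s₀) s (by linarith) _).1 (c.per ω hω)
  have e2 : S (Φ s₀ ω) (τ' ω) = s' :=
    (h.per _ (h.Sb hω s₀) s' (by linarith) _).1 (c'.per ω hω)
  have ep : S (Φ s₀ ω) (αp ω) = sp := h.Sval hω s₀ sp (l.shp.eq ω)
  have em : S (Φ s₀ ω) (αm ω) = sm := h.Sval hω s₀ sm (l.shm.eq ω)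
  have b1 := abs_lt.1 (l.shp.small ω)
  have b2 := abs_lt.1 (l.shm.small ω)
  have b3 := abs_le.1 (le_refl |(s₀ : ℝ)|)
  have b4 := abs_le.1 (c.small ω)
  have b5 := abs_le.1 (c'.small ω)
  have r3 := l.r3
  have m1 := l.m1
  have m2 := l.m2
  have p1 := l.p1
  have p2 := l.p2
  have n1 : τ ω ≠ τ' ω := by
    intro hh
    rw [hh, e2] at e1
    linarith
  have n2 : τ' ω ≠ αm ω := by
    intro hh
    rw [hh, em] at e2
    linarith
  constructor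
  · intro hup
    obtain ⟨a1, a2⟩ : αm ω < 0 ∧ 0 < αp ω := by
      rcases h.types l hω with hh | hh
      · exact hh
      · linarith [hh.1]
    by_contra hcon
    push Not at hcon
    have hlt : τ' ω < τ ω := lt_of_le_of_ne hcon (Ne.symm n1)
    rcases lt_or_gt_of_ne n2 with h3 | h3
    · exact valley hT hl h3 (show αm ω < αp ω by linarith) (by rw [e2, em]; linarith)
        (by rw [em, ep]; linarith) (by rw [ep]; linarith) (by rw [em]; linarith)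
    · exact hill hT hl h3 hlt (by rw [e2, em]; linarith) (by rw [e1, e2]; linarith)
        (by rw [em]; linarith) (by rw [e2]; linarith)
  · intro hdn
    obtain ⟨a1, a2⟩ : αp ω < 0 ∧ 0 < αm ω := by
      rcases h.types l hω with hh | hh
      · linarith [hh.2]
      · exact hh
    by_contra hcon
    push Not at hcon
    have hlt : τ ω < τ' ω := lt_of_le_of_ne hcon n1
    rcases lt_or_gt_of_ne n2 with h3 | h3
    · exact hill hT hl hlt h3 (by rw [e1, e2]; linarith) (by rw [e2, em]; linarith)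
        (by rw [e1]; linarith) (by rw [e2]; linarith)
    · exact valley hT hl (show αp ω < αm ω by linarith) h3 (by rw [ep, em]; linarith)
        (by rw [em, e2]; linarith) (by rw [e2]; linarith) (by rw [em]; linarith)

/-- the points which move up -/
theorem up_clopen : IsClopen {ω | 0 ≤ αp ω} ∧ ∀ ω, 0 ≤ αp (R ω) ↔ 0 ≤ αp ω := by
  have hρ₁ : 0 < ρ₁ := l.ρpos.trans_le l.ρ1
  have ρ1 := l.ρ1
  have r1 := l.r1
  have r2 := l.r2
  have p2 := l.p2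
  have hfw := fun ω => h.typ_fwd l.hδa (s := s₀) (s' := sp) l.p1 (by linarith) (ρ := ρ)
    (by linarith) (by linarith) l.shp (ω := ω)
  obtain ⟨c, hc, hc1, hc2⟩ := h.typ_bwd l.hδa (s := s₀) (s' := sp) l.p1 (by linarith) (ρ := ρ)
    (by linarith) (by linarith) l.shp
  have huq : ∀ ω t, t ∈ Icc (-ρ) ρ → Φ sp ω = ψ t (Φ s₀ ω) → t = αp ω := by
    intro ω t ht ht'
    refine h.uniq (ht'.symm.trans (l.shp.eq ω)) ?_
    have h1 := l.shp.small ω
    have h2 : |t| ≤ ρ := abs_le.2 ht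
    have h3 := abs_sub t (αp ω)
    linarith
  have e1 : {ω | 0 ≤ αp ω} = {ω | ∃ t ∈ Icc 0 ρ, Φ sp ω = ψ t (Φ s₀ ω)} := by
    ext ω
    constructor
    · intro hω
      exact ⟨αp ω, ⟨hω, (abs_lt.1 (l.shp.small ω)).2.le⟩, l.shp.eq ω⟩
    · rintro ⟨t, ht, ht'⟩
      have := huq ω t ⟨by linarith [ht.1, l.ρpos], ht.2⟩ ht'
      show 0 ≤ αp ω
      rw [← this]
      exact ht.1
  have e2 : {ω | 0 ≤ αp ω}ᶜ = {ω | ∃ t ∈ Icc (-ρ) (-c), Φ sp ω = ψ t (Φ s₀ ω)} := by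
    ext ω
    constructor
    · intro hω
      rcases hc1 ω with h3 | h3
      · exact ⟨αp ω, ⟨(abs_lt.1 (l.shp.small ω)).1.le, h3⟩, l.shp.eq ω⟩
      · exact absurd h3 hω
    · rintro ⟨t, ht, ht'⟩ hω
      have := huq ω t ⟨ht.1, by linarith [ht.2, l.ρpos]⟩ ht'
      have hω' : 0 ≤ αp ω := hω
      rw [← this] at hω'
      linarith [ht.2]
  refine ⟨⟨?_, ?_⟩, fun ω => ⟨hc2 ω, fun hω => ?_⟩⟩
  · rw [e1]
    exact h.pos_closed s₀ sp _ _
  · rw [← isClosed_compl_iff, e2]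
    exact h.pos_closed s₀ sp _ _
  · have := hfw ω hω
    linarith [l.p1]

/-- monotonicity -/
theorem mono_all {s s' : ℝ} (hss : s < s') (h1 : (sm : ℝ) < s) (h2 : s' < sp) {τ τ' : Ω → ℝ}
    (c : Can F ψ a R Φ s₀ ρ s τ) (c' : Can F ψ a R Φ s₀ ρ s' τ') (ω : Ω) :
    (0 ≤ αp ω → τ ω < τ' ω) ∧ (αp ω < 0 → τ' ω < τ ω) := by
  obtain ⟨⟨hcl, hop⟩, hinv⟩ := h.up_clopen l
  have hup : ∀ ω, 0 ≤ αp ω → τ ω ≤ τ' ω := by
    intro ω hω
    by_contra hcon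
    push Not at hcon
    obtain ⟨ω', ⟨g1, g2⟩, g3⟩ := h.dens ({ω | 0 ≤ αp ω} ∩ {ω | τ' ω < τ ω})
      (hop.inter (isOpen_lt c'.cont c.cont)) ⟨ω, hω, hcon⟩
    have g4 := (h.mono_per l hss h1 h2 c c' g3).1 g1
    have g2' : τ' ω' < τ ω' := g2
    linarith
  have hdn : ∀ ω, αp ω < 0 → τ' ω ≤ τ ω := by
    intro ω hω
    by_contra hcon
    push Not at hcon
    obtain ⟨ω', ⟨g1, g2⟩, g3⟩ := h.dens ({ω | 0 ≤ αp ω}ᶜ ∩ {ω | τ ω < τ' ω})
      (hcl.isOpen_compl.inter (isOpen_lt c.cont c'.cont))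
      ⟨ω, (by show ¬ 0 ≤ αp ω; exact not_le.2 hω), hcon⟩
    have g4 := (h.mono_per l hss h1 h2 c c' g3).2 (not_le.1 g1)
    have g2' : τ ω' < τ' ω' := g2
    linarith
  constructor
  · intro hω
    obtain ⟨ω₁, rfl⟩ := R.surjective ω
    have hω₁ := hup ω₁ ((hinv ω₁).1 hω)
    have g1 := (h.top.amono (Φ s₀ ω₁)).monotone hω₁
    rw [c.step, c'.step]
    linarith
  · intro hω
    refine lt_of_le_of_ne (hdn ω hω) fun he => ?_
    have hω' : αp (R ω) < 0 := by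
      rw [← not_le, hinv, not_le]
      exact hω
    have g1 := hdn (R ω) hω'
    rw [c.step, c'.step, he] at g1
    linarith

end Pool.Agent.V5helper25.TG.DG
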