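import Mathlib

/-!
# MP_4a0782, circle extensions: measure theory
-/

set_option autoImplicit false
set_option linter.unusedSectionVars false

open scoped Topology
open MeasureTheory Filter Set Metric

universe u v

namespace Pool.Agent.V5helper25.EX

section

variable {Ω : Type u} [MetricSpace Ω] [CompactSpace Ω] {B : Type v} [MetricSpace B]

/-- the sum over the fibres of a finite-to-one map -/
noncomputable def Gs {g : Ω → B} (hfin : ∀ y, {ω | g ω = y}.Finite) (w : Ω → ℝ) (y : B) : ℝ :=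
  ∑ ω ∈ (hfin y).toFinset, w ω

variable [MeasurableSpace B] [BorelSpace B]

theorem Gs_meas {g : Ω → B} (hg : Continuous g) (hfin : ∀ y, {ω | g ω = y}.Finite) {w : Ω → ℝ}
    (hw : Continuous w) (hw0 : ∀ ω, 0 ≤ w ω) : Measurable (Gs hfin w) := by
  refine measurable_of_Ioi fun c => ?_
  rcases lt_or_ge c 0 with hc | hc
  · have : Gs hfin w ⁻¹' Ioi c = univ := by
      refine eq_univ_of_forall fun y => ?_
      exact hc.trans_le (Finset.sum_nonneg fun ω _ => hw0 ω)
    rw [this]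
    exact MeasurableSet.univ
  · have key : Gs hfin w ⁻¹' Ioi c = ⋃ k : ℕ, ⋃ n : ℕ,
        (fun z : Fin (k + 1) → Ω => g (z 0)) '' {z : Fin (k + 1) → Ω | (∀ i, g (z i) = g (z 0)) ∧
          (∀ i j, i ≠ j → 1 / ((n : ℝ) + 1) ≤ dist (z i) (z j)) ∧
          c + 1 / ((n : ℝ) + 1) ≤ ∑ i, w (z i)} := by
      ext y
      simp only [mem_iUnion]
      constructor
      · intro hy
        have hy : c < ∑ ω ∈ (hfin y).toFinset, w ω := hy
        have hne : (hfin y).toFinset.Nonempty := by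
          rw [Finset.nonempty_iff_ne_empty]
          intro he
          rw [he, Finset.sum_empty] at hy
          linarith
        obtain ⟨k, hk⟩ : ∃ k, (hfin y).toFinset.card = k + 1 :=
          ⟨(hfin y).toFinset.card - 1, by have := hne.card_pos; omega⟩
        let en := (hfin y).toFinset.equivFinOfCardEq hk
        have hz : ∀ i, g (en.symm i) = y := fun i => by
          have := (en.symm i).2
          rw [Set.Finite.mem_toFinset] at this
          exact this
        obtain ⟨p, -, hp⟩ := Finset.exists_min_image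
          (Finset.univ : Finset (Fin (k + 1) × Fin (k + 1)))
          (fun p => if p.1 = p.2 then (1 : ℝ) else dist (en.symm p.1 : Ω) (en.symm p.2))
          ⟨(0, 0), Finset.mem_univ _⟩
        obtain ⟨δ, hδ⟩ : ∃ δ : ℝ, δ = if p.1 = p.2 then (1 : ℝ) else
          dist (en.symm p.1 : Ω) (en.symm p.2) := ⟨_, rfl⟩
        have hδ0 : 0 < δ := by
          rw [hδ]
          split_ifs with h1
          · exact one_pos
          · refine dist_pos.2 fun h2 => h1 ?_
            exact en.symm.injective (Subtype.ext h2)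
        obtain ⟨n, hn⟩ := exists_nat_one_div_lt (lt_min hδ0 (sub_pos.2 hy))
        refine ⟨k, n, fun i => (en.symm i : Ω), ⟨fun i => by rw [hz, hz], fun i j hij => ?_, ?_⟩,
          hz 0⟩
        · have h1 := hp (i, j) (Finset.mem_univ _)
          rw [← hδ] at h1
          simp only [hij, if_false] at h1
          exact (hn.trans_le (min_le_left _ _)).le.trans h1
        · have h1 : ∑ i, w (en.symm i) = ∑ ω ∈ (hfin y).toFinset, w ω := by
            rw [← Finset.sum_coe_sort (hfin y).toFinset w]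
            exact Fintype.sum_equiv en.symm _ _ fun i => rfl
          rw [h1]
          have := hn.trans_le (min_le_right _ _)
          linarith
      · rintro ⟨k, n, z, ⟨h1, h2, h3⟩, rfl⟩
        show c < ∑ ω ∈ (hfin (g (z 0))).toFinset, w ω
        have hinj : Function.Injective z := by
          intro i j hij
          by_contra hne
          have := h2 i j hne
          rw [hij, dist_self] at this
          have h4 : (0 : ℝ) < 1 / ((n : ℝ) + 1) := Nat.one_div_pos_of_nat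
          linarith
        have h4 : (0 : ℝ) < 1 / ((n : ℝ) + 1) := Nat.one_div_pos_of_nat
        classical
        have h5 : ∑ i, w (z i) = ∑ ω ∈ Finset.univ.image z, w ω := by
          rw [Finset.sum_image fun i _ j _ hij => hinj hij]
        have h6 : ∑ ω ∈ Finset.univ.image z, w ω ≤ ∑ ω ∈ (hfin (g (z 0))).toFinset, w ω := by
          refine Finset.sum_le_sum_of_subset_of_nonneg ?_ fun ω _ _ => hw0 ω
          intro ω hω
          obtain ⟨i, -, rfl⟩ := Finset.mem_image.1 hω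
          rw [Set.Finite.mem_toFinset]
          exact h1 i
        linarith
    rw [key]
    refine MeasurableSet.iUnion fun k => MeasurableSet.iUnion fun n => ?_
    refine (IsCompact.image ?_ (hg.comp (continuous_apply 0))).isClosed.measurableSet
    refine IsClosed.isCompact ?_
    have e1 : {z : Fin (k + 1) → Ω | (∀ i, g (z i) = g (z 0)) ∧
          (∀ i j, i ≠ j → 1 / ((n : ℝ) + 1) ≤ dist (z i) (z j)) ∧
          c + 1 / ((n : ℝ) + 1) ≤ ∑ i, w (z i)} = (⋂ i, {z | g (z i) = g (z 0)}) ∩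
        ((⋂ i, ⋂ j, ⋂ _ : i ≠ j, {z | 1 / ((n : ℝ) + 1) ≤ dist (z i) (z j)}) ∩
          {z | c + 1 / ((n : ℝ) + 1) ≤ ∑ i, w (z i)}) := by
      ext z
      simp only [mem_ofPred_eq, mem_inter_iff, mem_iInter]
    rw [e1]
    refine IsClosed.inter (isClosed_iInter fun i => isClosed_eq (hg.comp (continuous_apply i))
      (hg.comp (continuous_apply 0))) (IsClosed.inter (isClosed_iInter fun i => isClosed_iInter
        fun j => isClosed_iInter fun _ => isClosed_le continuous_const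
          ((continuous_apply i).dist (continuous_apply j))) ?_)
    exact isClosed_le continuous_const (continuous_finsetSum _ fun i _ =>
      hw.comp (continuous_apply i))

theorem Gs_le {g : Ω → B} (hfin : ∀ y, {ω | g ω = y}.Finite) {C : ℕ}
    (hC : ∀ y, {ω | g ω = y}.ncard ≤ C) {w : Ω → ℝ} {K : ℝ} (hK : 0 ≤ K) (hw : ∀ ω, w ω ≤ K)
    (y : B) : Gs hfin w y ≤ C * K := by
  have h1 : Gs hfin w y ≤ (hfin y).toFinset.card • K := Finset.sum_le_card_nsmul _ _ _ fun ω _ => hw ω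
  rw [nsmul_eq_mul] at h1
  have h2 : ((hfin y).toFinset.card : ℝ) ≤ C := by
    have := hC y
    rw [Set.ncard_eq_toFinset_card _ (hfin y)] at this
    exact_mod_cast this
  exact h1.trans (mul_le_mul_of_nonneg_right h2 hK)

theorem le_Gs {g : Ω → B} (hfin : ∀ y, {ω | g ω = y}.Finite) {w : Ω → ℝ} (hw : ∀ ω, 0 ≤ w ω)
    (ω : Ω) : w ω ≤ Gs hfin w (g ω) :=
  Finset.single_le_sum (f := w) (fun ω _ => hw ω) (by
    rw [Set.Finite.mem_toFinset]; rfl)

theorem Gs_int {g : Ω → B} (hg : Continuous g) (hfin : ∀ y, {ω | g ω = y}.Finite) {C : ℕ}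
    (hC : ∀ y, {ω | g ω = y}.ncard ≤ C) {w : Ω → ℝ} (hw : Continuous w) (hw0 : ∀ ω, 0 ≤ w ω)
    (ν : Measure B) [IsFiniteMeasure ν] : Integrable (Gs hfin w) ν := by
  obtain ⟨K, hK⟩ : ∃ K, ∀ ω, w ω ≤ K := by
    obtain ⟨K, hK⟩ := isCompact_univ.bddAbove_image (f := w) hw.continuousOn
    exact ⟨K, fun ω => hK ⟨ω, mem_univ _, rfl⟩⟩
  refine Integrable.of_bound (Gs_meas hg hfin hw hw0).aestronglyMeasurable (C * max K 0)
    (Eventually.of_forall fun y => ?_)
  rw [Real.norm_of_nonneg (show 0 ≤ Gs hfin w y from Finset.sum_nonneg fun ω _ => hw0 ω)]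
  exact Gs_le hfin hC (le_max_right _ _) (fun ω => (hK ω).trans (le_max_left _ _)) y

/-- comparison of the integrals -/
theorem int_le_Gs [MeasurableSpace Ω] [BorelSpace Ω] {g : Ω → B} (hg : Continuous g)
    (hfin : ∀ y, {ω | g ω = y}.Finite) {C : ℕ}
    (hC : ∀ y, {ω | g ω = y}.ncard ≤ C) {w : Ω → ℝ} (hw : Continuous w) (hw0 : ∀ ω, 0 ≤ w ω)
    (m : Measure Ω) [IsFiniteMeasure m] :
    ∫ ω, w ω ∂m ≤ ∫ y, Gs hfin w y ∂(m.map g) := by
  rw [integral_map hg.aemeasurable (Gs_meas hg hfin hw hw0).aestronglyMeasurable]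
  refine integral_mono ?_ ?_ fun ω => le_Gs hfin hw0 ω
  · exact hw.integrable_of_hasCompactSupport (HasCompactSupport.of_compactSpace w)
  · exact (Gs_int hg hfin hC hw hw0 (m.map g)).comp_measurable hg.measurable

end

section

variable {Ω : Type u} [MetricSpace Ω] [CompactSpace Ω] [MeasurableSpace Ω] [BorelSpace Ω]

theorem int_c {m : Measure Ω} [IsFiniteMeasure m] {w : Ω → ℝ} (hw : Continuous w) :
    Integrable w m :=
  hw.integrable_of_hasCompactSupport (HasCompactSupport.of_compactSpace w)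

theorem inv_int {m : Measure Ω} [IsProbabilityMeasure m] {Δ : Ω → ℝ} (hΔ : Continuous Δ)
    (hp : ∀ ω, 0 < Δ ω) : 0 < ∫ ω, Δ ω ∂m ∧ 1 ≤ (∫ ω, 1 / Δ ω ∂m) * ∫ ω, Δ ω ∂m := by
  have hΔi : Continuous fun ω => 1 / Δ ω := continuous_const.div hΔ fun ω => (hp ω).ne'
  have hne : Nonempty Ω := by
    by_contra hcon
    rw [not_nonempty_iff] at hcon
    have h1 : m univ = 1 := measure_univ
    rw [univ_eq_empty_iff.2 hcon, measure_empty] at h1
    exact zero_ne_one h1
  obtain ⟨ω₀, -, hω₀⟩ := isCompact_univ.exists_isMinOn univ_nonempty hΔ.continuousOn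
  have hmin : ∀ ω, Δ ω₀ ≤ Δ ω := fun ω => hω₀ (mem_univ ω)
  have hK : 0 < ∫ ω, Δ ω ∂m := by
    have h1 : ∫ _ω, Δ ω₀ ∂m ≤ ∫ ω, Δ ω ∂m := integral_mono (integrable_const _) (int_c hΔ) hmin
    rw [integral_const, probReal_univ, one_smul] at h1
    linarith [hp ω₀]
  refine ⟨hK, ?_⟩
  set K := ∫ ω, Δ ω ∂m with hKd
  have h2 : ∀ ω, 2 / K - Δ ω / K ^ 2 ≤ 1 / Δ ω := by
    intro ω
    have h3 := hp ω
    rw [div_sub_div _ _ hK.ne' (by positivity), div_le_div_iff₀ (by positivity) h3]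
    nlinarith [mul_nonneg hK.le (sq_nonneg (K - Δ ω))]
  have h3 : ∫ ω, (2 / K - Δ ω / K ^ 2) ∂m ≤ ∫ ω, 1 / Δ ω ∂m :=
    integral_mono ((integrable_const _).sub ((int_c hΔ).div_const _)) (int_c hΔi) h2
  rw [integral_sub (integrable_const _) ((int_c hΔ).div_const _), integral_const,
    probReal_univ, one_smul, integral_div, ← hKd] at h3
  have h4 : 2 / K - K / K ^ 2 = 1 / K := by
    field_simp
    ring
  rw [h4] at h3
  have h5 := mul_le_mul_of_nonneg_right h3 hK.le
  rwa [one_div, inv_mul_cancel₀ hK.ne'] at h5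

/-- the exponents, first type -/
theorem I_up {m : Measure Ω} [IsProbabilityMeasure m] {R : Ω ≃ₜ Ω} (hR : MeasurePreserving R m m)
    {Δ r : Ω → ℝ} (hΔ : Continuous Δ) (hp : ∀ ω, 0 < Δ ω) (hr : Continuous r)
    (hr0 : ∀ ω, 0 < r ω) {δ : ℝ} (hδ : 0 < δ) (he : ∀ᵐ ω ∂m, Δ (R ω) = r ω * Δ ω + δ) :
    (∫ ω, Real.log (r ω) ∂m) * ∫ ω, Δ ω ∂m ≤ -δ := by
  obtain ⟨hK, h1⟩ := inv_int (m := m) hΔ hp
  have c1 : Continuous fun ω => Real.log (r ω) := hr.log fun ω => (hr0 ω).ne'
  have c2 : Continuous fun ω => Real.log (Δ ω) := hΔ.log fun ω => (hp ω).ne'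
  have c3 : Continuous fun ω => 1 / Δ ω := continuous_const.div hΔ fun ω => (hp ω).ne'
  have h2 : ∀ᵐ ω ∂m, Real.log (r ω) ≤
      Real.log (Δ (R ω)) - Real.log (Δ ω) - δ * (1 / Δ (R ω)) := by
    filter_upwards [he] with ω hω
    have p0 := hp ω
    have p2 := hp (R ω)
    have p1 : 0 < (Δ (R ω) - δ) / Δ (R ω) := by
      refine div_pos ?_ p2
      rw [hω]
      have := mul_pos (hr0 ω) p0
      linarith
    have e1 : r ω = (Δ (R ω) - δ) / Δ (R ω) * Δ (R ω) / Δ ω := by
      rw [div_mul_cancel₀ _ p2.ne', hω, add_sub_cancel_right, mul_div_cancel_right₀ _ p0.ne']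
    have h3 : Real.log (r ω) = Real.log ((Δ (R ω) - δ) / Δ (R ω)) + Real.log (Δ (R ω)) -
        Real.log (Δ ω) := by
      conv_lhs => rw [e1]
      rw [Real.log_div (by positivity) p0.ne', Real.log_mul p1.ne' p2.ne']
    have h4 := Real.log_le_sub_one_of_pos p1
    have h5 : (Δ (R ω) - δ) / Δ (R ω) - 1 = -(δ * (1 / Δ (R ω))) := by
      field_simp
      ring
    linarith
  have e2 : ∫ ω, Real.log (Δ (R ω)) ∂m = ∫ ω, Real.log (Δ ω) ∂m :=
    hR.integral_comp R.measurableEmbedding fun ω => Real.log (Δ ω)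
  have e3 : ∫ ω, 1 / Δ (R ω) ∂m = ∫ ω, 1 / Δ ω ∂m :=
    hR.integral_comp R.measurableEmbedding fun ω => 1 / Δ ω
  have h6 : ∫ ω, Real.log (r ω) ∂m ≤ -(δ * ∫ ω, 1 / Δ ω ∂m) := by
    have i1 : Integrable (fun ω => Real.log (Δ (R ω))) m := int_c (c2.comp R.continuous)
    have i2 : Integrable (fun ω => Real.log (Δ ω)) m := int_c c2
    have i3 : Integrable (fun ω => δ * (1 / Δ (R ω))) m :=
      (int_c (m := m) (c3.comp R.continuous)).const_mul δ
    have i12 : Integrable (fun ω => Real.log (Δ (R ω)) - Real.log (Δ ω)) m := i1.sub i2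
    calc _ ≤ ∫ ω, (Real.log (Δ (R ω)) - Real.log (Δ ω) - δ * (1 / Δ (R ω))) ∂m :=
          integral_mono_ae (int_c c1) (i12.sub i3) h2
      _ = _ := by
          rw [integral_sub i12 i3]
          rw [show ∫ ω, (Real.log (Δ (R ω)) - Real.log (Δ ω)) ∂m =
            ∫ ω, Real.log (Δ (R ω)) ∂m - ∫ ω, Real.log (Δ ω) ∂m from integral_sub i1 i2, e2,
            integral_const_mul]
          rw [e3]
          ring
  have h7 := mul_le_mul_of_nonneg_right h6 hK.le
  have h8 := mul_le_mul_of_nonneg_left h1 hδ.le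
  linarith

/-- the exponents, second type -/
theorem I_dn {m : Measure Ω} [IsProbabilityMeasure m] {R : Ω ≃ₜ Ω} (hR : MeasurePreserving R m m)
    {Δ r : Ω → ℝ} (hΔ : Continuous Δ) (hp : ∀ ω, 0 < Δ ω) (hr : Continuous r)
    (hr0 : ∀ ω, 0 < r ω) {δ : ℝ} (hδ : 0 < δ) (he : ∀ᵐ ω ∂m, Δ (R ω) = r ω * Δ ω - δ) :
    δ ≤ (∫ ω, Real.log (r ω) ∂m) * (∫ ω, Δ ω ∂m + δ) := by
  have hp' : ∀ ω, 0 < Δ ω + δ := fun ω => by have := hp ω; linarith
  have hΔ' : Continuous fun ω => Δ ω + δ := hΔ.add continuous_const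
  obtain ⟨hK, h1⟩ := inv_int (m := m) hΔ' hp'
  have e0 : ∫ ω, (Δ ω + δ) ∂m = ∫ ω, Δ ω ∂m + δ := by
    rw [integral_add (int_c hΔ) (integrable_const _), integral_const, probReal_univ, one_smul]
  rw [e0] at hK h1
  have c1 : Continuous fun ω => Real.log (r ω) := hr.log fun ω => (hr0 ω).ne'
  have c2 : Continuous fun ω => Real.log (Δ ω) := hΔ.log fun ω => (hp ω).ne'
  have c3 : Continuous fun ω => 1 / (Δ ω + δ) := continuous_const.div hΔ' fun ω => (hp' ω).ne'
  have h2 : ∀ᵐ ω ∂m, Real.log (Δ (R ω)) - Real.log (Δ ω) + δ * (1 / (Δ (R ω) + δ)) ≤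
      Real.log (r ω) := by
    filter_upwards [he] with ω hω
    have p0 := hp ω
    have p2 := hp (R ω)
    have p3 := hp' (R ω)
    have e1 : r ω = (Δ (R ω) + δ) / Δ ω := by
      rw [hω, sub_add_cancel, mul_div_cancel_right₀ _ p0.ne']
    have h3 : Real.log (r ω) = Real.log (Δ (R ω) + δ) - Real.log (Δ ω) := by
      conv_lhs => rw [e1]
      rw [Real.log_div p3.ne' p0.ne']
    have h4 := Real.log_le_sub_one_of_pos (div_pos p2 p3)
    rw [Real.log_div p2.ne' p3.ne'] at h4
    have h5 : Δ (R ω) / (Δ (R ω) + δ) - 1 = -(δ * (1 / (Δ (R ω) + δ))) := by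
      field_simp
      ring
    linarith
  have e2 : ∫ ω, Real.log (Δ (R ω)) ∂m = ∫ ω, Real.log (Δ ω) ∂m :=
    hR.integral_comp R.measurableEmbedding fun ω => Real.log (Δ ω)
  have e3 : ∫ ω, 1 / (Δ (R ω) + δ) ∂m = ∫ ω, 1 / (Δ ω + δ) ∂m :=
    hR.integral_comp R.measurableEmbedding fun ω => 1 / (Δ ω + δ)
  have h6 : δ * ∫ ω, 1 / (Δ ω + δ) ∂m ≤ ∫ ω, Real.log (r ω) ∂m := by
    have i1 : Integrable (fun ω => Real.log (Δ (R ω))) m := int_c (c2.comp R.continuous)
    have i2 : Integrable (fun ω => Real.log (Δ ω)) m := int_c c2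
    have i3 : Integrable (fun ω => δ * (1 / (Δ (R ω) + δ))) m :=
      (int_c (m := m) (c3.comp R.continuous)).const_mul δ
    have i12 : Integrable (fun ω => Real.log (Δ (R ω)) - Real.log (Δ ω)) m := i1.sub i2
    calc _ = ∫ ω, (Real.log (Δ (R ω)) - Real.log (Δ ω) + δ * (1 / (Δ (R ω) + δ))) ∂m := by
          rw [integral_add i12 i3]
          rw [show ∫ ω, (Real.log (Δ (R ω)) - Real.log (Δ ω)) ∂m =
            ∫ ω, Real.log (Δ (R ω)) ∂m - ∫ ω, Real.log (Δ ω) ∂m from integral_sub i1 i2, e2,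
            integral_const_mul]
          rw [e3]
          ring
      _ ≤ _ := integral_mono_ae (i12.add i3) (int_c c1) h2
  have h7 := mul_le_mul_of_nonneg_right h6 hK.le
  have h8 := mul_le_mul_of_nonneg_left h1 hδ.le
  linarith

end

end Pool.Agent.V5helper25.EX
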