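import Pool.Agent.V5helper25.EX.Can2
import Pool.Agent.V5helper25.EX.Cnt

/-!
# MP_4a0782, circle extensions: the exponents of the invariant measures, passage to the limit
-/

set_option autoImplicit false
set_option linter.unusedSectionVars false

open scoped Topology
open MeasureTheory Filter Set Metric

universe u v

namespace Pool.Agent.V5helper25.EX

open Pool.Agent.TH80.OMS Pool.Agent.N813.CX Pool.Agent.N813.CX.CLOS Pool.Agent.V5helper25.TK
  Pool.Agent.V5helper25.TG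

section

variable {N : Type u} [MetricSpace N] [CompactSpace N] {G : N → N} {ψ : ℝ → N → N}
  {a : N → ℝ → ℝ} {A : N → ℝ}

theorem a_der (h : TopExt G ψ a) (hA : ∀ y, HasDerivAt (a y) (A y) 0) (x : N) (u : ℝ) :
    HasDerivAt (a x) (A (ψ u x)) u := by
  have h1 : HasDerivAt (fun t => a (ψ u x) t + a x u) (A (ψ u x)) 0 := (hA (ψ u x)).add_const _
  have h2 : HasDerivAt (fun t => a x (t + u)) (A (ψ u x)) 0 := by
    refine h1.congr_of_eventuallyEq (Eventually.of_forall fun t => ?_)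
    show a x (t + u) = a (ψ u x) t + a x u
    rw [a_add h]
    ring
  have h3 : HasDerivAt (fun t => a x (t - u + u)) (A (ψ u x)) u := by
    have h4 : HasDerivAt (fun t : ℝ => t - u) 1 u := (hasDerivAt_id' u).sub_const u
    have h5 : HasDerivAt (fun t => a x (t + u)) (A (ψ u x)) (u - u) := by rwa [sub_self]
    have h6 := HasDerivAt.comp (h := fun t : ℝ => t - u) (h₂ := fun t => a x (t + u)) u h5 h4
    rw [mul_one] at h6
    exact h6
  simpa using h3

theorem ratio (h : TopExt G ψ a) (hA : ∀ y, HasDerivAt (a y) (A y) 0) (x : N) {t : ℝ}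
    (ht : t ≠ 0) : ∃ ξ, a x t / t = A (ψ ξ x) := by
  rcases lt_or_gt_of_ne ht with h1 | h1
  · obtain ⟨c, -, hc⟩ := exists_hasDerivAt_eq_slope (a x) (fun u => A (ψ u x)) h1
      (h.acont x).continuousOn fun u _ => a_der h hA x u
    refine ⟨c, ?_⟩
    rw [hc, h.azero, zero_sub, zero_sub, neg_div_neg_eq]
  · obtain ⟨c, -, hc⟩ := exists_hasDerivAt_eq_slope (a x) (fun u => A (ψ u x)) h1
      (h.acont x).continuousOn fun u _ => a_der h hA x u
    refine ⟨c, ?_⟩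
    rw [hc, h.azero, sub_zero, sub_zero]

theorem log_bound (hA : Continuous A) (hA0 : ∀ y, 0 < A y) :
    ∃ L : ℝ, ∀ y, |Real.log (A y)| ≤ L := by
  obtain ⟨K, hK⟩ := isCompact_univ.bddAbove_image (f := fun y => |Real.log (A y)|)
    (hA.log fun y => (hA0 y).ne').abs.continuousOn
  exact ⟨K, fun y => hK ⟨y, mem_univ _, rfl⟩⟩

end

end Pool.Agent.V5helper25.EX

namespace Pool.Agent.V5helper25.TG.DG

open Pool.Agent.TH80.OMS Pool.Agent.N813.CX Pool.Agent.N813.CX.CLOS Pool.Agent.V5helper25.TK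
  Pool.Agent.V5helper25.TG Pool.Agent.V5helper25.EX

variable {N : Type u} [MetricSpace N] [CompactSpace N] {B : Type v} [MetricSpace B] {F : N ≃ₜ N}
  {ψ : ℝ → N → N} {a : N → ℝ → ℝ} {π : N → B} {f : B → B} {θ₀ : ℝ} {S : N → ℝ → ℝ} {e : ℝ}
  {Ω : Type u} [MetricSpace Ω] [CompactSpace Ω] {R : Ω ≃ₜ Ω} {Φ : Pm θ₀ → C(Ω, N)}

variable (h : DG F ψ a π f θ₀ S e R Φ) {s₀ sm sp : Pm θ₀} {ρ ρ₁ δa : ℝ} {αm αp : Ω → ℝ}
  (l : Loc ψ a Φ s₀ sm sp ρ ρ₁ δa αm αp)

include h l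

/-- the cocycle equation for the differences -/
theorem diff_step {s s' : ℝ} {τ τ' : Ω → ℝ} (c : Can F ψ a R Φ s₀ ρ s τ)
    (c' : Can F ψ a R Φ s₀ ρ s' τ') (ω : Ω) :
    τ' (R ω) - τ (R ω) = a (ψ (τ ω) (Φ s₀ ω)) (τ' ω - τ ω) + (s' - s) := by
  rw [c.step, c'.step, a_add h.top, sub_add_cancel]
  ring

/-- **The exponents of the measures.** -/
theorem limit_exp [MeasurableSpace Ω] [BorelSpace Ω] {A : N → ℝ} (hAc : Continuous A)
    (hA0 : ∀ y, 0 < A y) (hA : ∀ y, HasDerivAt (a y) (A y) 0) {s : ℝ} (h1 : (sm : ℝ) < s)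
    {τ : Ω → ℝ} (c : Can F ψ a R Φ s₀ ρ s τ) {σ : ℕ → ℝ} (hσ : StrictAnti σ)
    (hσ1 : ∀ k, s < σ k) (hσ2 : ∀ k, σ k < sp) (hσt : Tendsto σ atTop (𝓝 s)) {T : ℕ → Ω → ℝ}
    (cT : ∀ k, Can F ψ a R Φ s₀ ρ (σ k) (T k)) {m : Measure Ω} [IsProbabilityMeasure m]
    (hR : MeasurePreserving R m m) {κ : ℝ} (hκ : 0 < κ)
    (hm : ∀ k, ∫ ω, |T k ω - τ ω| ∂m ≤ κ * (σ k - s)) :
    (m {ω | 0 ≤ αp ω}ᶜ = 0 → ∫ ω, Real.log (A (ψ (τ ω) (Φ s₀ ω))) ∂m < 0) ∧
      (m {ω | 0 ≤ αp ω} = 0 → 0 < ∫ ω, Real.log (A (ψ (τ ω) (Φ s₀ ω))) ∂m) := by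
  -- the differences
  have hup : ∀ k ω, 0 ≤ αp ω → 0 < T k ω - τ ω := fun k ω hω =>
    sub_pos.2 ((h.mono_all l (hσ1 k) h1 (hσ2 k) c (cT k) ω).1 hω)
  have hdn : ∀ k ω, αp ω < 0 → T k ω - τ ω < 0 := fun k ω hω =>
    sub_neg.2 ((h.mono_all l (hσ1 k) h1 (hσ2 k) c (cT k) ω).2 hω)
  have hne : ∀ k ω, T k ω - τ ω ≠ 0 := by
    intro k ω
    rcases lt_or_ge (αp ω) 0 with hω | hω
    · exact (hdn k ω hω).ne
    · exact (hup k ω hω).ne'
  have hDc : ∀ k, Continuous fun ω => T k ω - τ ω := fun k => (cT k).cont.sub c.cont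
  have hpos : ∀ k ω, 0 < |T k ω - τ ω| := fun k ω => abs_pos.2 (hne k ω)
  have hX : Continuous fun ω => ψ (τ ω) (Φ s₀ ω) :=
    h.top.cont.comp (c.cont.prodMk (Φ s₀).continuous)
  have hrc : ∀ k, Continuous fun ω => a (ψ (τ ω) (Φ s₀ ω)) (T k ω - τ ω) / (T k ω - τ ω) :=
    fun k => ((a_joint h.top F.continuous).comp (hX.prodMk (hDc k))).div (hDc k) (hne k)
  have hrat : ∀ k ω, ∃ ξ, a (ψ (τ ω) (Φ s₀ ω)) (T k ω - τ ω) / (T k ω - τ ω) =
      A (ψ ξ (ψ (τ ω) (Φ s₀ ω))) := fun k ω => ratio h.top hA _ (hne k ω)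
  have hr0 : ∀ k ω, 0 < a (ψ (τ ω) (Φ s₀ ω)) (T k ω - τ ω) / (T k ω - τ ω) := by
    intro k ω
    obtain ⟨ξ, hξ⟩ := hrat k ω
    rw [hξ]
    exact hA0 _
  obtain ⟨L, hL⟩ := log_bound hAc hA0
  have hrL : ∀ k ω, |Real.log (a (ψ (τ ω) (Φ s₀ ω)) (T k ω - τ ω) / (T k ω - τ ω))| ≤ L := by
    intro k ω
    obtain ⟨ξ, hξ⟩ := hrat k ω
    rw [hξ]
    exact hL _
  -- convergence of the differences
  have hanti : ∀ ω, Antitone fun k => |T k ω - τ ω| := by
    intro ω
    refine antitone_nat_of_succ_le fun k => ?_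
    have h2 := h.mono_all l (hσ (Nat.lt_succ_self k)) (h1.trans (hσ1 _)) (hσ2 k) (cT (k + 1))
      (cT k) ω
    rcases lt_or_ge (αp ω) 0 with hω | hω
    · rw [abs_of_neg (hdn (k + 1) ω hω), abs_of_neg (hdn k ω hω)]
      have := h2.2 hω
      linarith
    · rw [abs_of_pos (hup (k + 1) ω hω), abs_of_pos (hup k ω hω)]
      have := h2.1 hω
      linarith
  have hlim0 : Tendsto (fun k => κ * (σ k - s)) atTop (𝓝 0) := by
    have h2 := (hσt.sub_const s).const_mul κ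
    rwa [sub_self, mul_zero] at h2
  have hint0 : Tendsto (fun k => ∫ ω, |T k ω - τ ω| ∂m) atTop (𝓝 (∫ _ω, (0 : ℝ) ∂m)) := by
    rw [integral_zero]
    exact squeeze_zero (fun k => integral_nonneg fun ω => abs_nonneg _) hm hlim0
  have hae : ∀ᵐ ω ∂m, Tendsto (fun k => |T k ω - τ ω|) atTop (𝓝 0) :=
    tendsto_of_integral_tendsto_of_antitone (F := fun _ => (0 : ℝ)) (fun k => int_c (hDc k).abs)
      (integrable_zero _ _ _) hint0 (Eventually.of_forall hanti)
      (Eventually.of_forall fun ω k => abs_nonneg _)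
  -- convergence of the integrals
  have hlim : Tendsto (fun k => ∫ ω, Real.log (a (ψ (τ ω) (Φ s₀ ω)) (T k ω - τ ω) /
      (T k ω - τ ω)) ∂m) atTop (𝓝 (∫ ω, Real.log (A (ψ (τ ω) (Φ s₀ ω))) ∂m)) := by
    refine tendsto_integral_of_dominated_convergence (fun _ => L) (fun k => ?_)
      (integrable_const _) (fun k => ?_) ?_
    · exact ((hrc k).log fun ω => (hr0 k ω).ne').aestronglyMeasurable
    · exact Eventually.of_forall fun ω => hrL k ω
    · filter_upwards [hae] with ω hω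
      have e1 : Tendsto (fun k => T k ω - τ ω) atTop (𝓝 0) :=
        (tendsto_zero_iff_abs_tendsto_zero _).2 hω
      have e2 : Tendsto (fun k => T k ω - τ ω) atTop (𝓝[≠] 0) :=
        tendsto_nhdsWithin_iff.2 ⟨e1, Eventually.of_forall fun k => hne k ω⟩
      have e3 := (hasDerivAt_iff_tendsto_slope.1 (hA (ψ (τ ω) (Φ s₀ ω)))).comp e2
      have e4 : (slope (a (ψ (τ ω) (Φ s₀ ω))) 0 ∘ fun k => T k ω - τ ω) =
          fun k => a (ψ (τ ω) (Φ s₀ ω)) (T k ω - τ ω) / (T k ω - τ ω) := by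
        funext k
        show slope (a (ψ (τ ω) (Φ s₀ ω))) 0 (T k ω - τ ω) = _
        rw [slope_def_field, h.top.azero, sub_zero, sub_zero]
      rw [e4] at e3
      exact e3.log (hA0 _).ne'
  have hδ : ∀ k, 0 < σ k - s := fun k => sub_pos.2 (hσ1 k)
  constructor
  · intro hU
    have hae1 : ∀ᵐ ω ∂m, 0 ≤ αp ω := by
      rw [ae_iff]
      exact hU
    have hk : ∀ k, ∫ ω, Real.log (a (ψ (τ ω) (Φ s₀ ω)) (T k ω - τ ω) / (T k ω - τ ω)) ∂m ≤
        -(1 / κ) := by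
      intro k
      have h2 := I_up (m := m) hR (Δ := fun ω => |T k ω - τ ω|)
        (r := fun ω => a (ψ (τ ω) (Φ s₀ ω)) (T k ω - τ ω) / (T k ω - τ ω)) (hDc k).abs (hpos k)
        (hrc k) (hr0 k) (hδ k) (by
          filter_upwards [hae1] with ω hω
          have hω' : 0 ≤ αp (R ω) := ((h.up_clopen l).2 ω).2 hω
          rw [abs_of_pos (hup k _ hω'), abs_of_pos (hup k _ hω), h.diff_step l c (cT k),
            div_mul_cancel₀ _ (hne k ω)])
      have h3 := (inv_int (m := m) (Δ := fun ω => |T k ω - τ ω|) (hDc k).abs (hpos k)).1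
      set J := ∫ ω, Real.log (a (ψ (τ ω) (Φ s₀ ω)) (T k ω - τ ω) / (T k ω - τ ω)) ∂m with hJ
      set K := ∫ ω, |T k ω - τ ω| ∂m with hK
      have hJ0 : J < 0 := by
        by_contra hcon
        push Not at hcon
        have := mul_nonneg hcon h3.le
        linarith [hδ k]
      have h4 : J * (κ * (σ k - s)) ≤ J * K := mul_le_mul_of_nonpos_left (hm k) hJ0.le
      have h5 : (J * κ) * (σ k - s) ≤ (-1) * (σ k - s) := by
        have : J * (κ * (σ k - s)) = (J * κ) * (σ k - s) := by ring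
        rw [this] at h4
        linarith
      have h6 : J * κ ≤ -1 := le_of_mul_le_mul_right h5 (hδ k)
      rw [le_neg, div_le_iff₀ hκ]
      linarith
    have h2 := le_of_tendsto hlim (Eventually.of_forall hk)
    have h3 : 0 < 1 / κ := by positivity
    linarith
  · intro hU
    have hae1 : ∀ᵐ ω ∂m, αp ω < 0 := by
      rw [ae_iff]
      have : {ω | ¬ αp ω < 0} = {ω | 0 ≤ αp ω} := by
        ext ω
        exact not_lt
      rw [this]
      exact hU
    have hκ1 : 0 < κ + 1 := by linarith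
    have hk : ∀ k, 1 / (κ + 1) ≤
        ∫ ω, Real.log (a (ψ (τ ω) (Φ s₀ ω)) (T k ω - τ ω) / (T k ω - τ ω)) ∂m := by
      intro k
      have h2 := I_dn (m := m) hR (Δ := fun ω => |T k ω - τ ω|)
        (r := fun ω => a (ψ (τ ω) (Φ s₀ ω)) (T k ω - τ ω) / (T k ω - τ ω)) (hDc k).abs (hpos k)
        (hrc k) (hr0 k) (hδ k) (by
          filter_upwards [hae1] with ω hω
          have hω' : αp (R ω) < 0 := by
            rw [← not_le, (h.up_clopen l).2 ω, not_le]
            exact hω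
          rw [abs_of_neg (hdn k _ hω'), abs_of_neg (hdn k _ hω), h.diff_step l c (cT k),
            mul_neg, div_mul_cancel₀ _ (hne k ω)]
          ring)
      have h3 := (inv_int (m := m) (Δ := fun ω => |T k ω - τ ω|) (hDc k).abs (hpos k)).1
      set J := ∫ ω, Real.log (a (ψ (τ ω) (Φ s₀ ω)) (T k ω - τ ω) / (T k ω - τ ω)) ∂m with hJ
      set K := ∫ ω, |T k ω - τ ω| ∂m with hK
      have hd := hδ k
      have hJ0 : 0 < J := by
        by_contra hcon
        push Not at hcon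
        have := mul_nonneg_of_nonpos_of_nonpos hcon (show -(K + (σ k - s)) ≤ 0 by linarith)
        linarith [hδ k]
      have h4 : J * (K + (σ k - s)) ≤ J * ((κ + 1) * (σ k - s)) := by
        refine mul_le_mul_of_nonneg_left ?_ hJ0.le
        have := hm k
        linarith
      have h5 : 1 * (σ k - s) ≤ (J * (κ + 1)) * (σ k - s) := by
        have : J * ((κ + 1) * (σ k - s)) = (J * (κ + 1)) * (σ k - s) := by ring
        linarith
      have h6 : 1 ≤ J * (κ + 1) := le_of_mul_le_mul_right h5 (hδ k)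
      rw [div_le_iff₀ hκ1]
      exact h6
    have h2 := ge_of_tendsto hlim (Eventually.of_forall hk)
    have h3 : 0 < 1 / (κ + 1) := by positivity
    linarith

end Pool.Agent.V5helper25.TG.DG
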