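import Pool.Agent.V5helper25.EX.Per2
import Pool.Agent.V5helper25.EX.Der

/-!
# MP_4a0782, circle extensions: the exponents of the periodic points, smooth version
-/

set_option autoImplicit false

open scoped Manifold ContDiff Topology
open MeasureTheory Filter Set Metric

universe u v

namespace Pool.Agent.V5helper25.EX

open Pool.Agent.H718R2.G Pool.Agent.W564.SC Pool.Agent.TH80.OMS Pool.Agent.TH290.CL
  Pool.Agent.N813.OF Pool.Agent.N813.CX Pool.Agent.V5helper25.TK Pool.Agent.V5helper25.TG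

/-- `lam` is the derivative of `G` at `y` along the orbits of `ψ`:
`G (ψ_t y) = ψ_(b(t)) (G y)` with `b(0) = 0` and `b'(0) = lam`. -/
def FibDer {N : Type u} (ψ : ℝ → N → N) (G : N → N) (y : N) (lam : ℝ) : Prop :=
  ∃ b : ℝ → ℝ, HasDerivAt b lam 0 ∧ b 0 = 0 ∧ ∀ t, G (ψ t y) = ψ (b t) (G y)

section

variable {N : Type u} {F : N → N} {ψ : ℝ → N → N} {a : N → ℝ → ℝ}

theorem fibDer_unique [TopologicalSpace N] (h : TopExt F ψ a) {G : N → N} {y : N} {x x' : ℝ}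
    (hx : FibDer ψ G y x) (hx' : FibDer ψ G y x') : x = x' := by
  obtain ⟨b, hb, hb0, hbe⟩ := hx
  obtain ⟨b', hb', hb0', hbe'⟩ := hx'
  refine hb.unique (hb'.congr_of_eventuallyEq ?_)
  have h1 : Tendsto (fun t => |b t - b' t|) (𝓝 0) (𝓝 0) := by
    have := (hb.continuousAt.sub hb'.continuousAt).abs
    have h2 := this.tendsto
    simpa [hb0, hb0'] using h2
  filter_upwards [h1.eventually_lt_const (one_pos : (0 : ℝ) < 1)] with t ht
  have h2 : ψ (b t) (G y) = ψ (b' t) (G y) := by rw [← hbe, ← hbe']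
  obtain ⟨j, hj'⟩ := (h.free (G y) (-b' t + b t)).1 (by
    rw [h.add, h2, ← h.add, neg_add_cancel, h.zero])
  have hj : b t = b' t + j := by linarith
  rw [hj, add_sub_cancel_left] at ht
  have h3 : |j| < 1 := by exact_mod_cast ht
  rw [hj, Int.abs_lt_one_iff.1 h3]
  simp

theorem fibDer_iter [TopologicalSpace N] (h : TopExt F ψ a) {A : N → ℝ}
    (hA : ∀ y, HasDerivAt (a y) (A y) 0) (s : ℝ) (p : N) (k : ℕ) :
    FibDer ψ (Rt F ψ s)^[k] p (∏ i ∈ Finset.range k, A ((Rt F ψ s)^[i] p)) := by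
  induction k with
  | zero =>
    refine ⟨fun t => t, ?_, rfl, fun t => rfl⟩
    rw [Finset.prod_range_zero]
    exact hasDerivAt_id' (0 : ℝ)
  | succ k ih =>
    obtain ⟨b, hb, hb0, hbe⟩ := ih
    refine ⟨fun t => a ((Rt F ψ s)^[k] p) (b t), ?_, ?_, fun t => ?_⟩
    · rw [Finset.prod_range_succ, mul_comm]
      have h1 : HasDerivAt (a ((Rt F ψ s)^[k] p)) (A ((Rt F ψ s)^[k] p)) (b 0) := by
        rw [hb0]; exact hA _
      exact h1.comp (0 : ℝ) hb
    · show a ((Rt F ψ s)^[k] p) (b 0) = 0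
      rw [hb0, h.azero]
    · rw [Function.iterate_succ_apply', Function.iterate_succ_apply', hbe]
      show ψ s (F (ψ (b t) ((Rt F ψ s)^[k] p))) = _
      rw [h.ext, ← h.add, add_comm, h.add]
      rfl

theorem iter_psi [TopologicalSpace N] (h : TopExt F ψ a) (i : ℕ) (t : ℝ) (v : N) :
    ∃ b : ℝ, F^[i] (ψ t v) = ψ b (F^[i] v) := by
  induction i with
  | zero => exact ⟨t, rfl⟩
  | succ i ih =>
    obtain ⟨b, hb⟩ := ih
    refine ⟨a (F^[i] v) b, ?_⟩
    rw [Function.iterate_succ_apply', Function.iterate_succ_apply', hb, h.ext]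

theorem iter_rt [TopologicalSpace N] (h : TopExt F ψ a) (s : ℝ) (i : ℕ) (t : ℝ) (v : N) :
    ∃ b : ℝ, (Rt F ψ s)^[i] (ψ t v) = ψ b (F^[i] v) := by
  induction i with
  | zero => exact ⟨t, rfl⟩
  | succ i ih =>
    obtain ⟨b, hb⟩ := ih
    refine ⟨s + a (F^[i] v) b, ?_⟩
    rw [Function.iterate_succ_apply', Function.iterate_succ_apply', hb]
    show ψ s (F (ψ b (F^[i] v))) = _
    rw [h.ext, ← h.add]

/-- the fibre of `v` is periodic -/
def FP (F : N → N) (ψ : ℝ → N → N) (v : N) : Prop := ∃ m : ℕ, 1 ≤ m ∧ ∃ c : ℝ, F^[m] v = ψ c v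

end

section

variable {n : ℕ} {N : Type u} [TopologicalSpace N] [T2Space N] [CompactSpace N]
  [ChartedSpace (V n) N] [IsManifold (𝓡 n) ∞ N] {r : ℕ∞}
variable {F : DiffM n N r} {ψ : ℝ → N → N} {a : N → ℝ → ℝ} {H : ℝ → DiffM n N r} {θ₀ : ℝ}

/-- the function of the fibre of `v` -/
theorem exS' (hr : 1 ≤ r) (h : RotFam n N r F ψ a H θ₀) (v : N) (hv : FP F ψ v) :
    ∃ S : ℝ → ℝ, SF S θ₀ ∧ ∀ s, |s| < θ₀ → ∀ t, (ψ t v ∈ Per (H s) ↔ S t = s) := by
  obtain ⟨m, hm, c, hc⟩ := hv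
  obtain ⟨t₁, q, hq, hq'⟩ := lock hr h v m c hm hc
  have hH0' : (H 0 : N → N) = F := funext fun y => by rw [h.eq, h.top.zero]
  obtain ⟨G, hG, hT, hG0, hGe⟩ := lift_at hr h 0 (by rw [abs_zero]; exact h.pos) (ψ t₁ v) q 0 hq
    (by rw [hH0', h.top.zero]; exact hq')
  rw [abs_zero, sub_zero] at hT
  obtain ⟨S, hS, hSl, hSu⟩ := exists_SF hG hT hG0
  refine ⟨fun t => S (t + -t₁), hS.shift _, fun s hs t => ?_⟩
  have e2 : ψ t v = ψ (t + -t₁) (ψ t₁ v) := by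
    rw [← h.top.add]
    congr 1
    ring
  have hGs : ∀ u, (H s)^[q] (ψ u (ψ t₁ v)) = ψ (G s u) (ψ t₁ v) := by
    intro u
    have := hGe s u
    rwa [zero_add] at this
  rw [e2]
  constructor
  · rintro ⟨M, hM, hM'⟩
    have e3 : (H s)^[q * M] (ψ (t + -t₁) (ψ t₁ v)) = ψ (t + -t₁) (ψ t₁ v) := by
      rw [mul_comm, Function.iterate_mul]
      exact Function.iterate_fixed hM' q
    rw [LIFT.iter_G hGs] at e3
    obtain ⟨j, hj⟩ := (eq_iff' h.top _ _ _).1 e3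
    obtain ⟨t₀, ht₀⟩ := hS.val hs
    exact (hSu _ _).2 (it_fix (hG.mono s) (hG.one s) ((hSu _ _).1 ht₀) hM hj)
  · intro hs'
    refine ⟨q, hq, ?_⟩
    rw [hGs, (hSu _ _).1 hs']

/-- **The exponents of the periodic points.** -/
theorem mainP (hr : 1 ≤ r) (F : DiffM n N r) (hF : OmegaStable n N r F) (ψ : ℝ → N → N)
    (h : CircleExt n N F ψ) :
    ∃ θ : ℝ, 0 < θ ∧ ∀ (v : N) (m : ℕ) (c : ℝ), 1 ≤ m → F^[m] v = ψ c v →
      ∃ E : ℝ → ℝ, (∀ s, 1 ≤ E s) ∧ Measurable E ∧ IntervalIntegrable E volume (-θ) θ ∧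
        ∫ s in (-θ)..θ, E s ≤ 2 ∧
        ∀ᵐ s : ℝ, |s| < θ → ∀ (t : ℝ) (k : ℕ) (lam : ℝ), 1 ≤ k →
          (Rt F ψ s)^[k] (ψ t v) = ψ t v → FibDer ψ (Rt F ψ s)^[k] (ψ t v) lam →
            0 < lam ∧ (k : ℝ) ≤ E s * |Real.log lam| := by
  obtain ⟨a, H, θ₀, hH⟩ := exists_rotFam hr F hF ψ h
  have hHe : ∀ s, (H s : N → N) = Rt F ψ s := fun s => funext fun y => hH.eq s y
  obtain ⟨A, -, hA, hA'⟩ := exists_der hr F hH.flow hH.top
  have hex : ∀ v : N, ∃ S : ℝ → ℝ, FP F ψ v → SF S θ₀ ∧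
      ∀ s, |s| < θ₀ → ∀ t, (ψ t v ∈ Per (Rt F ψ s) ↔ S t = s) := by
    intro v
    by_cases hv : FP F ψ v
    · obtain ⟨S, h1, h2⟩ := exS' hr hH v hv
      refine ⟨S, fun _ => ⟨h1, fun s hs t => ?_⟩⟩
      rw [← hHe]
      exact h2 s hs t
    · exact ⟨fun _ => 0, fun hh => absurd hh hv⟩
  choose S hS using hex
  have hD : DE (F : N → N) ψ a θ₀ (FP F ψ) S := by
    refine ⟨hH.top, hH.pos, fun v t hv => ?_, fun v hv => ?_, fun v hv => (hS v hv).1,
      fun v hv => (hS v hv).2⟩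
    · obtain ⟨m, hm, c, hc⟩ := hv
      obtain ⟨b, hb⟩ := iter_psi hH.top m t v
      refine ⟨m, hm, b + c - t, ?_⟩
      rw [hb, hc, ← hH.top.add, ← hH.top.add]
      congr 1
      ring
    · obtain ⟨m, hm, c, hc⟩ := hv
      refine ⟨m, hm, a v c, ?_⟩
      rw [← Function.iterate_succ_apply, Function.iterate_succ_apply', hc, hH.top.ext]
  obtain ⟨θ, hθ, t1, t2⟩ : ∃ θ : ℝ, 0 < θ ∧ θ ≤ θ₀ ∧ θ ≤ 1 / 2 :=
    ⟨min θ₀ (1 / 2), lt_min hH.pos (by norm_num), min_le_left _ _, min_le_right _ _⟩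
  refine ⟨θ, hθ, fun v m c hm hv => ?_⟩
  have hP : FP F ψ v := ⟨m, hm, c, hv⟩
  have hPi : ∀ i, FP F ψ (F^[i] v) := by
    intro i
    induction i with
    | zero => exact hP
    | succ i ih => rw [Function.iterate_succ_apply']; exact hD.PF _ ih
  have hmono : ∀ i, Monotone (Vf F ψ θ₀ (F^[i] v)) := fun i => hD.V_mono (hPi i)
  have hmc : (0 : ℝ) < m := by exact_mod_cast hm
  have hint : ∀ i, IntervalIntegrable (deriv (Vf F ψ θ₀ (F^[i] v))) volume (-θ) θ := fun i =>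
    ((hmono i).monotoneOn _).intervalIntegrable_deriv
  have hintle : ∀ i, ∫ s in (-θ)..θ, deriv (Vf F ψ θ₀ (F^[i] v)) s ≤ 1 := by
    intro i
    have h1 := ((hmono i).monotoneOn (uIcc (-θ) θ)).intervalIntegral_deriv_mem_uIcc
    have h2 := hD.V_nonneg (F^[i] v) (-θ)
    have h3 := hD.V_le (hPi i) θ
    have h4 : Vf F ψ θ₀ (F^[i] v) (-θ) ≤ Vf F ψ θ₀ (F^[i] v) θ := hmono i (by linarith)
    rw [uIcc_of_le (by linarith)] at h1
    linarith [h1.2]
  have hsum : IntervalIntegrable (fun s => ∑ i ∈ Finset.range m, deriv (Vf F ψ θ₀ (F^[i] v)) s)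
      volume (-θ) θ := by
    have := IntervalIntegrable.sum (Finset.range m) fun i _ => hint i
    rwa [Finset.sum_fn] at this
  have hone : IntervalIntegrable (fun _ : ℝ => (1 : ℝ)) volume (-θ) θ :=
    intervalIntegrable_const
  refine ⟨fun s => 1 + (∑ i ∈ Finset.range m, deriv (Vf F ψ θ₀ (F^[i] v)) s) / m, fun s => ?_,
    ?_, ?_, ?_, ?_⟩
  · have : 0 ≤ (∑ i ∈ Finset.range m, deriv (Vf F ψ θ₀ (F^[i] v)) s) / m :=
      div_nonneg (Finset.sum_nonneg fun i _ => (hmono i).deriv_nonneg) hmc.le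
    linarith
  · exact measurable_const.add ((Finset.measurable_fun_sum _ fun i _ => measurable_deriv _).div_const _)
  · exact hone.add (hsum.div_const _)
  · have e1 : ∫ s in (-θ)..θ, (1 + (∑ i ∈ Finset.range m, deriv (Vf F ψ θ₀ (F^[i] v)) s) / m) =
        2 * θ + (∑ i ∈ Finset.range m, ∫ s in (-θ)..θ, deriv (Vf F ψ θ₀ (F^[i] v)) s) / m := by
      rw [intervalIntegral.integral_add hone (hsum.div_const _),
        intervalIntegral.integral_div, intervalIntegral.integral_finsetSum fun i _ => hint i]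
      simp only [intervalIntegral.integral_const, smul_eq_mul, mul_one]
      ring
    rw [e1]
    have e2 : (∑ i ∈ Finset.range m, ∫ s in (-θ)..θ, deriv (Vf F ψ θ₀ (F^[i] v)) s) / m ≤ 1 := by
      rw [div_le_one hmc]
      calc _ ≤ ∑ _i ∈ Finset.range m, (1 : ℝ) := Finset.sum_le_sum fun i _ => hintle i
        _ = m := by simp
    linarith
  · have hae : ∀ᵐ s : ℝ, ∀ i, DifferentiableAt ℝ (Vf F ψ θ₀ (F^[i] v)) s :=
      ae_all_iff.2 fun i => (hmono i).ae_differentiableAt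
    filter_upwards [hae] with s hs hsθ t k lam hk hkp hlam
    have hVi : ∀ i, Vf F ψ θ₀ ((Rt F ψ s)^[i] (ψ t v)) = Vf F ψ θ₀ (F^[i] v) := by
      intro i
      obtain ⟨b, hb⟩ := iter_rt hH.top s i t v
      funext s'
      rw [hb, hD.V_shift]
    have hVm : ∀ i, Vf F ψ θ₀ (F^[i + m] v) = Vf F ψ θ₀ (F^[i] v) := by
      intro i
      rw [Function.iterate_add_apply, hv]
      obtain ⟨b, hb⟩ := iter_psi hH.top i c v
      funext s'
      rw [hb, hD.V_shift]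
    have h1 := hD.bound (hsθ.trans_le t1) (p := ψ t v) (hD.Ppsi v t hP) hk hkp hm
      (fun i => by rw [hVi, hVi, hVm]) (fun i => by rw [hVi]; exact hs i) hA hA'
    simp only [hVi] at h1
    have h2 := fibDer_unique hH.top hlam (fibDer_iter hH.top hA' s (ψ t v) k)
    have h3 : Real.log lam = ∑ i ∈ Finset.range k, Real.log (A ((Rt F ψ s)^[i] (ψ t v))) := by
      rw [h2, Real.log_prod fun i _ => (hA _).ne']
    refine ⟨by rw [h2]; exact Finset.prod_pos fun i _ => hA _, ?_⟩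
    rw [h3, mul_comm]
    exact h1

end

/-- Some periodic point of `ψ_s ∘ F` in the fibre of `v` has a fibre exponent of absolute value less
than `c`. -/
def Weak {N : Type u} (F : N → N) (ψ : ℝ → N → N) (v : N) (s c : ℝ) : Prop :=
  ∃ (t : ℝ) (k : ℕ) (lam : ℝ), 1 ≤ k ∧ (Rt F ψ s)^[k] (ψ t v) = ψ t v ∧
    FibDer ψ (Rt F ψ s)^[k] (ψ t v) lam ∧ |Real.log lam| < c * k

section

variable {N : Type u} {F : N → N} {ψ : ℝ → N → N} {θ : ℝ}

/-- **Most periodic fibres.** -/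
theorem most (hθ : 0 < θ) {E : N → ℝ → ℝ} (hE1 : ∀ v, FP F ψ v → ∀ s, 1 ≤ E v s)
    (hE0 : ∀ v, FP F ψ v → Measurable (E v))
    (hE2 : ∀ v, FP F ψ v → IntervalIntegrable (E v) volume (-θ) θ)
    (hE3 : ∀ v, FP F ψ v → ∫ s in (-θ)..θ, E v s ≤ 2)
    (hE4 : ∀ v, FP F ψ v → ∀ᵐ s : ℝ, |s| < θ → ∀ (t : ℝ) (k : ℕ) (lam : ℝ), 1 ≤ k →
      (Rt F ψ s)^[k] (ψ t v) = ψ t v → FibDer ψ (Rt F ψ s)^[k] (ψ t v) lam →
        0 < lam ∧ (k : ℝ) ≤ E v s * |Real.log lam|) (O : ℕ → Finset N)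
    (hO : ∀ j, (O j).Nonempty) (hOP : ∀ j, ∀ v ∈ O j, FP F ψ v) :
    ∀ᵐ s : ℝ, |s| < θ → ∃ C : ℝ, ∃ᶠ j in atTop, ∀ c : ℝ, 0 < c →
      ({v | v ∈ O j ∧ Weak F ψ v s c}.ncard : ℝ) ≤ C * c * (O j).card := by
  obtain ⟨M, hM⟩ : ∃ M : ℕ → ℝ → ℝ, ∀ j s, M j s = (∑ v ∈ O j, E v s) / (O j).card :=
    ⟨_, fun _ _ => rfl⟩
  have hM' : ∀ j, M j = fun s => (∑ v ∈ O j, E v s) / (O j).card := fun j => funext (hM j)
  have hcard : ∀ j, (0 : ℝ) < (O j).card := fun j => by exact_mod_cast (hO j).card_pos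
  have hsum : ∀ j, IntervalIntegrable (fun s => ∑ v ∈ O j, E v s) volume (-θ) θ := by
    intro j
    have := IntervalIntegrable.sum (O j) fun v hv => hE2 v (hOP j v hv)
    rwa [Finset.sum_fn] at this
  have hMi : ∀ j, IntervalIntegrable (M j) volume (-θ) θ := fun j => by
    rw [hM']; exact (hsum j).div_const _
  have hMle : ∀ j, ∫ s in (-θ)..θ, M j s ≤ 2 := by
    intro j
    rw [hM', intervalIntegral.integral_div,
      intervalIntegral.integral_finsetSum fun v hv => hE2 v (hOP j v hv), div_le_iff₀ (hcard j)]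
    calc _ ≤ ∑ _v ∈ O j, (2 : ℝ) := Finset.sum_le_sum fun v hv => hE3 v (hOP j v hv)
      _ = 2 * (O j).card := by rw [Finset.sum_const, nsmul_eq_mul]; ring
  have hM0 : ∀ j s, 0 ≤ M j s := fun j s => by
    rw [hM]
    exact div_nonneg (Finset.sum_nonneg fun v hv =>
      zero_le_one.trans (hE1 v (hOP j v hv) s)) (hcard j).le
  have hle : -θ ≤ θ := by linarith
  have hIoc : ∀ j, IntegrableOn (M j) (Ioc (-θ) θ) := fun j =>
    (intervalIntegrable_iff_integrableOn_Ioc_of_le hle).1 (hMi j)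
  have hlin : ∀ j, ∫⁻ s in Ioc (-θ) θ, ENNReal.ofReal (M j s) ≤ 2 := by
    intro j
    rw [← ofReal_integral_eq_lintegral_ofReal (hIoc j) (Eventually.of_forall (hM0 j)),
      ← intervalIntegral.integral_of_le hle]
    calc _ ≤ ENNReal.ofReal 2 := ENNReal.ofReal_le_ofReal (hMle j)
      _ = 2 := by simp
  have hmeas : ∀ j, Measurable fun s => ENNReal.ofReal (M j s) := by
    intro j
    rw [hM']
    exact ((Finset.measurable_fun_sum _ fun v hv => hE0 v (hOP j v hv)).div_const _).ennreal_ofReal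
  have hfat : ∫⁻ s in Ioc (-θ) θ, liminf (fun j => ENNReal.ofReal (M j s)) atTop ≤ 2 := by
    refine (lintegral_liminf_le hmeas).trans ?_
    exact Filter.liminf_le_of_le (by isBoundedDefault) fun b hb => by
      obtain ⟨j, hj⟩ := hb.exists
      exact hj.trans (hlin j)
  have hlt : ∀ᵐ s ∂(volume.restrict (Ioc (-θ) θ)),
      liminf (fun j => ENNReal.ofReal (M j s)) atTop < ⊤ :=
    ae_lt_top (Measurable.liminf hmeas) (ne_top_of_le_ne_top (by simp) hfat)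
  rw [ae_restrict_iff' measurableSet_Ioc] at hlt
  have hall : ∀ᵐ s : ℝ, ∀ j, ∀ v ∈ O j, |s| < θ → ∀ (t : ℝ) (k : ℕ) (lam : ℝ), 1 ≤ k →
      (Rt F ψ s)^[k] (ψ t v) = ψ t v → FibDer ψ (Rt F ψ s)^[k] (ψ t v) lam →
        0 < lam ∧ (k : ℝ) ≤ E v s * |Real.log lam| :=
    ae_all_iff.2 fun j => (ae_ball_iff (O j).countable_toSet).2 fun v hv => hE4 v (hOP j v hv)
  filter_upwards [hlt, hall] with s h1 h2 hsθ
  obtain ⟨s1, s2⟩ := abs_lt.1 hsθ
  obtain ⟨C, hC1, hC2⟩ := exists_between (h1 ⟨s1, s2.le⟩)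
  refine ⟨C.toReal, ?_⟩
  have hfr := frequently_lt_of_liminf_lt (by isBoundedDefault) hC1
  refine hfr.mono fun j hj c hc => ?_
  have hMC : M j s ≤ C.toReal := by
    have := (ENNReal.ofReal_le_iff_le_toReal hC2.ne).1 hj.le
    exact this
  -- Markov
  have hfin : {v | v ∈ O j ∧ Weak F ψ v s c}.Finite := (O j).finite_toSet.subset fun v hv => hv.1
  classical
  have hcc : {v | v ∈ O j ∧ Weak F ψ v s c} = ((O j).filter fun v => Weak F ψ v s c : Set N) := by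
    ext v
    simp
  rw [hcc, Set.ncard_coe_finset]
  have h3 : ∀ v ∈ (O j).filter (fun v => Weak F ψ v s c), 1 ≤ c * E v s := by
    intro v hv
    obtain ⟨hv1, t, k, lam, hk, hp, hd, hl⟩ := Finset.mem_filter.1 hv
    obtain ⟨g1, g2⟩ := h2 j v hv1 hsθ t k lam hk hp hd
    have g3 := hE1 v (hOP j v hv1) s
    have g4 : (k : ℝ) * 1 ≤ k * (c * E v s) := by
      have := mul_le_mul_of_nonneg_left hl.le (zero_le_one.trans g3)
      linarith
    exact le_of_mul_le_mul_left g4 (by exact_mod_cast hk)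
  calc (((O j).filter (fun v => Weak F ψ v s c)).card : ℝ)
      = ∑ _v ∈ (O j).filter (fun v => Weak F ψ v s c), (1 : ℝ) := by simp
    _ ≤ ∑ v ∈ (O j).filter (fun v => Weak F ψ v s c), c * E v s := Finset.sum_le_sum h3
    _ ≤ ∑ v ∈ O j, c * E v s := Finset.sum_le_sum_of_subset_of_nonneg (Finset.filter_subset _ _)
        fun v hv _ => mul_nonneg hc.le (zero_le_one.trans (hE1 v (hOP j v hv) s))
    _ = c * (M j s * (O j).card) := by
        rw [← Finset.mul_sum, hM, div_mul_cancel₀ _ (hcard j).ne']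
    _ ≤ c * (C.toReal * (O j).card) := by
        refine mul_le_mul_of_nonneg_left ?_ hc.le
        exact mul_le_mul_of_nonneg_right hMC (hcard j).le
    _ = C.toReal * c * (O j).card := by ring

end

/-- The fibre of `v` is hyperbolic on average: there is a positive function `E` on `(-θ, θ)` with
integral at most `2` such that for almost every `s` the derivatives `lam` of `(ψ_s ∘ F)^k` along the
fibre, at the points of the fibre of `v` fixed by `(ψ_s ∘ F)^k`, satisfy `|log lam| ≥ k / E(s)`. -/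
def MeanHyp {N : Type u} (F : N → N) (ψ : ℝ → N → N) (θ : ℝ) (v : N) : Prop :=
  ∃ E : ℝ → ℝ, (∀ s, 0 < E s) ∧ IntervalIntegrable E volume (-θ) θ ∧ ∫ s in (-θ)..θ, E s ≤ 2 ∧
    ∀ᵐ s : ℝ, |s| < θ → ∀ (t : ℝ) (k : ℕ) (lam : ℝ), 1 ≤ k →
      (Rt F ψ s)^[k] (ψ t v) = ψ t v → FibDer ψ (Rt F ψ s)^[k] (ψ t v) lam →
        0 < lam ∧ (k : ℝ) ≤ E s * |Real.log lam|

/-- For almost every `s ∈ (-θ, θ)` most of the fibres of the points of the finite sets `O j` are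
uniformly hyperbolic: there is a number `C` such that for infinitely many `j`, for all `c > 0`, at most
`C c |O j|` of the points `v` of `O j` are such that some periodic point of `ψ_s ∘ F` in the fibre of
`v` has a fibre exponent of absolute value less than `c`. -/
def MostHyp {N : Type u} (F : N → N) (ψ : ℝ → N → N) (θ : ℝ) (O : ℕ → Finset N) : Prop :=
  ∀ᵐ s : ℝ, |s| < θ → ∃ C : ℝ, ∃ᶠ j in atTop, ∀ c : ℝ, 0 < c →
    ({v | v ∈ O j ∧ Weak F ψ v s c}.ncard : ℝ) ≤ C * c * (O j).card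

section

variable {n : ℕ} {N : Type u} [TopologicalSpace N] [T2Space N] [CompactSpace N]
  [ChartedSpace (V n) N] [IsManifold (𝓡 n) ∞ N] {r : ℕ∞}

/-- **The theorem on the exponents of the periodic points.** -/
theorem mainP' (hr : 1 ≤ r) (F : DiffM n N r) (hF : OmegaStable n N r F) (ψ : ℝ → N → N)
    (h : CircleExt n N F ψ) :
    ∃ θ : ℝ, 0 < θ ∧ (∀ v, FP F ψ v → MeanHyp F ψ θ v) ∧
      ∀ O : ℕ → Finset N, (∀ j, (O j).Nonempty) → (∀ j, ∀ v ∈ O j, FP F ψ v) →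
        MostHyp F ψ θ O := by
  obtain ⟨θ, hθ, H⟩ := mainP hr F hF ψ h
  have hex : ∀ v, ∃ E : ℝ → ℝ, FP F ψ v → (∀ s, 1 ≤ E s) ∧ Measurable E ∧
      IntervalIntegrable E volume (-θ) θ ∧ ∫ s in (-θ)..θ, E s ≤ 2 ∧
        ∀ᵐ s : ℝ, |s| < θ → ∀ (t : ℝ) (k : ℕ) (lam : ℝ), 1 ≤ k →
          (Rt F ψ s)^[k] (ψ t v) = ψ t v → FibDer ψ (Rt F ψ s)^[k] (ψ t v) lam →
            0 < lam ∧ (k : ℝ) ≤ E s * |Real.log lam| := by
    intro v
    by_cases hv : FP F ψ v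
    · obtain ⟨m, hm, c, hc⟩ := hv
      obtain ⟨E, hE⟩ := H v m c hm hc
      exact ⟨E, fun _ => hE⟩
    · exact ⟨fun _ => 0, fun hh => absurd hh hv⟩
  choose E hE using hex
  refine ⟨θ, hθ, fun v hv => ⟨E v, fun s => zero_lt_one.trans_le ((hE v hv).1 s),
    (hE v hv).2.2.1, (hE v hv).2.2.2.1, (hE v hv).2.2.2.2⟩, fun O hO hOP => ?_⟩
  exact most hθ (E := E) (fun v hv => (hE v hv).1) (fun v hv => (hE v hv).2.1)
    (fun v hv => (hE v hv).2.2.1) (fun v hv => (hE v hv).2.2.2.1)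
    (fun v hv => (hE v hv).2.2.2.2) O hO hOP

end

end Pool.Agent.V5helper25.EX
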