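import Pool.Agent.V5helper25.EX.Lim

/-!
# MP_4a0782, circle extensions: weak uniform hyperbolicity at typical parameters
-/

set_option autoImplicit false
set_option linter.unusedSectionVars false

open scoped Topology
open Filter Set Metric

universe u v

namespace Pool.Agent.V5helper25.EX

open Pool.Agent.TH80.OMS Pool.Agent.N813.CX Pool.Agent.N813.CX.CLOS Pool.Agent.V5helper25.TK
  Pool.Agent.V5helper25.TG

section

variable {N : Type u} [MetricSpace N] [CompactSpace N] {G : N → N} {ψ : ℝ → N → N}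
  {a : N → ℝ → ℝ} {A : N → ℝ}

theorem ratio' (h : TopExt G ψ a) (hA : ∀ y, HasDerivAt (a y) (A y) 0) (x : N) (t : ℝ) :
    ∃ ξ, |ξ| ≤ |t| ∧ a x t = A (ψ ξ x) * t := by
  rcases lt_trichotomy t 0 with h1 | h1 | h1
  · obtain ⟨c, hc0, hc⟩ := exists_hasDerivAt_eq_slope (a x) (fun u => A (ψ u x)) h1
      (h.acont x).continuousOn fun u _ => a_der h hA x u
    refine ⟨c, ?_, ?_⟩
    · rw [abs_of_neg hc0.2, abs_of_neg h1]
      linarith [hc0.1]
    · rw [hc, h.azero, zero_sub, zero_sub, neg_div_neg_eq, div_mul_cancel₀ _ h1.ne]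
  · refine ⟨0, by rw [abs_zero]; exact abs_nonneg _, ?_⟩
    rw [h1, h.azero, mul_zero]
  · obtain ⟨c, hc0, hc⟩ := exists_hasDerivAt_eq_slope (a x) (fun u => A (ψ u x)) h1
      (h.acont x).continuousOn fun u _ => a_der h hA x u
    refine ⟨c, ?_, ?_⟩
    · rw [abs_of_pos hc0.1, abs_of_pos h1]
      exact hc0.2.le
    · rw [hc, h.azero, sub_zero, sub_zero, div_mul_cancel₀ _ h1.ne']

/-- small rotations change `A` by small factors -/
theorem A_close (h : TopExt G ψ a) (hA : Continuous A) (hA0 : ∀ y, 0 < A y) {ε : ℝ}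
    (hε : 0 < ε) : ∃ η : ℝ, 0 < η ∧ ∀ (x : N) (ξ : ℝ), |ξ| < η →
      A (ψ ξ x) ≤ Real.exp ε * A x ∧ A x ≤ Real.exp ε * A (ψ ξ x) := by
  have hu : UniformContinuous fun y => Real.log (A y) :=
    CompactSpace.uniformContinuous_of_continuous (hA.log fun y => (hA0 y).ne')
  obtain ⟨δ, hδ, H1⟩ := Metric.uniformContinuous_iff.1 hu ε hε
  obtain ⟨η, hη, H2⟩ := psi_small h hδ
  refine ⟨η, hη, fun x ξ hξ => ?_⟩
  have h1 := H1 (H2 x ξ hξ)
  rw [Real.dist_eq, abs_lt] at h1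
  constructor
  · rw [← Real.exp_log (hA0 (ψ ξ x)), ← Real.exp_log (hA0 x), ← Real.exp_add, Real.exp_le_exp]
    linarith
  · rw [← Real.exp_log (hA0 (ψ ξ x)), ← Real.exp_log (hA0 x), ← Real.exp_add, Real.exp_le_exp]
    linarith

end

/-- `G` is weakly hyperbolic along the fibres, where `A` is the derivative of `G` along the fibres: the
nonwandering set is the union of two disjoint closed invariant sets `K₁` and `K₂`, and for each `ε > 0`
there is a number `C` such that `A(x) A(G x) ⋯ A(G^(n-1) x)` is at most `C e^(ε n)` for `x ∈ K₁` and at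
least `C⁻¹ e^(-ε n)` for `x ∈ K₂`, for all `n`. -/
def WeakHyp {N : Type u} [TopologicalSpace N] (G : N → N) (A : N → ℝ) : Prop :=
  ∃ K₁ K₂ : Set N, IsClosed K₁ ∧ IsClosed K₂ ∧ Disjoint K₁ K₂ ∧ K₁ ∪ K₂ = Omega G ∧
    MapsTo G K₁ K₁ ∧ MapsTo G K₂ K₂ ∧ ∀ ε : ℝ, 0 < ε → ∃ C : ℝ, 0 < C ∧ ∀ n : ℕ,
      (∀ x ∈ K₁, ∏ i ∈ Finset.range n, A (G^[i] x) ≤ C * Real.exp (ε * n)) ∧
      ∀ x ∈ K₂, C⁻¹ * Real.exp (-(ε * n)) ≤ ∏ i ∈ Finset.range n, A (G^[i] x)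

end Pool.Agent.V5helper25.EX

namespace Pool.Agent.V5helper25.TG.DG

open Pool.Agent.TH80.OMS Pool.Agent.N813.CX Pool.Agent.N813.CX.CLOS Pool.Agent.V5helper25.TK
  Pool.Agent.V5helper25.TG Pool.Agent.V5helper25.EX

variable {N : Type u} [MetricSpace N] [CompactSpace N] {B : Type v} [MetricSpace B] {F : N ≃ₜ N}
  {ψ : ℝ → N → N} {a : N → ℝ → ℝ} {π : N → B} {f : B → B} {θ₀ : ℝ} {S : N → ℝ → ℝ} {e : ℝ}
  {Ω : Type u} [MetricSpace Ω] [CompactSpace Ω] {R : Ω ≃ₜ Ω} {Φ : Pm θ₀ → C(Ω, N)}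

variable (h : DG F ψ a π f θ₀ S e R Φ)

include h

theorem exLoc' {s₀ : Pm θ₀} (ht : Typ Φ s₀) {η : ℝ} (hη : 0 < η) :
    ∃ (sm sp : Pm θ₀) (ρ ρ₁ δa : ℝ) (αm αp : Ω → ℝ), Loc ψ a Φ s₀ sm sp ρ ρ₁ δa αm αp ∧
      ρ ≤ η := by
  obtain ⟨δa, hδa, H⟩ := a_small h.top F.continuous (show (0 : ℝ) < 1 / 4 by norm_num)
  have hg : 0 < θ₀ - |(s₀ : ℝ)| := by linarith [s₀.2]
  obtain ⟨ρ₁, hρ₁, q1, q2, q3⟩ : ∃ ρ₁ : ℝ, 0 < ρ₁ ∧ ρ₁ ≤ δa / 8 ∧ ρ₁ ≤ 1 / 64 ∧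
      ρ₁ ≤ (θ₀ - |(s₀ : ℝ)|) / 40 :=
    ⟨min (δa / 8) (min (1 / 64) ((θ₀ - |(s₀ : ℝ)|) / 40)), by positivity, min_le_left _ _,
      (min_le_right _ _).trans (min_le_left _ _), (min_le_right _ _).trans (min_le_right _ _)⟩
  obtain ⟨δ, hδ, H'⟩ := a_small h.top F.continuous hρ₁
  obtain ⟨ρ, hρ, t1, t2, t3⟩ : ∃ ρ : ℝ, 0 < ρ ∧ ρ ≤ δ / 2 ∧ ρ ≤ ρ₁ ∧ ρ ≤ η :=
    ⟨min (δ / 2) (min ρ₁ η), by positivity, min_le_left _ _,
      (min_le_right _ _).trans (min_le_left _ _), (min_le_right _ _).trans (min_le_right _ _)⟩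
  obtain ⟨ε, hε, Hsh⟩ := h.shift_of hρ
  obtain ⟨⟨sp, p1, p2, p3⟩, sm, m1, m2, m3⟩ := ht (min ε ρ) (lt_min hε hρ)
  obtain ⟨αp, hαp⟩ := Hsh s₀ sp (p3.trans_le (min_le_left _ _))
  obtain ⟨αm, hαm⟩ := Hsh s₀ sm (m3.trans_le (min_le_left _ _))
  have l1 := min_le_right ε ρ
  exact ⟨sm, sp, ρ, ρ₁, δa, αm, αp, ⟨ht, H, hρ, t2, fun v t hvt => (H' v t (by linarith)).le,
    by linarith, q2, by linarith, m1, by linarith, p1, by linarith, hαm, hαp⟩, t3⟩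

/-- the types do not depend on the data -/
theorem up_indep {s₀ sm sp sm' sp' : Pm θ₀} {ρ ρ₁ δa ρ' ρ₁' δa' : ℝ} {αm αp αm' αp' : Ω → ℝ}
    (l : Loc ψ a Φ s₀ sm sp ρ ρ₁ δa αm αp) (l' : Loc ψ a Φ s₀ sm' sp' ρ' ρ₁' δa' αm' αp') :
    {ω | 0 ≤ αp ω} = {ω | 0 ≤ αp' ω} := by
  have hper : ∀ ω ∈ Per R, (0 ≤ αp ω ↔ 0 ≤ αp' ω) := by
    intro ω hω
    have hT := h.sf _ (h.Sb hω s₀)
    have hl := h.lip _ (h.Sb hω s₀)
    have e0 : S (Φ s₀ ω) 0 = s₀ := h.Sval hω s₀ s₀ (h.top.zero _).symm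
    have ep : S (Φ s₀ ω) (αp ω) = sp := h.Sval hω s₀ sp (l.shp.eq ω)
    have ep' : S (Φ s₀ ω) (αp' ω) = sp' := h.Sval hω s₀ sp' (l'.shp.eq ω)
    have b1 := abs_lt.1 (l.shp.small ω)
    have b2 := abs_lt.1 (l'.shp.small ω)
    have b3 := abs_le.1 (le_refl |(s₀ : ℝ)|)
    have r3 := l.r3
    have r3' := l'.r3
    have ρp := l.ρpos
    have ρ1 := l.ρ1
    have ρp' := l'.ρpos
    have ρ1' := l'.ρ1
    have p1 := l.p1
    have p2 := l.p2
    have p1' := l'.p1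
    have p2' := l'.p2
    rcases h.types l hω with ⟨a1, a2⟩ | ⟨a1, a2⟩ <;>
      rcases h.types l' hω with ⟨c1, c2⟩ | ⟨c1, c2⟩
    · exact ⟨fun _ => c2.le, fun _ => a2.le⟩
    · exfalso
      refine valley hT hl c1 a2 (by rw [ep', e0]; exact p1') (by rw [ep, e0]; exact p1) ?_
        (by rw [e0]; linarith)
      rw [ep]
      linarith
    · exfalso
      refine valley hT hl a1 c2 (by rw [ep, e0]; exact p1) (by rw [ep', e0]; exact p1') ?_
        (by rw [e0]; linarith)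
      rw [ep']
      linarith
    · exact ⟨fun hh => absurd hh (not_le.2 a1), fun hh => absurd hh (not_le.2 c1)⟩
  obtain ⟨⟨hc, ho⟩, -⟩ := h.up_clopen l
  obtain ⟨⟨hc', ho'⟩, -⟩ := h.up_clopen l'
  apply subset_antisymm
  · intro ω hω
    by_contra hcon
    obtain ⟨ω', ⟨g1, g2⟩, g3⟩ := h.dens ({ω | 0 ≤ αp ω} ∩ {ω | 0 ≤ αp' ω}ᶜ)
      (ho.inter hc'.isOpen_compl) ⟨ω, hω, hcon⟩
    exact g2 ((hper ω' g3).1 g1)
  · intro ω hω
    by_contra hcon
    obtain ⟨ω', ⟨g1, g2⟩, g3⟩ := h.dens ({ω | 0 ≤ αp' ω} ∩ {ω | 0 ≤ αp ω}ᶜ)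
      (ho'.inter hc.isOpen_compl) ⟨ω, hω, hcon⟩
    exact g2 ((hper ω' g3).2 g1)

/-- **Weak hyperbolicity.** -/
theorem weak {A : N → ℝ} (hAc : Continuous A) (hA0 : ∀ y, 0 < A y)
    (hA : ∀ y, HasDerivAt (a y) (A y) 0) {s₀ : Pm θ₀} (ht : Typ Φ s₀)
    (hom : Omega (Rt F ψ s₀) = range (Φ s₀)) : WeakHyp (Rt F ψ s₀) A := by
  obtain ⟨sm, sp, ρ, ρ₁, δa, αm, αp, l⟩ := h.exLoc ht
  obtain ⟨⟨hc, ho⟩, hinv⟩ := h.up_clopen l
  refine ⟨Φ s₀ '' {ω | 0 ≤ αp ω}, Φ s₀ '' {ω | 0 ≤ αp ω}ᶜ,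
    (hc.isCompact.image (Φ s₀).continuous).isClosed,
    (ho.isClosed_compl.isCompact.image (Φ s₀).continuous).isClosed, ?_, ?_, ?_, ?_, ?_⟩
  · rw [Set.disjoint_image_iff (h.inj s₀)]
    exact disjoint_compl_right
  · rw [← image_union, union_compl_self, image_univ, hom]
  · rintro _ ⟨ω, hω, rfl⟩
    exact ⟨R ω, (hinv ω).2 hω, (h.conj s₀ ω).symm⟩
  · rintro _ ⟨ω, hω, rfl⟩
    exact ⟨R ω, fun hh => hω ((hinv ω).1 hh), (h.conj s₀ ω).symm⟩
  intro ε hε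
  obtain ⟨η, hη, HA⟩ := A_close h.top hAc hA0 hε
  obtain ⟨sm', sp', ρ', ρ₁', δa', αm', αp', l', hρη⟩ := h.exLoc' ht hη
  have hup := h.up_indep l l'
  rw [hup]
  obtain ⟨-, hinv'⟩ := h.up_clopen l'
  have p1 := l'.p1
  have p2 := l'.p2
  have r1 := l'.r1
  have r2 := l'.r2
  have ρ1 := l'.ρ1
  have ρp := l'.ρpos
  have hδ : 0 < (sp' : ℝ) - s₀ := sub_pos.2 p1
  obtain ⟨c, hc0, hc1, hc2⟩ := h.typ_bwd l'.hδa (s := s₀) (s' := sp') l'.p1 (by linarith)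
    (ρ := ρ') (by linarith) (by linarith) l'.shp
  -- the evolution of the positions
  have hev : ∀ ω, αp' (R ω) = (sp' : ℝ) - s₀ + a (Φ s₀ ω) (αp' ω) := fun ω =>
    h.evo l'.hδa (s := s₀) (s' := sp') (by rw [abs_of_pos hδ]; linarith) (l'.shp.eq ω)
      (l'.shp.eq (R ω)) ((l'.shp.small ω).trans_le (by linarith))
      ((l'.shp.small _).trans_le (by linarith))
  have hit : ∀ (n : ℕ) (ω : Ω), (0 ≤ αp' (R^[n] ω) ↔ 0 ≤ αp' ω) := by
    intro n ω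
    induction n with
    | zero => rfl
    | succ n ih => rw [Function.iterate_succ_apply', hinv', ih]
  have hpr : ∀ (n : ℕ) (ω : Ω), ∏ i ∈ Finset.range n, A ((Rt F ψ s₀)^[i] (Φ s₀ ω)) =
      ∏ i ∈ Finset.range n, A (Φ s₀ (R^[i] ω)) := by
    intro n ω
    refine Finset.prod_congr rfl fun i _ => ?_
    rw [h.phi_iter]
  have hup1 : ∀ ω, 0 ≤ αp' ω → (sp' : ℝ) - s₀ ≤ αp' ω := by
    intro ω hω
    obtain ⟨ω₁, rfl⟩ := R.surjective ω
    exact h.typ_fwd l'.hδa (s := s₀) (s' := sp') l'.p1 (by linarith) (ρ := ρ')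
      (by linarith) (by linarith) l'.shp ((hinv' ω₁).1 hω)
  refine ⟨max (ρ' / ((sp' : ℝ) - s₀)) (ρ' / c), lt_max_of_lt_left (by positivity), fun n =>
    ⟨?_, ?_⟩⟩
  · rintro _ ⟨ω, hω, rfl⟩
    have hω' : 0 ≤ αp' ω := hω
    rw [hpr]
    have key : ∀ n : ℕ, (∏ i ∈ Finset.range n, A (Φ s₀ (R^[i] ω))) * αp' ω ≤
        Real.exp (ε * n) * αp' (R^[n] ω) := by
      intro n
      induction n with
      | zero => simp
      | succ n ih =>
        have g1 := (hit n ω).2 hω'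
        obtain ⟨ξ, hξ, hξ'⟩ := ratio' h.top hA (Φ s₀ (R^[n] ω)) (αp' (R^[n] ω))
        have g2 := (HA (Φ s₀ (R^[n] ω)) ξ (hξ.trans_lt ((l'.shp.small _).trans_le hρη))).2
        have g3 := hev (R^[n] ω)
        rw [hξ'] at g3
        have g4 : A (Φ s₀ (R^[n] ω)) * αp' (R^[n] ω) ≤
            Real.exp ε * αp' (R (R^[n] ω)) := by
          rw [g3]
          have g5 := mul_le_mul_of_nonneg_right g2 g1
          have g6 := mul_nonneg (Real.exp_pos ε).le hδ.le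
          have g7 : Real.exp ε * ((sp' : ℝ) - s₀ + A (ψ ξ (Φ s₀ (R^[n] ω))) * αp' (R^[n] ω)) =
              Real.exp ε * ((sp' : ℝ) - s₀) +
                Real.exp ε * A (ψ ξ (Φ s₀ (R^[n] ω))) * αp' (R^[n] ω) := by ring
          rw [g7]
          linarith
        rw [Finset.prod_range_succ, Function.iterate_succ_apply']
        have e1 : Real.exp (ε * ((n + 1 : ℕ) : ℝ)) = Real.exp (ε * n) * Real.exp ε := by
          rw [← Real.exp_add]
          congr 1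
          push_cast
          ring
        rw [e1]
        calc (∏ i ∈ Finset.range n, A (Φ s₀ (R^[i] ω))) * A (Φ s₀ (R^[n] ω)) * αp' ω
            = A (Φ s₀ (R^[n] ω)) * ((∏ i ∈ Finset.range n, A (Φ s₀ (R^[i] ω))) * αp' ω) := by
              ring
          _ ≤ A (Φ s₀ (R^[n] ω)) * (Real.exp (ε * n) * αp' (R^[n] ω)) :=
              mul_le_mul_of_nonneg_left ih (hA0 _).le
          _ = Real.exp (ε * n) * (A (Φ s₀ (R^[n] ω)) * αp' (R^[n] ω)) := by ring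
          _ ≤ Real.exp (ε * n) * (Real.exp ε * αp' (R (R^[n] ω))) :=
              mul_le_mul_of_nonneg_left g4 (Real.exp_pos _).le
          _ = _ := by ring
    have k1 := key n
    have k2 := hup1 ω hω'
    have k3 := (abs_lt.1 (l'.shp.small (R^[n] ω))).2
    have k4 : 0 < ∏ i ∈ Finset.range n, A (Φ s₀ (R^[i] ω)) := Finset.prod_pos fun i _ => hA0 _
    have k5 : (∏ i ∈ Finset.range n, A (Φ s₀ (R^[i] ω))) * ((sp' : ℝ) - s₀) ≤
        Real.exp (ε * n) * ρ' :=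
      (mul_le_mul_of_nonneg_left k2 k4.le).trans
        (k1.trans (mul_le_mul_of_nonneg_left k3.le (Real.exp_pos _).le))
    rw [← le_div_iff₀ hδ] at k5
    refine k5.trans ?_
    rw [mul_div_assoc, mul_comm]
    exact mul_le_mul_of_nonneg_right (le_max_left _ _) (Real.exp_pos _).le
  · rintro _ ⟨ω, hω, rfl⟩
    have hω' : αp' ω < 0 := not_le.1 hω
    rw [hpr]
    have hneg : ∀ n : ℕ, αp' (R^[n] ω) < 0 := fun n => by
      rw [← not_le, hit n ω, not_le]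
      exact hω'
    have key : ∀ n : ℕ, -αp' (R^[n] ω) ≤
        Real.exp (ε * n) * ((∏ i ∈ Finset.range n, A (Φ s₀ (R^[i] ω))) * (-αp' ω)) := by
      intro n
      induction n with
      | zero => simp
      | succ n ih =>
        have g1 := hneg n
        obtain ⟨ξ, hξ, hξ'⟩ := ratio' h.top hA (Φ s₀ (R^[n] ω)) (αp' (R^[n] ω))
        have g2 := (HA (Φ s₀ (R^[n] ω)) ξ (hξ.trans_lt ((l'.shp.small _).trans_le hρη))).1
        have g3 := hev (R^[n] ω)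
        rw [hξ'] at g3
        have g4 : -αp' (R (R^[n] ω)) ≤
            Real.exp ε * (A (Φ s₀ (R^[n] ω)) * (-αp' (R^[n] ω))) := by
          rw [g3]
          have g5 := mul_le_mul_of_nonneg_right g2 (show 0 ≤ -αp' (R^[n] ω) by linarith)
          linarith
        rw [Finset.prod_range_succ, Function.iterate_succ_apply']
        have e1 : Real.exp (ε * ((n + 1 : ℕ) : ℝ)) = Real.exp (ε * n) * Real.exp ε := by
          rw [← Real.exp_add]
          congr 1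
          push_cast
          ring
        rw [e1]
        calc -αp' (R (R^[n] ω)) ≤ Real.exp ε * (A (Φ s₀ (R^[n] ω)) * (-αp' (R^[n] ω))) := g4
          _ ≤ Real.exp ε * (A (Φ s₀ (R^[n] ω)) * (Real.exp (ε * n) *
                ((∏ i ∈ Finset.range n, A (Φ s₀ (R^[i] ω))) * (-αp' ω)))) :=
              mul_le_mul_of_nonneg_left (mul_le_mul_of_nonneg_left ih (hA0 _).le)
                (Real.exp_pos _).le
          _ = _ := by ring
    have k1 := key n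
    have k2 : c ≤ -αp' (R^[n] ω) := by
      rcases hc1 (R^[n] ω) with hh | hh
      · linarith
      · exact absurd hh (not_le.2 (hneg n))
    have k3 := (abs_lt.1 (l'.shp.small ω)).1
    have k4 : 0 < ∏ i ∈ Finset.range n, A (Φ s₀ (R^[i] ω)) := Finset.prod_pos fun i _ => hA0 _
    have k5 : c ≤ Real.exp (ε * n) * ((∏ i ∈ Finset.range n, A (Φ s₀ (R^[i] ω))) * ρ') :=
      k2.trans (k1.trans (mul_le_mul_of_nonneg_left
        (mul_le_mul_of_nonneg_left (by linarith) k4.le) (Real.exp_pos _).le))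
    have k6 : (max (ρ' / ((sp' : ℝ) - s₀)) (ρ' / c))⁻¹ ≤ c / ρ' := by
      rw [← inv_div ρ' c]
      exact inv_anti₀ (by positivity) (le_max_right _ _)
    have k7 : c / ρ' * Real.exp (-(ε * n)) ≤ ∏ i ∈ Finset.range n, A (Φ s₀ (R^[i] ω)) := by
      rw [Real.exp_neg, ← div_eq_mul_inv, div_div, div_le_iff₀ (by positivity)]
      calc c ≤ _ := k5
        _ = _ := by ring
    exact (mul_le_mul_of_nonneg_right k6 (Real.exp_pos _).le).trans k7

end Pool.Agent.V5helper25.TG.DG
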