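import Pool.Agent.V5helper25.EX.Mu
import Pool.Agent.V5helper25.EX.Weak
import Pool.Agent.V5helper25.EX.MainP

/-!
# MP_4a0782, circle extensions: the exponents of the invariant measures, the theorem
-/

set_option autoImplicit false
set_option linter.unusedSectionVars false

open scoped Manifold ContDiff Topology
open MeasureTheory Filter Set Metric

universe u v

namespace Pool.Agent.V5helper25.TG.DG

open Pool.Agent.TH80.OMS Pool.Agent.N813.CX Pool.Agent.N813.CX.CLOS Pool.Agent.V5helper25.TK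
  Pool.Agent.V5helper25.TG Pool.Agent.V5helper25.EX

variable {N : Type u} [MetricSpace N] [CompactSpace N] {B : Type v} [MetricSpace B] {F : N ≃ₜ N}
  {ψ : ℝ → N → N} {a : N → ℝ → ℝ} {π : N → B} {f : B → B} {θ₀ : ℝ} {S : N → ℝ → ℝ} {e : ℝ}
  {Om : Type u} [MetricSpace Om] [CompactSpace Om] {R : Om ≃ₜ Om} {Φ : Pm θ₀ → C(Om, N)}

/-- **The exponents of the measures.** -/
theorem glob_ae (h : DG F ψ a π f θ₀ S e R Φ) [MeasurableSpace B] [BorelSpace B]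
    [MeasurableSpace N] [BorelSpace N] [MeasurableSpace Om] [BorelSpace Om] {A : N → ℝ}
    (hAc : Continuous A) (hA0 : ∀ y, 0 < A y) (hA : ∀ y, HasDerivAt (a y) (A y) 0)
    (hom : ∀ s, |s| < θ₀ → Omega (Rt F ψ s) ⊆ closure (Per (Rt F ψ s))) (ν : Measure B)
    [IsFiniteMeasure ν] :
    ∀ᵐ s : ℝ, |s| < θ₀ → ∀ μ : Measure N, IsProbabilityMeasure μ →
      MeasurePreserving (Rt F ψ s) μ μ → μ.map π = ν →
        GP (Rt F ψ s) (fun x => Real.log (A x)) μ := by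
  obtain ⟨E, hE, hcond⟩ := cond Φ
  have hEt : ∀ s : Pm θ₀, (s : ℝ) ∉ E → Typ Φ s := hcond
  have hex : ∀ s₀ : Pm θ₀, ∃ α β : ℝ, ((s₀ : ℝ) ∉ E → (s₀ : ℝ) ∈ Ioo α β) ∧
      ∀ᵐ s : ℝ, s ∈ Ioo α β → ∀ μ : Measure N, IsProbabilityMeasure μ →
        MeasurePreserving (Rt F ψ s) μ μ → μ.map π = ν →
          GP (Rt F ψ s) (fun x => Real.log (A x)) μ := by
    intro s₀
    by_cases hs : (s₀ : ℝ) ∈ E
    · refine ⟨0, 0, fun hh => absurd hs hh, Eventually.of_forall fun s hs' => ?_⟩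
      exact absurd (hs'.1.trans hs'.2) (lt_irrefl _)
    · obtain ⟨sm, sp, ρ, ρ₁, δa, αm, αp, l⟩ := h.exLoc (hEt s₀ hs)
      exact ⟨sm, sp, fun _ => ⟨l.m1, l.p1⟩, h.loc_ae l hAc hA0 hA hE hEt hom ν⟩
  choose α β hJ hG using hex
  obtain ⟨T, hT, hTU⟩ := TopologicalSpace.isOpen_iUnion_countable
    (fun s₀ : Pm θ₀ => Ioo (α s₀) (β s₀)) fun _ => isOpen_Ioo
  have hall := (ae_ball_iff hT).2 fun i _ => hG i
  filter_upwards [hall, hE.ae_notMem volume] with s hs hsE hsθ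
  have h1 : s ∈ ⋃ i ∈ T, Ioo (α i) (β i) := by
    rw [hTU]
    exact mem_iUnion.2 ⟨⟨s, hsθ⟩, hJ ⟨s, hsθ⟩ hsE⟩
  obtain ⟨i, hi, hsi⟩ := mem_iUnion₂.1 h1
  exact hs i hi hsi

end Pool.Agent.V5helper25.TG.DG

namespace Pool.Agent.V5helper25.EX

open Pool.Agent.H718R2.G Pool.Agent.W564.SC Pool.Agent.TH80.OMS Pool.Agent.TH290.CL
  Pool.Agent.N813.OF Pool.Agent.N813.CX Pool.Agent.N813.CX.CLOS Pool.Agent.V5helper25.TK
  Pool.Agent.V5helper25.TG

section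

variable {N : Type u} [MetricSpace N] [CompactSpace N] {B : Type v} [MetricSpace B] {F : N ≃ₜ N}
  {ψ : ℝ → N → N} {a : N → ℝ → ℝ} {π : N → B} {f : B → B} {θ₀ : ℝ}

/-- the data of the theorem -/
theorem mkDG [CompactSpace (Omega (F : N → N))] {S : N → ℝ → ℝ} (top : TopExt F ψ a) (orb : OrbitMap F ψ π f)
    (clos : ClosingProp f) (pos : 0 < θ₀) (sf : ∀ v, π v ∈ Per f → SF (S v) θ₀)
    (per : ∀ v, π v ∈ Per f → ∀ s, |s| < θ₀ → ∀ t, (ψ t v ∈ Per (Rt F ψ s) ↔ S v t = s))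
    (lip : ∀ v, π v ∈ Per f → ∀ t u, t ≤ u → S v u - S v t ≤ u - t)
    (hexp : ExpansiveOn f (Omega f))
    (hconj : ∀ s, |s| < θ₀ → OmegaConj F (Rt F ψ s)) (hd : Omega F ⊆ closure (Per F)) :
    (∃ (e : ℝ) (Φ : Pm θ₀ → C(Omega (F : N → N), N)), DG F ψ a π f θ₀ S e (omR F) Φ ∧
      ∀ s : Pm θ₀, Omega (Rt F ψ s) = range (Φ s)) ∧
      ∀ s, |s| < θ₀ → Omega (Rt F ψ s) ⊆ closure (Per (Rt F ψ s)) := by
  obtain ⟨We, hWe1, hWe2, hWe3⟩ := hexp
  have hCB : CompactSpace B := ⟨by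
    rw [← orb.surj.range_eq]
    exact isCompact_range orb.cont⟩
  obtain ⟨e, he, hWe⟩ := diag_nhds hWe1 hWe2
  have hex : ∀ s : Pm θ₀, ∃ c : Omega (F : N → N) ≃ₜ Omega (Rt F ψ s),
      ∀ x y : Omega (F : N → N), F x = y → Rt F ψ s (c x) = c y := fun s => hconj s s.2
  choose c hc using hex
  obtain ⟨Φ, hΦ⟩ : ∃ Φ : Pm θ₀ → C(Omega (F : N → N), N), ∀ s x, Φ s x = c s x :=
    ⟨fun s => ⟨fun x => c s x, continuous_subtype_val.comp (c s).continuous⟩, fun s x => rfl⟩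
  have hom : ∀ s : Pm θ₀, Omega (Rt F ψ s) = closure (Per (Rt F ψ s)) := by
    intro s
    apply subset_antisymm
    · exact CONJ.t N (Rt F ψ s) F (Rt_cont top s) (conj_symm F.continuous (hconj s s.2)) hd
    · exact closure_minimal (CONJ.per_sub _) (om_closed _)
  have hbase : ∀ (s : Pm θ₀), ∀ x ∈ Omega (Rt F ψ s), π x ∈ Omega f := by
    intro s x hx
    rw [hom] at hx
    rw [← om_base f clos]
    exact map_mem_closure orb.cont hx fun w hw => per_base orb hw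
  refine ⟨⟨e, Φ, ?_, fun s => ?_⟩, fun s hs => (hom ⟨s, hs⟩).le⟩
  swap
  · ext x
    constructor
    · intro hx
      refine ⟨(c s).symm ⟨x, hx⟩, ?_⟩
      rw [hΦ, (c s).apply_symm_apply]
    · rintro ⟨wo, rfl⟩
      rw [hΦ]
      exact (c s wo).2
  refine ⟨top, orb, clos, pos, sf, per, lip, he, ?_, ?_, ?_, ?_, ?_, ?_⟩
  · intro x y hx hy hfx hfy hxy
    exact hWe3 x y hx hy hfx hfy fun i => hWe _ _ (hxy i)
  · intro U hU hne
    obtain ⟨wo, hwo⟩ := hne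
    obtain ⟨V, hV, rfl⟩ := isOpen_induced_iff.1 hU
    obtain ⟨p, hpV, hp⟩ := mem_closure_iff.1 (hd wo.2) V hV hwo
    refine ⟨⟨p, CONJ.per_sub _ hp⟩, hpV, ?_⟩
    obtain ⟨m, hm, hpm⟩ := hp
    exact ⟨m, hm, Subtype.ext (by rw [omR_iter]; exact hpm)⟩
  · intro s wo
    rw [hΦ, hΦ]
    exact hc s wo (omR F wo) rfl
  · intro s wo
    rw [hΦ]
    exact hbase s _ (c s wo).2
  · intro s x y hxy
    rw [hΦ, hΦ] at hxy
    exact (c s).injective (Subtype.ext hxy)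
  · intro s p hp
    refine ⟨(c s).symm ⟨p, CONJ.per_sub _ hp⟩, ?_⟩
    rw [hΦ, (c s).apply_symm_apply]

end

/-- The measure `μ`, invariant under `G`, is hyperbolic along the fibres, where `exp φ` is the
derivative of `G` along the fibres: at almost every point the averages
`(1 / n) (φ x + φ (G x) + ⋯ + φ (G^(n-1) x))` do not tend to `0`, and the integral of `φ` is not `0` if
`μ` is ergodic. -/
def FibHyp {N : Type u} [MeasurableSpace N] (G : N → N) (φ : N → ℝ) (μ : Measure N) : Prop :=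
  (∀ᵐ x ∂μ, ¬ Tendsto (fun n => birkhoffAverage ℝ G φ n x) atTop (𝓝 0)) ∧
    (Ergodic G μ → ∫ x, φ x ∂μ ≠ 0)

section

variable {n : ℕ} {N : Type u} [TopologicalSpace N] [T2Space N] [CompactSpace N]
  [ChartedSpace (V n) N] [IsManifold (𝓡 n) ∞ N] [MeasurableSpace N] [BorelSpace N] {r : ℕ∞}

/-- **The theorem on the exponents of the invariant measures.** -/
theorem mainM (hr : 1 ≤ r) (F : DiffM n N r) (hF : OmegaStable n N r F) (ψ : ℝ → N → N)
    (h : CircleExt n N F ψ) (B : Type v) [MetricSpace B] [MeasurableSpace B] [BorelSpace B]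
    (π : N → B) (f : B → B) (hπ : OrbitMap F ψ π f) (hf : ClosingProp f)
    (he : ExpansiveOn f (Omega f)) :
    ∃ (A : N → ℝ) (θ : ℝ), Continuous A ∧ (∀ y, 0 < A y) ∧
      (∀ (s : ℝ) (y : N), FibDer ψ (Rt F ψ s) y (A y)) ∧ 0 < θ ∧
      (∃ E : Set ℝ, E.Countable ∧ ∀ s, |s| < θ → s ∉ E → WeakHyp (Rt F ψ s) A) ∧
      ∀ ν : Measure B, IsProbabilityMeasure ν → ∀ᵐ s : ℝ, |s| < θ → ∀ μ : Measure N,
        IsProbabilityMeasure μ → MeasurePreserving (Rt F ψ s) μ μ → μ.map π = ν →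
          FibHyp (Rt F ψ s) (fun y => Real.log (A y)) μ := by
  have : SecondCountableTopology N := ChartedSpace.secondCountable_of_sigmaCompact (V n) N
  let _ : MetricSpace N := TopologicalSpace.metrizableSpaceMetric N
  obtain ⟨a, H, θ₀, hH⟩ := exists_rotFam hr F hF ψ h
  obtain ⟨A, hA1, hA2, hA3⟩ := exists_der hr F hH.flow hH.top
  have hHe : ∀ s, (H s : N → N) = Rt F ψ s := fun s => funext fun y => hH.eq s y
  have hex : ∀ v : N, ∃ S : ℝ → ℝ, π v ∈ Per f → SF S θ₀ ∧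
      (∀ t u, t ≤ u → S u - S t ≤ u - t) ∧
      ∀ s, |s| < θ₀ → ∀ t, (ψ t v ∈ Per (Rt F ψ s) ↔ S t = s) := by
    intro v
    by_cases hv : π v ∈ Per f
    · obtain ⟨S, h1, h2, h3⟩ := exS hr hH hπ v hv
      refine ⟨S, fun _ => ⟨h1, h2, fun s hs t => ?_⟩⟩
      rw [← hHe]
      exact h3 s hs t
    · exact ⟨fun _ => 0, fun hh => absurd hh hv⟩
  choose S hS using hex
  have hconj : ∀ s, |s| < θ₀ → OmegaConj F.toHomeomorph (Rt F.toHomeomorph ψ s) := by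
    intro s hs
    have := hH.conj s hs
    rwa [hHe] at this
  have hd : Omega (F.toHomeomorph : N → N) ⊆ closure (Per F.toHomeomorph) :=
    dense hr hH B π f hπ hf
  have hCO : CompactSpace (Omega (F.toHomeomorph : N → N)) :=
    isCompact_iff_compactSpace.1 (om_closed _).isCompact
  obtain ⟨⟨e, Φ, hDG, hrg⟩, hom⟩ := mkDG (F := F.toHomeomorph) hH.top hπ hf hH.pos
    (fun v hv => (hS v hv).1) (fun v hv => (hS v hv).2.2) (fun v hv => (hS v hv).2.1) he hconj hd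
  obtain ⟨L, hL⟩ := log_bound hA1 hA2
  refine ⟨A, θ₀, hA1, hA2, fun s y => ⟨a y, hA3 y, hH.top.azero y, fun t => ?_⟩, hH.pos, ?_, ?_⟩
  · show ψ s (F (ψ t y)) = ψ (a y t) (ψ s (F y))
    rw [hH.top.ext, ← hH.top.add, ← hH.top.add]
    congr 1
    ring
  · obtain ⟨E, hE, hcond⟩ := cond Φ
    exact ⟨E, hE, fun s hs hsE => hDG.weak hA1 hA2 hA3 (s₀ := ⟨s, hs⟩) (hcond ⟨s, hs⟩ hsE)
      (hrg ⟨s, hs⟩)⟩
  · intro ν hν
    filter_upwards [hDG.glob_ae hA1 hA2 hA3 hom ν] with s hs hsθ μ hμ1 hμ2 hμ3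
    have hgp : GP (Rt F.toHomeomorph ψ s) (fun y => Real.log (A y)) μ := hs hsθ μ hμ1 hμ2 hμ3
    refine ⟨?_, fun hee => gp_ergodic hgp hee⟩
    exact gp_avg hgp hμ2 (hA1.log fun y => (hA2 y).ne').measurable hL

end

end Pool.Agent.V5helper25.EX
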