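import Pool.Agent.V5helper25.EX.Lim

/-!
# MP_4a0782, circle extensions: the exponents of the invariant measures, the parameters
-/

set_option autoImplicit false
set_option linter.unusedSectionVars false

open scoped Topology
open MeasureTheory Filter Set Metric

universe u v

namespace Pool.Agent.V5helper25.EX

open Pool.Agent.TH80.OMS

/-- invariant measures live on the nonwandering set -/
theorem omega_null {N : Type u} [TopologicalSpace N] [SecondCountableTopology N]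
    [MeasurableSpace N] [BorelSpace N] {G : N → N} {μ : Measure N} [IsFiniteMeasure μ]
    (hμ : MeasurePreserving G μ μ) : μ (Omega G)ᶜ = 0 := by
  refine measure_null_of_locally_null _ fun x hx => ?_
  have hx' : ¬ ∀ W : Set N, IsOpen W → x ∈ W → ∃ k : ℕ, 1 ≤ k ∧ ∃ y ∈ W, G^[k] y ∈ W := hx
  push Not at hx'
  obtain ⟨W, hW, hxW, H⟩ := hx'
  refine ⟨W, mem_nhdsWithin_of_mem_nhds (hW.mem_nhds hxW), ?_⟩
  by_contra hcon
  obtain ⟨y, hy, m, hm, hm'⟩ := hμ.exists_mem_iterate_mem hW.measurableSet.nullMeasurableSet hcon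
  exact H m (Nat.one_le_iff_ne_zero.2 hm) y hy hm'

/-- pulling back an invariant measure -/
theorem pull {N : Type u} [TopologicalSpace N] [MeasurableSpace N] [BorelSpace N] [T2Space N]
    {Ω : Type u} [TopologicalSpace Ω] [CompactSpace Ω] [MeasurableSpace Ω] [BorelSpace Ω]
    {G : N → N} (hG : Function.Injective G) {μ : Measure N} [IsProbabilityMeasure μ]
    (hμ : MeasurePreserving G μ μ) {R : Ω ≃ₜ Ω} {X : Ω → N} (hX : Continuous X)
    (hXi : Function.Injective X) (hXc : ∀ w, G (X w) = X (R w)) (hr : μ (range X)ᶜ = 0) :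
    (∀ Y : Set Ω, G ⁻¹' (X '' Y) = X '' (R ⁻¹' Y)) ∧
    ∃ m : Measure Ω, IsProbabilityMeasure m ∧ MeasurePreserving R m m ∧ m.map X = μ := by
  have hemb : MeasurableEmbedding X := (hX.isClosedEmbedding hXi).measurableEmbedding
  have hmap : (μ.comap X).map X = μ := by
    rw [hemb.map_comap]
    exact Measure.restrict_eq_self_of_ae_mem (by rw [ae_iff]; exact hr)
  have hval : ∀ S : Set Ω, μ.comap X S = μ (X '' S) := fun S => hemb.comap_apply μ S
  have himg : ∀ S : Set Ω, G ⁻¹' (X '' S) = X '' (R ⁻¹' S) := by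
    intro S
    ext y
    constructor
    · rintro ⟨w, hw, hwy⟩
      obtain ⟨w', rfl⟩ := R.surjective w
      refine ⟨w', hw, hG ?_⟩
      rw [hXc, hwy]
    · rintro ⟨w, hw, rfl⟩
      exact ⟨R w, hw, (hXc w).symm⟩
  refine ⟨himg, μ.comap X, ⟨?_⟩, ⟨R.continuous.measurable, ?_⟩, hmap⟩
  · rw [hval, image_univ]
    have h1 : μ univ = 1 := measure_univ
    rw [← h1]
    exact measure_congr (ae_eq_univ.2 hr)
  · ext S hS
    rw [Measure.map_apply R.continuous.measurable hS, hval, hval, ← himg]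
    exact hμ.measure_preimage (hemb.measurableSet_image.2 hS).nullMeasurableSet

/-- on each invariant set of positive measure the function `φ` has an invariant part of positive
measure with nonzero integral -/
def GP {N : Type u} [MeasurableSpace N] (G : N → N) (φ : N → ℝ) (μ : Measure N) : Prop :=
  ∀ Z : Set N, MeasurableSet Z → G ⁻¹' Z = Z → μ Z ≠ 0 → ∃ Z' ⊆ Z, MeasurableSet Z' ∧
    G ⁻¹' Z' = Z' ∧ μ Z' ≠ 0 ∧ ∫ x in Z', φ x ∂μ ≠ 0

theorem gp_ergodic {N : Type u} [MeasurableSpace N] {G : N → N} {φ : N → ℝ} {μ : Measure N}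
    [IsProbabilityMeasure μ] (h : GP G φ μ) (he : Ergodic G μ) : ∫ x, φ x ∂μ ≠ 0 := by
  obtain ⟨Z, -, hZ1, hZ2, hZ3, hZ4⟩ := h univ MeasurableSet.univ rfl (by
    rw [measure_univ]; exact one_ne_zero)
  rcases he.toPreErgodic.measure_self_or_compl_eq_zero hZ1 hZ2 with h1 | h1
  · exact absurd h1 hZ3
  · have h2 : μ.restrict Z = μ := Measure.restrict_eq_self_of_ae_mem (by rw [ae_iff]; exact h1)
    rwa [h2] at hZ4

theorem gp_avg {N : Type u} [MeasurableSpace N] {G : N → N} {φ : N → ℝ} {μ : Measure N}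
    [IsProbabilityMeasure μ] (h : GP G φ μ) (hμ : MeasurePreserving G μ μ) (hφ : Measurable φ)
    {L : ℝ} (hL : ∀ x, |φ x| ≤ L) :
    ∀ᵐ x ∂μ, ¬ Tendsto (fun n => birkhoffAverage ℝ G φ n x) atTop (𝓝 0) := by
  rw [ae_iff]
  simp only [not_not]
  by_contra hcon
  have hit : ∀ k : ℕ, Measurable fun x => φ (G^[k] x) := fun k =>
    hφ.comp (hμ.measurable.iterate k)
  have hav : ∀ n : ℕ, Measurable fun x => birkhoffAverage ℝ G φ n x := by
    intro n
    show Measurable fun x => (n : ℝ)⁻¹ * ∑ k ∈ Finset.range n, φ (G^[k] x)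
    exact (Finset.measurable_fun_sum _ fun k _ => hit k).const_mul _
  have hbd : Bornology.IsBounded (range φ) := by
    rw [isBounded_iff_forall_norm_le]
    refine ⟨L, ?_⟩
    rintro _ ⟨x, rfl⟩
    exact hL x
  have hL0 : 0 ≤ L := by
    obtain ⟨x, -⟩ := nonempty_of_measure_ne_zero hcon
    exact (abs_nonneg _).trans (hL x)
  have hav1 : ∀ (n : ℕ) (x : N), |birkhoffAverage ℝ G φ n x| ≤ L := by
    intro n x
    show |(n : ℝ)⁻¹ • birkhoffSum G φ n x| ≤ L
    rw [smul_eq_mul, abs_mul, abs_of_nonneg (by positivity : (0 : ℝ) ≤ (n : ℝ)⁻¹)]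
    have h1 : |birkhoffSum G φ n x| ≤ n * L := by
      refine (Finset.abs_sum_le_sum_abs _ _).trans ?_
      calc _ ≤ ∑ _k ∈ Finset.range n, L := Finset.sum_le_sum fun k _ => hL _
        _ = n * L := by rw [Finset.sum_const, Finset.card_range, nsmul_eq_mul]
    rcases Nat.eq_zero_or_pos n with h2 | h2
    · rw [h2]
      simpa using hL0
    · have h3 : (0 : ℝ) < n := by exact_mod_cast h2
      rw [inv_mul_le_iff₀ h3]
      exact h1
  have hms : MeasurableSet {x | Tendsto (fun n => birkhoffAverage ℝ G φ n x) atTop (𝓝 0)} :=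
    measurableSet_tendsto _ hav
  obtain ⟨Z, hZ, hZ1, hZ2, hZ3, hZ4⟩ := h _ hms (by
    ext x
    have h1 := tendsto_birkhoffAverage_apply_sub_birkhoffAverage' ℝ hbd G x
    constructor
    · intro hx
      have hx' : Tendsto (fun n => birkhoffAverage ℝ G φ n (G x)) atTop (𝓝 0) := hx
      have h2 := hx'.sub h1
      simp only [sub_sub_cancel, sub_zero] at h2
      exact h2
    · intro hx
      have hx' : Tendsto (fun n => birkhoffAverage ℝ G φ n x) atTop (𝓝 0) := hx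
      have h2 := h1.add hx'
      simp only [sub_add_cancel, add_zero] at h2
      exact h2) hcon
  have hμZ : MeasurePreserving G (μ.restrict Z) (μ.restrict Z) := by
    have := hμ.restrict_preimage hZ1
    rwa [hZ2] at this
  have hφi : Integrable φ (μ.restrict Z) :=
    Integrable.of_bound hφ.aestronglyMeasurable L (Eventually.of_forall hL)
  have hki : ∀ k : ℕ, Integrable (fun x => φ (G^[k] x)) (μ.restrict Z) := fun k =>
    (hμZ.iterate k).integrable_comp_of_integrable hφi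
  have hk : ∀ k : ℕ, ∫ x in Z, φ (G^[k] x) ∂μ = ∫ x in Z, φ x ∂μ := by
    intro k
    have h1 := (hμZ.iterate k).map_eq
    conv_rhs => rw [← h1]
    rw [integral_map (hμZ.iterate k).aemeasurable hφ.aestronglyMeasurable]
  have hn : ∀ n : ℕ, ∫ x in Z, birkhoffAverage ℝ G φ (n + 1) x ∂μ = ∫ x in Z, φ x ∂μ := by
    intro n
    show ∫ x in Z, ((n + 1 : ℕ) : ℝ)⁻¹ • birkhoffSum G φ (n + 1) x ∂μ = _
    rw [integral_smul]
    show ((n + 1 : ℕ) : ℝ)⁻¹ • ∫ x in Z, ∑ k ∈ Finset.range (n + 1), φ (G^[k] x) ∂μ = _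
    rw [integral_finsetSum _ fun k _ => hki k, Finset.sum_congr rfl fun k _ => hk k,
      Finset.sum_const, Finset.card_range, nsmul_eq_mul, smul_eq_mul, ← mul_assoc,
      inv_mul_cancel₀ (by positivity), one_mul]
  have hlim : Tendsto (fun n : ℕ => ∫ x in Z, birkhoffAverage ℝ G φ (n + 1) x ∂μ) atTop
      (𝓝 (∫ _x in Z, (0 : ℝ) ∂μ)) := by
    refine tendsto_integral_of_dominated_convergence (fun _ => L)
      (fun n => (hav (n + 1)).aestronglyMeasurable) (integrable_const _)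
      (fun n => Eventually.of_forall fun x => hav1 (n + 1) x) ?_
    rw [ae_restrict_iff' hZ1]
    exact Eventually.of_forall fun x hx => (tendsto_add_atTop_iff_nat 1).2 (hZ hx)
  simp only [hn, integral_zero] at hlim
  exact hZ4 (tendsto_nhds_unique tendsto_const_nhds hlim)

end Pool.Agent.V5helper25.EX

namespace Pool.Agent.V5helper25.TG.DG

open Pool.Agent.TH80.OMS Pool.Agent.N813.CX Pool.Agent.N813.CX.CLOS Pool.Agent.V5helper25.TK
  Pool.Agent.V5helper25.TG Pool.Agent.V5helper25.EX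

variable {N : Type u} [MetricSpace N] [CompactSpace N] {B : Type v} [MetricSpace B] {F : N ≃ₜ N}
  {ψ : ℝ → N → N} {a : N → ℝ → ℝ} {π : N → B} {f : B → B} {θ₀ : ℝ} {S : N → ℝ → ℝ} {e : ℝ}
  {Ω : Type u} [MetricSpace Ω] [CompactSpace Ω] {R : Ω ≃ₜ Ω} {Φ : Pm θ₀ → C(Ω, N)}

variable (h : DG F ψ a π f θ₀ S e R Φ) {s₀ sm sp : Pm θ₀} {ρ ρ₁ δa : ℝ} {αm αp : Ω → ℝ}
  (l : Loc ψ a Φ s₀ sm sp ρ ρ₁ δa αm αp)

include h l

/-- the slopes -/
theorem slopes [MeasurableSpace B] [BorelSpace B] {E : Set ℝ}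
    (hEt : ∀ s : Pm θ₀, (s : ℝ) ∉ E → Typ Φ s) (ν : Measure B) [IsFiniteMeasure ν] :
    ∀ᵐ s : ℝ, s ∈ Ioo (sm : ℝ) sp → s ∉ E → ∃ (τ : ℝ → Ω → ℝ) (κ ε : ℝ), 0 < κ ∧ 0 < ε ∧
      (∀ s' ∈ Ioo (sm : ℝ) sp, s' ∉ E → Can F ψ a R Φ s₀ ρ s' (τ s')) ∧
      ∀ s' ∈ Ioo (sm : ℝ) sp, s' ∉ E → s < s' → s' < s + ε →
        ∀ [MeasurableSpace Ω] [BorelSpace Ω] (m : Measure Ω), IsFiniteMeasure m →
          m.map (fun w => π (Φ s₀ w)) = ν → ∫ w, |τ s' w - τ s w| ∂m ≤ κ * (s' - s) := by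
  set D : Set ℝ := Ioo (sm : ℝ) sp \ E with hD
  obtain ⟨C, hC⟩ := h.bounded fun ε hε => (l.typ ε hε).1
  set g : Ω → B := fun w => π (Φ s₀ w) with hgd
  have hg : Continuous g := h.orb.cont.comp (Φ s₀).continuous
  have hfin : ∀ y, {w | g w = y}.Finite := fun y => (hC y).1
  have hCn : ∀ y, {w | g w = y}.ncard ≤ C := fun y => (hC y).2
  have hex : ∀ s : ℝ, ∃ τ : Ω → ℝ, s ∈ D → Can F ψ a R Φ s₀ ρ s τ := by
    intro s
    by_cases hs : s ∈ D
    · have hsθ : |s| < θ₀ := by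
        have := h.win l hs.1.1 hs.1.2
        have hρ₁ : 0 < ρ₁ := l.ρpos.trans_le l.ρ1
        linarith
      obtain ⟨τ, hτ⟩ := h.exCan l (s := ⟨s, hsθ⟩) (hEt ⟨s, hsθ⟩ hs.2) hs.1.1 hs.1.2
      exact ⟨τ, fun _ => hτ⟩
    · exact ⟨fun _ => 0, fun hh => absurd hh hs⟩
  choose τ hτ using hex
  obtain ⟨hclo, hinv⟩ := h.up_clopen l
  classical
  set w : ℝ → Ω → ℝ := fun s x => ρ + (if 0 ≤ αp x then τ s x else -τ s x) with hw
  have hwc : ∀ s ∈ D, Continuous (w s) := by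
    intro s hs
    refine continuous_const.add ?_
    refine continuous_if ?_ (hτ s hs).cont.continuousOn (hτ s hs).cont.neg.continuousOn
    intro x hx
    rw [hclo.frontier_eq] at hx
    exact absurd hx (Set.notMem_empty x)
  have hw0 : ∀ s ∈ D, ∀ x, 0 ≤ w s x := by
    intro s hs x
    have := abs_le.1 ((hτ s hs).small x)
    show 0 ≤ ρ + (if 0 ≤ αp x then τ s x else -τ s x)
    split_ifs <;> linarith
  have hwd : ∀ s ∈ D, ∀ s' ∈ D, s < s' → ∀ x, w s' x - w s x = |τ s' x - τ s x| ∧ 0 < w s' x - w s x := by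
    intro s hs s' hs' hss x
    have h1 := h.mono_all l hss hs.1.1 hs'.1.2 (hτ s hs) (hτ s' hs') x
    show (ρ + (if 0 ≤ αp x then τ s' x else -τ s' x)) -
      (ρ + (if 0 ≤ αp x then τ s x else -τ s x)) = _ ∧ 0 < (ρ + (if 0 ≤ αp x then τ s' x else -τ s' x)) -
      (ρ + (if 0 ≤ αp x then τ s x else -τ s x))
    by_cases hx : 0 ≤ αp x
    · have h2 := h1.1 hx
      rw [if_pos hx, if_pos hx, abs_of_pos (by linarith)]
      constructor
      · ring
      · linarith
    · have h2 := h1.2 (not_le.1 hx)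
      rw [if_neg hx, if_neg hx, abs_of_neg (by linarith)]
      constructor
      · ring
      · linarith
  set W : ℝ → ℝ := fun s => ∫ y, Gs hfin (w s) y ∂ν with hW
  have hWint : ∀ s ∈ D, Integrable (Gs hfin (w s)) ν := fun s hs =>
    Gs_int hg hfin hCn (hwc s hs) (hw0 s hs) ν
  have hGle : ∀ s ∈ D, ∀ s' ∈ D, s < s' → ∀ y, Gs hfin (w s) y ≤ Gs hfin (w s') y := by
    intro s hs s' hs' hss y
    refine Finset.sum_le_sum fun x _ => ?_
    have := (hwd s hs s' hs' hss x).2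
    linarith
  have hmono : MonotoneOn W D := by
    intro s hs s' hs' hss
    rcases hss.eq_or_lt with h1 | h1
    · rw [h1]
    · exact integral_mono (hWint s hs) (hWint s' hs') (hGle s hs s' hs' h1)
  filter_upwards [hmono.ae_differentiableWithinAt_of_mem] with s hs hs1 hs2
  have hsD : s ∈ D := ⟨hs1, hs2⟩
  obtain ⟨W', hW'⟩ : ∃ W', HasDerivWithinAt W W' D s := ⟨_, (hs hsD).hasDerivWithinAt⟩
  have h1 := hasDerivWithinAt_iff_tendsto_slope.1 hW'
  have h2 : ∀ᶠ s' in 𝓝[D \ {s}] s, slope W s s' < |W'| + 1 :=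
    h1.eventually_lt_const (lt_of_le_of_lt (le_abs_self W') (lt_add_one _))
  obtain ⟨ε, hε, H⟩ := Metric.mem_nhdsWithin_iff.1 h2
  refine ⟨τ, |W'| + 1, ε, by positivity, hε, fun s' hs' hs'' => hτ s' ⟨hs', hs''⟩, ?_⟩
  intro s' hs'1 hs'2 hlt hlt' _ _ m hm hmν
  have hs'D : s' ∈ D := ⟨hs'1, hs'2⟩
  have h3 : slope W s s' < |W'| + 1 := H ⟨by
    rw [mem_ball, Real.dist_eq, abs_of_pos (by linarith)]
    linarith, hs'D, fun hh => by
      rw [mem_singleton_iff] at hh
      linarith⟩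
  rw [slope_def_field, div_lt_iff₀ (by linarith)] at h3
  refine le_trans ?_ h3.le
  have e1 : ∫ x, |τ s' x - τ s x| ∂m = ∫ x, (w s' x - w s x) ∂m := by
    congr 1
    funext x
    exact ((hwd s hsD s' hs'D hlt x).1).symm
  have e2 : Gs hfin (fun x => w s' x - w s x) = fun y => Gs hfin (w s') y - Gs hfin (w s) y := by
    funext y
    exact Finset.sum_sub_distrib _ _
  have e3 : ∫ y, Gs hfin (fun x => w s' x - w s x) y ∂ν = W s' - W s := by
    rw [e2]
    exact integral_sub (hWint s' hs'D) (hWint s hsD)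
  rw [e1, ← e3, ← hmν]
  exact int_le_Gs hg hfin hCn ((hwc s' hs'D).sub (hwc s hsD))
    (fun x => (hwd s hsD s' hs'D hlt x).2.le) m

/-- **The exponents of the measures, near a typical parameter.** -/
theorem loc_ae [MeasurableSpace B] [BorelSpace B] [MeasurableSpace N] [BorelSpace N]
    [MeasurableSpace Ω] [BorelSpace Ω] {A : N → ℝ} (hAc : Continuous A) (hA0 : ∀ y, 0 < A y)
    (hA : ∀ y, HasDerivAt (a y) (A y) 0) {E : Set ℝ} (hE : E.Countable)
    (hEt : ∀ s : Pm θ₀, (s : ℝ) ∉ E → Typ Φ s)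
    (hom : ∀ s, |s| < θ₀ → Omega (Rt F ψ s) ⊆ closure (Per (Rt F ψ s))) (ν : Measure B)
    [IsFiniteMeasure ν] :
    ∀ᵐ s : ℝ, s ∈ Ioo (sm : ℝ) sp → ∀ μ : Measure N, IsProbabilityMeasure μ →
      MeasurePreserving (Rt F ψ s) μ μ → μ.map π = ν →
        GP (Rt F ψ s) (fun x => Real.log (A x)) μ := by
  have hEae : ∀ᵐ s : ℝ, s ∉ E := hE.ae_notMem _
  filter_upwards [h.slopes l hEt ν, hEae] with s hs hsE hs1 μ hμp hμe hμν
  obtain ⟨τ, κ, ε, hκ, hε, hτ, H⟩ := hs hs1 hsE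
  have hsθ : |s| < θ₀ := by
    have := h.win l hs1.1 hs1.2
    have hρ₁ : 0 < ρ₁ := l.ρpos.trans_le l.ρ1
    linarith
  have c := hτ s hs1 hsE
  have hX : Continuous fun w => ψ (τ s w) (Φ s₀ w) :=
    h.top.cont.comp (c.cont.prodMk (Φ s₀).continuous)
  have hXi := h.can_inj l c
  -- the sequence
  have hdense : Dense Eᶜ := hE.dense_compl ℝ
  obtain ⟨σ, hσ, hσm, hσt⟩ := hdense.exists_seq_strictAnti_tendsto_of_lt (x := s)
    (y := min (s + ε) sp) (lt_min (by linarith) hs1.2)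
  have k1 : ∀ k, s < σ k := fun k => (hσm k).1.1
  have k2 : ∀ k, σ k < s + ε := fun k => (hσm k).1.2.trans_le (min_le_left _ _)
  have k3 : ∀ k, σ k < sp := fun k => (hσm k).1.2.trans_le (min_le_right _ _)
  have k4 : ∀ k, σ k ∈ Ioo (sm : ℝ) sp := fun k => ⟨hs1.1.trans (k1 k), k3 k⟩
  have k5 : ∀ k, σ k ∉ E := fun k => (hσm k).2
  -- the measure
  have hr : μ (range fun w => ψ (τ s w) (Φ s₀ w))ᶜ = 0 := by
    refine measure_mono_null ?_ (omega_null hμe)
    rw [compl_subset_compl]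
    refine (hom s hsθ).trans (closure_minimal ?_ (isCompact_range hX).isClosed)
    intro q hq
    obtain ⟨w, -, hw⟩ := h.can_rng l hs1.1 hs1.2 c hq
    exact ⟨w, hw⟩
  obtain ⟨himg, m, hm1, hm2, hm3⟩ := pull (Rt_inj h.top s) hμe (R := R) hX hXi
    (fun w => h.can_conj l c w) hr
  have hmν : m.map (fun w => π (Φ s₀ w)) = ν := by
    rw [← hμν, ← hm3, Measure.map_map h.orb.cont.measurable hX.measurable]
    congr 1
    funext w
    show π (Φ s₀ w) = π (ψ (τ s w) (Φ s₀ w))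
    rw [pi_psi h.orb]
  have hemb : MeasurableEmbedding fun w => ψ (τ s w) (Φ s₀ w) :=
    (hX.isClosedEmbedding hXi).measurableEmbedding
  intro Z hZ hZG hZμ
  -- the invariant part
  set Y : Set Ω := (fun w => ψ (τ s w) (Φ s₀ w)) ⁻¹' Z with hY
  have hYm : MeasurableSet Y := hX.measurable hZ
  have hYR : ∀ w, R w ∈ Y ↔ w ∈ Y := by
    intro w
    show ψ (τ s (R w)) (Φ s₀ (R w)) ∈ Z ↔ ψ (τ s w) (Φ s₀ w) ∈ Z
    rw [← h.can_conj l c w]
    exact Set.ext_iff.1 hZG _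
  have hYμ : m Y ≠ 0 := by
    have : μ Z = m Y := by
      rw [← hm3, Measure.map_apply hX.measurable hZ]
    rwa [← this]
  obtain ⟨U, hUm, hUR, hU⟩ : ∃ U : Set Ω, MeasurableSet U ∧ (∀ w, R w ∈ U ↔ w ∈ U) ∧
      m (Y ∩ U) ≠ 0 ∧ (U = {w | 0 ≤ αp w} ∨ U = {w | 0 ≤ αp w}ᶜ) := by
    have hup := h.up_clopen l
    by_cases h1 : m (Y ∩ {w | 0 ≤ αp w}) = 0
    · refine ⟨{w | 0 ≤ αp w}ᶜ, hup.1.1.measurableSet.compl, fun w => not_congr (hup.2 w), ?_,
        Or.inr rfl⟩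
      intro h2
      apply hYμ
      rw [← inter_union_compl Y {w | 0 ≤ αp w}]
      exact measure_union_null h1 h2
    · exact ⟨_, hup.1.1.measurableSet, hup.2, h1, Or.inl rfl⟩
  set Y' : Set Ω := Y ∩ U with hY'
  have hY'm : MeasurableSet Y' := hYm.inter hUm
  have hY'R : R ⁻¹' Y' = Y' := by
    ext w
    exact and_congr (hYR w) (hUR w)
  have hY'c : m Y' ≠ 0 := hU.1
  -- the conditional measure
  have hp : IsProbabilityMeasure (ProbabilityTheory.cond m Y') :=
    ProbabilityTheory.cond_isProbabilityMeasure hY'c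
  have hcR : MeasurePreserving R (ProbabilityTheory.cond m Y') (ProbabilityTheory.cond m Y') := by
    have h1 : MeasurePreserving R (m.restrict Y') (m.restrict Y') := by
      have := hm2.restrict_preimage hY'm
      rwa [hY'R] at this
    exact h1.smul_measure _
  set q : ℝ := (m Y')⁻¹.toReal with hq
  have hq0 : 0 < q := ENNReal.toReal_pos (ENNReal.inv_ne_zero.2 (measure_ne_top m _))
    (ENNReal.inv_ne_top.2 hY'c)
  have hcint : ∀ u : Ω → ℝ, ∫ w, u w ∂(ProbabilityTheory.cond m Y') =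
      q * ∫ w in Y', u w ∂m := by
    intro u
    show ∫ w, u w ∂((m Y')⁻¹ • m.restrict Y') = _
    rw [integral_smul_measure, smul_eq_mul]
  have hlim := h.limit_exp l hAc hA0 hA hs1.1 c hσ k1 k3 hσt (T := fun k => τ (σ k))
    (fun k => hτ _ (k4 k) (k5 k)) hcR (κ := q * κ) (mul_pos hq0 hκ) (fun k => by
      have h1 := H _ (k4 k) (k5 k) (k1 k) (k2 k) m inferInstance hmν
      have h2 : ∫ w in Y', |τ (σ k) w - τ s w| ∂m ≤ ∫ w, |τ (σ k) w - τ s w| ∂m :=
        setIntegral_le_integral (int_c ((hτ _ (k4 k) (k5 k)).cont.sub c.cont).abs)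
          (Eventually.of_forall fun w => abs_nonneg _)
      rw [hcint, mul_assoc]
      exact mul_le_mul_of_nonneg_left (h2.trans h1) hq0.le)
  have hne : ∫ w in Y', Real.log (A (ψ (τ s w) (Φ s₀ w))) ∂m ≠ 0 := by
    intro h0
    have h1 := hcint fun w => Real.log (A (ψ (τ s w) (Φ s₀ w)))
    rw [h0, mul_zero] at h1
    rcases hU.2 with h2 | h2
    · refine (hlim.1 ?_).ne h1
      rw [ProbabilityTheory.cond_apply hY'm, ← h2]
      have : Y' ∩ Uᶜ = ∅ := by
        rw [hY', inter_assoc, inter_compl_self, inter_empty]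
      rw [this, measure_empty, mul_zero]
    · refine (hlim.2 ?_).ne' h1
      rw [ProbabilityTheory.cond_apply hY'm]
      have h3 : {w | 0 ≤ αp w} = Uᶜ := by rw [h2, compl_compl]
      have : Y' ∩ Uᶜ = ∅ := by
        rw [hY', inter_assoc, inter_compl_self, inter_empty]
      rw [h3, this, measure_empty, mul_zero]
  refine ⟨(fun w => ψ (τ s w) (Φ s₀ w)) '' Y', ?_, hemb.measurableSet_image.2 hY'm, ?_, ?_, ?_⟩
  · rintro _ ⟨w, hw, rfl⟩
    exact hw.1
  · rw [himg, hY'R]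
  · rw [← hm3, Measure.map_apply hX.measurable (hemb.measurableSet_image.2 hY'm),
      preimage_image_eq _ hXi]
    exact hY'c
  · have h1 : ∫ x in (fun w => ψ (τ s w) (Φ s₀ w)) '' Y', Real.log (A x) ∂μ =
        ∫ w in Y', Real.log (A (ψ (τ s w) (Φ s₀ w))) ∂m := by
      rw [← hm3, hemb.setIntegral_map, preimage_image_eq _ hXi]
    rw [h1]
    exact hne

end Pool.Agent.V5helper25.TG.DG
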