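import Pool.Agent.V5helper25.TG.Main

/-!
# MP_4a0782, circle extensions: the exponents of the periodic points
-/

set_option autoImplicit false
set_option linter.unusedSectionVars false

open scoped Topology
open MeasureTheory Filter Set Metric

universe u v

namespace Pool.Agent.V5helper25.EX

open Pool.Agent.TH80.OMS Pool.Agent.N813.CX Pool.Agent.V5helper25.TK Pool.Agent.V5helper25.TG

theorem shift_sum {L : ℕ} {g : ℕ → ℝ} (h : g L = g 0) :
    ∑ i ∈ Finset.range L, g (i + 1) = ∑ i ∈ Finset.range L, g i := by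
  have h1 := Finset.sum_range_sub g L
  rw [Finset.sum_sub_distrib, h, sub_self] at h1
  linarith

theorem titu {L : ℕ} {g : ℕ → ℝ} (hg : ∀ i, 0 < g i) :
    (L : ℝ) ^ 2 / ∑ i ∈ Finset.range L, g i ≤ ∑ i ∈ Finset.range L, 1 / g i := by
  have h1 := Finset.sq_sum_div_le_sum_sq_div (Finset.range L) (fun _ => (1 : ℝ)) (g := g)
    fun i _ => hg i
  simpa using h1

theorem sum_pos' {L : ℕ} (hL : 1 ≤ L) {g : ℕ → ℝ} (hg : ∀ i, 0 < g i) :
    0 < ∑ i ∈ Finset.range L, g i :=
  Finset.sum_pos (fun i _ => hg i) ⟨0, Finset.mem_range.2 hL⟩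

/-- periodic affine recursions, positive case -/
theorem rec_pos {L : ℕ} (hL : 1 ≤ L) {t r : ℕ → ℝ} {δ : ℝ} (hδ : 0 < δ) (ht : ∀ i, 0 < t i)
    (hr : ∀ i, 0 < r i) (hrec : ∀ i, t (i + 1) = r i * t i + δ) (hp : t L = t 0) :
    (L : ℝ) * δ * (L : ℝ) ≤ -(∑ i ∈ Finset.range L, Real.log (r i)) *
      ∑ i ∈ Finset.range L, t i := by
  have h1 : ∀ i, Real.log (r i) ≤ (Real.log (t (i + 1)) - Real.log (t i)) - δ * (1 / t (i + 1)) := by
    intro i
    have e1 : r i = (t (i + 1) - δ) / t (i + 1) * t (i + 1) / t i := by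
      rw [hrec]
      have := (ht i).ne'
      have h2 : r i * t i + δ ≠ 0 := by
        have := mul_pos (hr i) (ht i)
        linarith
      field_simp
      ring
    have p1 : 0 < (t (i + 1) - δ) / t (i + 1) := by
      refine div_pos ?_ (ht _)
      rw [hrec]
      have := mul_pos (hr i) (ht i)
      linarith
    have p2 := ht (i + 1)
    rw [e1, Real.log_div (by positivity) (ht i).ne', Real.log_mul p1.ne' p2.ne']
    have h3 := Real.log_le_sub_one_of_pos p1
    have h4 : (t (i + 1) - δ) / t (i + 1) - 1 = -(δ * (1 / t (i + 1))) := by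
      field_simp
      ring
    linarith
  have h2 : ∑ i ∈ Finset.range L, Real.log (r i) ≤
      -(δ * ∑ i ∈ Finset.range L, 1 / t i) := by
    refine (Finset.sum_le_sum fun i _ => h1 i).trans (le_of_eq ?_)
    rw [Finset.sum_sub_distrib, Finset.sum_range_sub (fun i => Real.log (t i)), hp, sub_self,
      zero_sub, ← Finset.mul_sum, shift_sum (g := fun i => 1 / t i) (by simp only [hp])]
  have h3 := titu (L := L) ht
  have h4 := sum_pos' hL ht
  have h5 : δ * ((L : ℝ) ^ 2 / ∑ i ∈ Finset.range L, t i) ≤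
      -(∑ i ∈ Finset.range L, Real.log (r i)) := by
    have := mul_le_mul_of_nonneg_left h3 hδ.le
    linarith
  have h6 := mul_le_mul_of_nonneg_right h5 h4.le
  refine le_trans (le_of_eq ?_) h6
  field_simp

/-- periodic affine recursions, negative case -/
theorem rec_neg {L : ℕ} (hL : 1 ≤ L) {t r : ℕ → ℝ} {δ : ℝ} (hδ : 0 < δ) (ht : ∀ i, 0 < t i)
    (hrec : ∀ i, t (i + 1) = r i * t i - δ) (hp : t L = t 0) :
    (L : ℝ) * δ * (L : ℝ) ≤ (∑ i ∈ Finset.range L, Real.log (r i)) *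
      (L * δ + ∑ i ∈ Finset.range L, t i) := by
  have h1 : ∀ i, (Real.log (t (i + 1)) - Real.log (t i)) + δ * (1 / (t (i + 1) + δ)) ≤
      Real.log (r i) := by
    intro i
    have p1 := ht i
    have p2 := ht (i + 1)
    have p3 : 0 < t (i + 1) + δ := by linarith
    have e1 : r i = (t (i + 1) + δ) / t i := by
      rw [hrec]
      field_simp
      ring
    rw [e1, Real.log_div p3.ne' p1.ne']
    have h3 := Real.log_le_sub_one_of_pos (div_pos p2 p3)
    rw [Real.log_div p2.ne' p3.ne'] at h3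
    have h4 : t (i + 1) / (t (i + 1) + δ) - 1 = -(δ * (1 / (t (i + 1) + δ))) := by
      field_simp
      ring
    linarith
  have h2 : δ * ∑ i ∈ Finset.range L, 1 / (t i + δ) ≤
      ∑ i ∈ Finset.range L, Real.log (r i) := by
    refine le_trans (le_of_eq ?_) (Finset.sum_le_sum fun i _ => h1 i)
    rw [Finset.sum_add_distrib, Finset.sum_range_sub (fun i => Real.log (t i)), hp, sub_self,
      zero_add, ← Finset.mul_sum, shift_sum (g := fun i => 1 / (t i + δ)) (by simp only [hp])]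
  have ht' : ∀ i, 0 < t i + δ := fun i => by have := ht i; linarith
  have h3 := titu (L := L) ht'
  have h4 := sum_pos' hL ht'
  have h5 : δ * ((L : ℝ) ^ 2 / ∑ i ∈ Finset.range L, (t i + δ)) ≤
      ∑ i ∈ Finset.range L, Real.log (r i) := by
    have := mul_le_mul_of_nonneg_left h3 hδ.le
    linarith
  have h6 := mul_le_mul_of_nonneg_right h5 h4.le
  have h7 : ∑ i ∈ Finset.range L, (t i + δ) = L * δ + ∑ i ∈ Finset.range L, t i := by
    rw [Finset.sum_add_distrib, Finset.sum_const, Finset.card_range, nsmul_eq_mul]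
    ring
  rw [h7] at h6 h4
  refine le_trans (le_of_eq ?_) h6
  field_simp

section

variable {N : Type u} {F : N → N} {ψ : ℝ → N → N} {a : N → ℝ → ℝ} {θ₀ : ℝ} {P : N → Prop}
  {S : N → ℝ → ℝ}

/-- the setting: an extension by circle homeomorphisms, and the functions of the periodic fibres (the
fibres of the points with the property `P`) -/
structure DE [TopologicalSpace N] (F : N → N) (ψ : ℝ → N → N) (a : N → ℝ → ℝ) (θ₀ : ℝ)
    (P : N → Prop) (S : N → ℝ → ℝ) : Prop where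
  top : TopExt F ψ a
  pos : 0 < θ₀
  Ppsi : ∀ v t, P v → P (ψ t v)
  PF : ∀ v, P v → P (F v)
  sf : ∀ v, P v → SF (S v) θ₀
  per : ∀ v, P v → ∀ s, |s| < θ₀ → ∀ t, (ψ t v ∈ Per (Rt F ψ s) ↔ S v t = s)

/-- the places in the fibre of `v` which are periodic for a parameter below `s` -/
def X (F : N → N) (ψ : ℝ → N → N) (θ₀ : ℝ) (v : N) (s : ℝ) : Set ℝ :=
  {t | ∃ σ : ℝ, |σ| < θ₀ ∧ σ < s ∧ ψ t v ∈ Per (Rt F ψ σ)}

/-- the length of this set -/
noncomputable def Vf (F : N → N) (ψ : ℝ → N → N) (θ₀ : ℝ) (v : N) (s : ℝ) : ℝ :=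
  ∫ t in (0 : ℝ)..1, (X F ψ θ₀ v s).indicator (fun _ => (1 : ℝ)) t

/-- `t` is the first place, to the right or to the left, at which the level `s + δ` is attained -/
def W (S : N → ℝ → ℝ) (v : N) (s δ t : ℝ) : Prop :=
  t ≠ 0 ∧ S v t = s + δ ∧ ∀ u, (0 < u ∧ u < t) ∨ (t < u ∧ u < 0) → s < S v u ∧ S v u < s + δ

namespace DE

variable [TopologicalSpace N] (h : DE F ψ a θ₀ P S)

include h

theorem X_eq {v : N} (hv : P v) (s : ℝ) : X F ψ θ₀ v s = {t | |S v t| < θ₀ ∧ S v t < s} := by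
  ext t
  constructor
  · rintro ⟨σ, h1, h2, h3⟩
    have h4 := (h.per v hv σ h1 t).1 h3
    exact ⟨by rw [h4]; exact h1, by rw [h4]; exact h2⟩
  · rintro ⟨h1, h2⟩
    exact ⟨S v t, h1, h2, (h.per v hv _ h1 t).2 rfl⟩

theorem X_open {v : N} (hv : P v) (s : ℝ) : IsOpen (X F ψ θ₀ v s) := by
  rw [h.X_eq hv]
  exact (isOpen_lt (h.sf v hv).cont.abs continuous_const).inter
    (isOpen_lt (h.sf v hv).cont continuous_const)

theorem X_per (v : N) (s : ℝ) :
    Function.Periodic ((X F ψ θ₀ v s).indicator (fun _ => (1 : ℝ))) 1 := by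
  intro t
  have h1 : ψ (t + 1) v = ψ t v := by
    rw [h.top.add, (h.top.free v 1).2 ⟨1, by simp⟩]
  have h2 : t + 1 ∈ X F ψ θ₀ v s ↔ t ∈ X F ψ θ₀ v s := by
    simp only [X, mem_ofPred_eq, h1]
  by_cases h3 : t ∈ X F ψ θ₀ v s
  · rw [indicator_of_mem h3, indicator_of_mem (h2.2 h3)]
  · rw [indicator_of_notMem h3, indicator_of_notMem fun h4 => h3 (h2.1 h4)]

theorem V_int {v : N} (hv : P v) (s x y : ℝ) :
    IntervalIntegrable ((X F ψ θ₀ v s).indicator (fun _ => (1 : ℝ))) volume x y := by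
  rw [intervalIntegrable_iff]
  exact (integrableOn_const (by simp) (by simp)).indicator (h.X_open hv s).measurableSet

theorem V_eq (v : N) (s c : ℝ) :
    Vf F ψ θ₀ v s = ∫ t in c..c + 1, (X F ψ θ₀ v s).indicator (fun _ => (1 : ℝ)) t := by
  have h1 := (h.X_per v s).intervalIntegral_add_eq 0 c
  rw [zero_add] at h1
  exact h1

theorem V_shift (v : N) (s τ : ℝ) : Vf F ψ θ₀ (ψ τ v) s = Vf F ψ θ₀ v s := by
  rw [h.V_eq v s τ, Vf]
  have h1 : ∀ t, (X F ψ θ₀ (ψ τ v) s).indicator (fun _ => (1 : ℝ)) t =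
      (X F ψ θ₀ v s).indicator (fun _ => (1 : ℝ)) (t + τ) := by
    intro t
    have h2 : t ∈ X F ψ θ₀ (ψ τ v) s ↔ t + τ ∈ X F ψ θ₀ v s := by
      simp only [X, mem_ofPred_eq, h.top.add]
    by_cases h3 : t ∈ X F ψ θ₀ (ψ τ v) s
    · rw [indicator_of_mem h3, indicator_of_mem (h2.1 h3)]
    · rw [indicator_of_notMem h3, indicator_of_notMem fun h4 => h3 (h2.2 h4)]
  simp only [h1]
  rw [intervalIntegral.integral_comp_add_right
    (fun t => (X F ψ θ₀ v s).indicator (fun _ => (1 : ℝ)) t), zero_add, add_comm 1 τ]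

theorem V_mono {v : N} (hv : P v) : Monotone (Vf F ψ θ₀ v) := by
  intro s s' hs
  refine intervalIntegral.integral_mono_on zero_le_one (h.V_int hv s 0 1) (h.V_int hv s' 0 1)
    fun t _ => ?_
  refine indicator_le_indicator_of_subset ?_ (fun _ => zero_le_one) t
  rintro u ⟨σ, h1, h2, h3⟩
  exact ⟨σ, h1, h2.trans_le hs, h3⟩

theorem V_nonneg (v : N) (s : ℝ) : 0 ≤ Vf F ψ θ₀ v s :=
  intervalIntegral.integral_nonneg zero_le_one fun t _ =>
    indicator_nonneg (fun _ _ => zero_le_one) t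

theorem V_le {v : N} (hv : P v) (s : ℝ) : Vf F ψ θ₀ v s ≤ 1 := by
  have h1 : ∫ _ in (0 : ℝ)..1, (1 : ℝ) = 1 := by simp
  rw [← h1]
  refine intervalIntegral.integral_mono_on zero_le_one (h.V_int hv s 0 1) (by simp) fun t _ => ?_
  exact indicator_le_self' (fun _ _ => zero_le_one) t

/-- the length of the interval between the places of two levels -/
theorem V_inc {v : N} (hv : P v) {s δ t : ℝ} (hδ : 0 < δ) (h1 : -θ₀ < s) (h2 : s + δ < θ₀)
    (ht : W S v s δ t) (htb : |t| ≤ 1) : |t| ≤ Vf F ψ θ₀ v (s + δ) - Vf F ψ θ₀ v s := by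
  obtain ⟨ht0, ht1, ht2⟩ := ht
  have key : ∀ u, (0 < u ∧ u < t) ∨ (t < u ∧ u < 0) →
      (X F ψ θ₀ v (s + δ)).indicator (fun _ => (1 : ℝ)) u -
        (X F ψ θ₀ v s).indicator (fun _ => (1 : ℝ)) u = 1 := by
    intro u hu
    obtain ⟨a1, a2⟩ := ht2 u hu
    have b1 : u ∈ X F ψ θ₀ v (s + δ) := by
      rw [h.X_eq hv]
      exact ⟨by rw [abs_lt]; constructor <;> linarith, a2⟩
    have b2 : u ∉ X F ψ θ₀ v s := by
      rw [h.X_eq hv]
      rintro ⟨-, c2⟩
      linarith
    rw [indicator_of_mem b1, indicator_of_notMem b2, sub_zero]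
  have hnn : ∀ u, 0 ≤ (X F ψ θ₀ v (s + δ)).indicator (fun _ => (1 : ℝ)) u -
        (X F ψ θ₀ v s).indicator (fun _ => (1 : ℝ)) u := by
    intro u
    rw [sub_nonneg]
    refine indicator_le_indicator_of_subset ?_ (fun _ => zero_le_one) u
    rintro u ⟨σ, h1, h2, h3⟩
    exact ⟨σ, h1, by linarith, h3⟩
  have hi : ∀ x y : ℝ, IntervalIntegrable (fun u => (X F ψ θ₀ v (s + δ)).indicator
      (fun _ => (1 : ℝ)) u - (X F ψ θ₀ v s).indicator (fun _ => (1 : ℝ)) u) volume x y :=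
    fun x y => (h.V_int hv _ x y).sub (h.V_int hv _ x y)
  rcases lt_or_gt_of_ne ht0 with hneg | hpos
  · rw [abs_of_neg hneg] at htb ⊢
    rw [h.V_eq v _ (-1), h.V_eq v s (-1), ← intervalIntegral.integral_sub (h.V_int hv _ _ _)
      (h.V_int hv _ _ _), show (-1 : ℝ) + 1 = 0 by norm_num]
    rw [← intervalIntegral.integral_add_adjacent_intervals (hi (-1) t) (hi t 0)]
    have e1 := intervalIntegral.integral_nonneg (μ := volume) (show (-1 : ℝ) ≤ t by linarith)
      fun u _ => hnn u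
    have e2 : ∫ u in t..0, ((X F ψ θ₀ v (s + δ)).indicator (fun _ => (1 : ℝ)) u -
        (X F ψ θ₀ v s).indicator (fun _ => (1 : ℝ)) u) = ∫ _ in t..0, (1 : ℝ) := by
      refine intervalIntegral.integral_congr_uIoo fun u hu => ?_
      rw [uIoo_of_le hneg.le] at hu
      exact key u (Or.inr ⟨hu.1, hu.2⟩)
    rw [e2]
    simp only [intervalIntegral.integral_const, smul_eq_mul, mul_one]
    linarith
  · rw [abs_of_pos hpos] at htb ⊢
    rw [Vf, Vf, ← intervalIntegral.integral_sub (h.V_int hv _ _ _) (h.V_int hv _ _ _)]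
    rw [← intervalIntegral.integral_add_adjacent_intervals (hi 0 t) (hi t 1)]
    have e1 := intervalIntegral.integral_nonneg (μ := volume) (show t ≤ 1 by linarith)
      fun u _ => hnn u
    have e2 : ∫ u in (0 : ℝ)..t, ((X F ψ θ₀ v (s + δ)).indicator (fun _ => (1 : ℝ)) u -
        (X F ψ θ₀ v s).indicator (fun _ => (1 : ℝ)) u) = ∫ _ in (0 : ℝ)..t, (1 : ℝ) := by
      refine intervalIntegral.integral_congr_uIoo fun u hu => ?_
      rw [uIoo_of_le hpos.le] at hu
      exact key u (Or.inl ⟨hu.1, hu.2⟩)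
    rw [e2]
    simp only [intervalIntegral.integral_const, smul_eq_mul, mul_one]
    linarith

end DE

end

end Pool.Agent.V5helper25.EX
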