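import Pool.Agent.V5helper25.EX.Per

/-!
# MP_4a0782, circle extensions: the exponents of the periodic points, second part
-/

set_option autoImplicit false
set_option linter.unusedSectionVars false

open scoped Topology
open MeasureTheory Filter Set Metric

universe u v

namespace Pool.Agent.V5helper25.EX

open Pool.Agent.TH80.OMS Pool.Agent.N813.CX Pool.Agent.V5helper25.TK Pool.Agent.V5helper25.TG

theorem per_sum {k : ℕ} {g : ℕ → ℝ} (h : ∀ i, g (i + k) = g i) (m : ℕ) :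
    ∑ i ∈ Finset.range (m * k), g i = m * ∑ i ∈ Finset.range k, g i := by
  have h1 : ∀ m i, g (m * k + i) = g i := by
    intro m
    induction m with
    | zero => intro i; simp
    | succ m ih =>
      intro i
      rw [show (m + 1) * k + i = (m * k + i) + k by ring, h, ih]
  induction m with
  | zero => simp
  | succ m ih =>
    rw [show (m + 1) * k = m * k + k by ring, Finset.sum_range_add, ih]
    simp only [h1]
    push_cast
    ring

section

variable {N : Type u} {F : N → N} {ψ : ℝ → N → N} {a : N → ℝ → ℝ} {θ₀ : ℝ} {P : N → Prop}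
  {S : N → ℝ → ℝ}

namespace DE

variable [TopologicalSpace N] (h : DE F ψ a θ₀ P S)

include h

theorem W_ex {v : N} (hv : P v) {s δ : ℝ} (hδ : 0 < δ) (h1 : -θ₀ < s) (h2 : s + δ < θ₀)
    (h0 : S v 0 = s) : ∃ t, W S v s δ t := by
  have hsf := h.sf v hv
  obtain ⟨σ₁, a1, a2⟩ := exists_between h1
  obtain ⟨α, β, hα, hβ, hab, hends⟩ := hsf.comp (x := 0) (σ₁ := σ₁) (σ₂ := s + δ)
    (by rwa [h0]) (by rw [h0]; linarith) a1 h2
  have hb : ∀ u ∈ Icc α β, |S v u| < θ₀ := by
    intro u hu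
    rcases eq_or_lt_of_le hu.1 with he | he
    · rw [← he, abs_lt]
      rcases hends with h3 | h3 <;> rw [h3.1] <;> constructor <;> linarith
    · rcases eq_or_lt_of_le hu.2 with he' | he'
      · rw [he', abs_lt]
        rcases hends with h3 | h3 <;> rw [h3.2] <;> constructor <;> linarith
      · have h3 := hab u he he'
        rw [abs_lt]; constructor <;> linarith
  have hinj : ∀ x ∈ Icc α β, ∀ y ∈ Icc α β, S v x = S v y → x = y := fun x hx y hy he =>
    hsf.inj' he fun u hu => hb u (ordConnected_Icc.uIcc_subset hx hy hu)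
  rcases hends with ⟨e1, e2⟩ | ⟨e1, e2⟩
  · refine ⟨β, hβ.ne', e2, fun u hu => ?_⟩
    rcases hu with ⟨u1, u2⟩ | ⟨u1, u2⟩
    · refine ⟨?_, (hab u (by linarith) u2).2⟩
      by_contra hcon
      push Not at hcon
      obtain ⟨w, hw, hw'⟩ := intermediate_value_Icc u2.le hsf.cont.continuousOn
        (show s ∈ Icc (S v u) (S v β) from ⟨hcon, by rw [e2]; linarith⟩)
      have := hinj w ⟨by linarith [hw.1], hw.2⟩ 0 ⟨hα.le, hβ.le⟩ (by rw [hw', h0])
      linarith [hw.1]
    · linarith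
  · refine ⟨α, hα.ne, e1, fun u hu => ?_⟩
    rcases hu with ⟨u1, u2⟩ | ⟨u1, u2⟩
    · linarith
    · refine ⟨?_, (hab u u1 (by linarith)).2⟩
      by_contra hcon
      push Not at hcon
      obtain ⟨w, hw, hw'⟩ := intermediate_value_Icc' u1.le hsf.cont.continuousOn
        (show s ∈ Icc (S v u) (S v α) from ⟨hcon, by rw [e1]; linarith⟩)
      have := hinj w ⟨hw.1, by linarith [hw.2]⟩ 0 ⟨hα.le, hβ.le⟩ (by rw [hw', h0])
      linarith [hw.2]

theorem W_uniq {v : N} (hv : P v) {s δ t t' : ℝ} (hs : |s| < θ₀) (h0 : S v 0 = s)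
    (ht : W S v s δ t) (ht' : W S v s δ t') : t = t' := by
  have hsf := h.sf v hv
  have key : ∀ t t' : ℝ, W S v s δ t → W S v s δ t' → t < t' → False := by
    intro t t' ht ht' hlt
    rcases lt_or_gt_of_ne ht.1 with hn | hp
    · rcases lt_or_gt_of_ne ht'.1 with hn' | hp'
      · have := (ht.2.2 t' (Or.inr ⟨hlt, hn'⟩)).2
        rw [ht'.2.1] at this
        exact lt_irrefl _ this
      · refine hsf.ext 0 (by rwa [h0]) (Or.inl ?_)
        filter_upwards [Ioo_mem_nhds hn hp'] with u hu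
        rcases lt_trichotomy u 0 with h1 | h1 | h1
        · rw [h0]; exact (ht.2.2 u (Or.inr ⟨hu.1, h1⟩)).1.le
        · rw [h1]
        · rw [h0]; exact (ht'.2.2 u (Or.inl ⟨h1, hu.2⟩)).1.le
    · have := (ht'.2.2 t (Or.inl ⟨hp, hlt⟩)).2
      rw [ht.2.1] at this
      exact lt_irrefl _ this
  rcases lt_trichotomy t t' with h1 | h1 | h1
  · exact (key t t' ht ht' h1).elim
  · exact h1
  · exact (key t' t ht' ht h1).elim

theorem rel {p : N} (hp : P p) (s : ℝ) {x : ℝ} (hx : |S p x| < θ₀) :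
    S (Rt F ψ s p) (a p x + (S p x - s)) = S p x := by
  have h1 := (h.per p hp _ hx x).2 rfl
  have h2 : P (Rt F ψ s p) := h.Ppsi _ _ (h.PF _ hp)
  refine (h.per _ h2 _ hx _).1 ?_
  have h3 : ψ (a p x + (S p x - s)) (Rt F ψ s p) = Rt F ψ (S p x) (ψ x p) := by
    show ψ (a p x + (S p x - s)) (ψ s (F p)) = ψ (S p x) (F (ψ x p))
    rw [h.top.ext, ← h.top.add, ← h.top.add]
    congr 1
    ring
  rw [h3]
  obtain ⟨m, hm, hm'⟩ := h1
  exact ⟨m, hm, by rw [← Function.iterate_succ_apply, Function.iterate_succ_apply', hm']⟩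

theorem W_step {p : N} (hp : P p) {s δ t : ℝ} (hδ : 0 < δ) (h1 : -θ₀ < s) (h2 : s + δ < θ₀)
    (h0 : S p 0 = s) (ht : W S p s δ t) : W S (Rt F ψ s p) s δ (a p t + δ) := by
  have e0 := h.rel hp s (x := 0) (by rw [h0, abs_lt]; constructor <;> linarith)
  have e1 := h.rel hp s (x := t) (by rw [ht.2.1, abs_lt]; constructor <;> linarith)
  rw [h.top.azero, h0, sub_self, add_zero] at e0
  rw [ht.2.1, add_sub_cancel_left] at e1
  refine ⟨fun hh => ?_, e1, fun u hu => ?_⟩
  · rw [hh, e0] at e1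
    linarith
  · have hc : Continuous fun x => a p x + (S p x - s) :=
      (h.top.acont p).add ((h.sf p hp).cont.sub continuous_const)
    have g0 : a p 0 + (S p 0 - s) = 0 := by rw [h.top.azero, h0]; ring
    have g1 : a p t + (S p t - s) = a p t + δ := by rw [ht.2.1]; ring
    obtain ⟨x, hx, hx'⟩ := intermediate_value_uIcc (a := 0) (b := t) hc.continuousOn
      (show u ∈ uIcc (a p 0 + (S p 0 - s)) (a p t + (S p t - s)) by
        rw [g0, g1]
        rcases hu with h3 | h3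
        · exact mem_uIcc.2 (Or.inl ⟨h3.1.le, h3.2.le⟩)
        · exact mem_uIcc.2 (Or.inr ⟨h3.1.le, h3.2.le⟩))
    have hx' : a p x + (S p x - s) = u := hx'
    have x0 : x ≠ 0 := by
      rintro rfl
      rw [g0] at hx'
      rcases hu with h3 | h3
      · linarith
      · linarith
    have x1 : x ≠ t := by
      rintro rfl
      rw [g1] at hx'
      rcases hu with h3 | h3
      · linarith
      · linarith
    have hx2 : (0 < x ∧ x < t) ∨ (t < x ∧ x < 0) := by
      rcases mem_uIcc.1 hx with h3 | h3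
      · exact Or.inl ⟨lt_of_le_of_ne h3.1 (Ne.symm x0), lt_of_le_of_ne h3.2 x1⟩
      · exact Or.inr ⟨lt_of_le_of_ne h3.1 (Ne.symm x1), lt_of_le_of_ne h3.2 x0⟩
    have h3 := ht.2.2 x hx2
    have h4 := h.rel hp s (x := x) (by rw [abs_lt]; constructor <;> linarith [h3.1, h3.2])
    rw [hx'] at h4
    rw [h4]
    exact h3

omit h [TopologicalSpace N] in
theorem W_small (v : N) (s : ℝ) {ε : ℝ} (hε : 0 < ε) :
    ∃ δ₀ : ℝ, 0 < δ₀ ∧ ∀ δ t, δ < δ₀ → W S v s δ t → |t| < ε := by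
  have key : ∀ x : ℝ, ∃ δ₀ : ℝ, 0 < δ₀ ∧ ∀ δ, δ < δ₀ → ¬ (s < S v x ∧ S v x < s + δ) := by
    intro x
    by_cases hx : s < S v x
    · exact ⟨S v x - s, by linarith, fun δ hδ hh => by linarith [hh.2]⟩
    · exact ⟨1, one_pos, fun δ _ hh => hx hh.1⟩
  obtain ⟨d₁, hd₁, H₁⟩ := key (ε / 2)
  obtain ⟨d₂, hd₂, H₂⟩ := key (-(ε / 2))
  refine ⟨min d₁ d₂, lt_min hd₁ hd₂, fun δ t hδ ht => ?_⟩
  by_contra hcon
  push Not at hcon
  rcases lt_or_gt_of_ne ht.1 with h1 | h1
  · rw [abs_of_neg h1] at hcon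
    exact H₂ δ (hδ.trans_le (min_le_right _ _)) (ht.2.2 _ (Or.inr ⟨by linarith, by linarith⟩))
  · rw [abs_of_pos h1] at hcon
    exact H₁ δ (hδ.trans_le (min_le_left _ _)) (ht.2.2 _ (Or.inl ⟨by linarith, by linarith⟩))

/-- **The exponents of the periodic points.** -/
theorem bound {s : ℝ} (hs : |s| < θ₀) {p : N} (hp : P p) {k : ℕ} (hk : 1 ≤ k)
    (hkp : (Rt F ψ s)^[k] p = p) {m : ℕ} (hm : 1 ≤ m)
    (hper : ∀ i, Vf F ψ θ₀ ((Rt F ψ s)^[i + m] p) = Vf F ψ θ₀ ((Rt F ψ s)^[i] p))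
    (hdiff : ∀ i, DifferentiableAt ℝ (Vf F ψ θ₀ ((Rt F ψ s)^[i] p)) s) {A : N → ℝ}
    (hA : ∀ y, 0 < A y) (hA' : ∀ y, HasDerivAt (a y) (A y) 0) :
    (k : ℝ) ≤ |∑ i ∈ Finset.range k, Real.log (A ((Rt F ψ s)^[i] p))| *
      (1 + (∑ i ∈ Finset.range m, deriv (Vf F ψ θ₀ ((Rt F ψ s)^[i] p)) s) / m) := by
  obtain ⟨q, hq⟩ : ∃ q : ℕ → N, ∀ i, q i = (Rt F ψ s)^[i] p := ⟨_, fun _ => rfl⟩
  simp only [← hq] at hper hdiff ⊢
  have hq0 : q 0 = p := hq 0
  have hqs : ∀ i, q (i + 1) = Rt F ψ s (q i) := fun i => by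
    rw [hq, hq, Function.iterate_succ_apply']
  have hqk : ∀ i, q (i + k) = q i := fun i => by
    rw [hq, hq, Function.iterate_add_apply, hkp]
  have hqP : ∀ i, P (q i) := by
    intro i
    induction i with
    | zero => rw [hq0]; exact hp
    | succ i ih => rw [hqs]; exact h.Ppsi _ _ (h.PF _ ih)
  have hqper : ∀ i, q i ∈ Per (Rt F ψ s) := by
    intro i
    refine ⟨k, hk, ?_⟩
    have h1 : (Rt F ψ s)^[k] (q i) = q (i + k) := by
      rw [hq, hq, ← Function.iterate_add_apply, add_comm]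
    rw [h1, hqk]
  have hS0 : ∀ i, S (q i) 0 = s := fun i =>
    (h.per _ (hqP i) s hs 0).1 (by rw [h.top.zero]; exact hqper i)
  obtain ⟨s1, s2⟩ := abs_lt.1 hs
  obtain ⟨L, hL⟩ : ∃ L : ℕ, L = m * k := ⟨_, rfl⟩
  have hL1 : 1 ≤ L := by rw [hL]; exact Nat.mul_pos hm hk
  have hqL : ∀ j i, q (i + L * j) = q i := by
    intro j i
    have h1 : ∀ j i, q (i + k * j) = q i := by
      intro j
      induction j with
      | zero => intro i; simp
      | succ j ih => intro i; rw [show i + k * (j + 1) = (i + k * j) + k by ring, hqk, ih]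
    rw [hL, show i + m * k * j = i + k * (m * j) by ring, h1]
  -- the displacements
  have hex : ∀ δ : ℝ, ∃ τ : ℕ → ℝ, 0 < δ → s + δ < θ₀ → (∀ i, W S (q i) s δ (τ i)) ∧
      ∀ i, τ (i + 1) = a (q i) (τ i) + δ := by
    intro δ
    by_cases hδ : 0 < δ ∧ s + δ < θ₀
    · obtain ⟨t₀, ht₀⟩ := h.W_ex (hqP 0) hδ.1 s1 hδ.2 (hS0 0)
      refine ⟨fun i => Nat.rec t₀ (fun i x => a (q i) x + δ) i, fun _ _ => ⟨fun i => ?_,
        fun i => rfl⟩⟩
      induction i with
      | zero => exact ht₀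
      | succ i ih =>
        rw [hqs]
        exact h.W_step (hqP i) hδ.1 s1 hδ.2 (hS0 i) ih
    · exact ⟨fun _ => 0, fun h1 h2 => absurd ⟨h1, h2⟩ hδ⟩
  choose τ hτ using hex
  have hgood : ∀ᶠ δ : ℝ in 𝓝[>] 0, 0 < δ ∧ s + δ < θ₀ := by
    have h1 : ∀ᶠ δ : ℝ in 𝓝[>] 0, 0 < δ := self_mem_nhdsWithin
    have h2 : ∀ᶠ δ : ℝ in 𝓝[>] 0, δ < θ₀ - s :=
      nhdsWithin_le_nhds (Iio_mem_nhds (by linarith))
    filter_upwards [h1, h2] with δ h3 h4
    exact ⟨h3, by linarith⟩
  have hsmall : ∀ i : ℕ, ∀ ε : ℝ, 0 < ε → ∀ᶠ δ : ℝ in 𝓝[>] 0, |τ δ i| < ε := by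
    intro i ε hε
    obtain ⟨δ₀, hδ₀, H⟩ := W_small (S := S) (q i) s hε
    filter_upwards [hgood, nhdsWithin_le_nhds (Iio_mem_nhds hδ₀)] with δ h1 h2
    exact H δ _ h2 ((hτ δ h1.1 h1.2).1 i)
  have htend : ∀ i : ℕ, Tendsto (fun δ => τ δ i) (𝓝[>] 0) (𝓝[≠] 0) := by
    intro i
    rw [tendsto_nhdsWithin_iff]
    constructor
    · rw [Metric.tendsto_nhds]
      intro ε hε
      filter_upwards [hsmall i ε hε] with δ h1
      rwa [Real.dist_eq, sub_zero]
    · filter_upwards [hgood] with δ h1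
      exact ((hτ δ h1.1 h1.2).1 i).1
  -- the ratios
  have hratio : ∀ i : ℕ, Tendsto (fun δ => Real.log (a (q i) (τ δ i) / τ δ i)) (𝓝[>] 0)
      (𝓝 (Real.log (A (q i)))) := by
    intro i
    have h1 := (hasDerivAt_iff_tendsto_slope.1 (hA' (q i))).comp (htend i)
    have h2 : Tendsto (fun δ => a (q i) (τ δ i) / τ δ i) (𝓝[>] 0) (𝓝 (A (q i))) := by
      refine h1.congr fun δ => ?_
      show slope (a (q i)) 0 (τ δ i) = _
      rw [slope_def_field, h.top.azero, sub_zero, sub_zero]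
    exact ((Real.continuousAt_log (hA (q i)).ne').tendsto).comp h2
  have hX : Tendsto (fun δ => ∑ i ∈ Finset.range L, Real.log (a (q i) (τ δ i) / τ δ i)) (𝓝[>] 0)
      (𝓝 (∑ i ∈ Finset.range L, Real.log (A (q i)))) :=
    tendsto_finsetSum _ fun i _ => hratio i
  have hslope : ∀ i : ℕ, Tendsto (fun δ => (Vf F ψ θ₀ (q i) (s + δ) - Vf F ψ θ₀ (q i) s) / δ)
      (𝓝[>] 0) (𝓝 (deriv (Vf F ψ θ₀ (q i)) s)) := by
    intro i
    have h1 := hasDerivAt_iff_tendsto_slope.1 (hdiff i).hasDerivAt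
    have h2 : Tendsto (fun δ : ℝ => s + δ) (𝓝[>] 0) (𝓝[≠] s) := by
      rw [tendsto_nhdsWithin_iff]
      constructor
      · have : Tendsto (fun δ : ℝ => s + δ) (𝓝 0) (𝓝 (s + 0)) :=
          (continuous_const.add continuous_id).tendsto 0
        rw [add_zero] at this
        exact this.mono_left nhdsWithin_le_nhds
      · filter_upwards [self_mem_nhdsWithin] with δ hδ
        have hδ : (0 : ℝ) < δ := hδ
        show s + δ ≠ s
        linarith
    refine (h1.comp h2).congr fun δ => ?_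
    show slope (Vf F ψ θ₀ (q i)) s (s + δ) = _
    rw [slope_def_field, add_sub_cancel_left]
  have hQ : Tendsto (fun δ => 1 + (∑ i ∈ Finset.range m,
      (Vf F ψ θ₀ (q i) (s + δ) - Vf F ψ θ₀ (q i) s) / δ) / m) (𝓝[>] 0)
      (𝓝 (1 + (∑ i ∈ Finset.range m, deriv (Vf F ψ θ₀ (q i)) s) / m)) :=
    tendsto_const_nhds.add ((tendsto_finsetSum _ fun i _ => hslope i).div_const _)
  -- the inequality
  have hineq : ∀ᶠ δ : ℝ in 𝓝[>] 0, (L : ℝ) ≤
      |∑ i ∈ Finset.range L, Real.log (a (q i) (τ δ i) / τ δ i)| * (1 + (∑ i ∈ Finset.range m,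
      (Vf F ψ θ₀ (q i) (s + δ) - Vf F ψ θ₀ (q i) s) / δ) / m) := by
    have hle1 : ∀ᶠ δ : ℝ in 𝓝[>] 0, ∀ i ∈ Finset.range L, |τ δ i| < 1 :=
      (Finset.eventually_all (Finset.range L)).2 fun i _ => hsmall i 1 one_pos
    filter_upwards [hgood, hle1] with δ h1 h2
    obtain ⟨hW, hrec⟩ := hτ δ h1.1 h1.2
    have hδ := h1.1
    have hLc : (0 : ℝ) < L := by exact_mod_cast hL1
    have hmc : (0 : ℝ) < m := by exact_mod_cast hm
    have hpL : ∀ j i, τ δ (i + L * j) = τ δ i := by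
      intro j i
      have g1 := hW (i + L * j)
      rw [hqL] at g1
      exact h.W_uniq (hqP i) hs (hS0 i) g1 (hW i)
    have hp0 : τ δ L = τ δ 0 := by
      have := hpL 1 0
      simpa using this
    have hV : ∑ i ∈ Finset.range L, |τ δ i| ≤
        (L * δ) * ((∑ i ∈ Finset.range m,
          (Vf F ψ θ₀ (q i) (s + δ) - Vf F ψ θ₀ (q i) s) / δ) / m) := by
      have g1 : ∑ i ∈ Finset.range L, |τ δ i| ≤ ∑ i ∈ Finset.range L,
          (Vf F ψ θ₀ (q i) (s + δ) - Vf F ψ θ₀ (q i) s) :=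
        Finset.sum_le_sum fun i hi => h.V_inc (hqP i) hδ s1 h1.2 (hW i) (h2 i hi).le
      refine g1.trans (le_of_eq ?_)
      rw [hL, mul_comm m k, per_sum (k := m) (g := fun i => Vf F ψ θ₀ (q i) (s + δ) -
        Vf F ψ θ₀ (q i) s) (fun i => by rw [hper]) k, ← Finset.sum_div]
      push_cast
      field_simp
    obtain ⟨Q, hQd⟩ : ∃ Q : ℝ, Q = (∑ i ∈ Finset.range m,
          (Vf F ψ θ₀ (q i) (s + δ) - Vf F ψ θ₀ (q i) s) / δ) / m := ⟨_, rfl⟩
    rw [← hQd] at hV ⊢
    have hQ0 : 0 ≤ Q := by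
      by_contra hcon
      push Not at hcon
      have g1 : 0 ≤ ∑ i ∈ Finset.range L, |τ δ i| := Finset.sum_nonneg fun i _ => abs_nonneg _
      have g2 : L * δ * Q < 0 := mul_neg_of_pos_of_neg (by positivity) hcon
      linarith
    have hrat : ∀ i, 0 < a (q i) (τ δ i) / τ δ i := by
      intro i
      rcases lt_or_gt_of_ne (hW i).1 with g1 | g1
      · refine div_pos_of_neg_of_neg ?_ g1
        have := h.top.amono (q i) g1
        rwa [h.top.azero] at this
      · refine div_pos ?_ g1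
        have := h.top.amono (q i) g1
        rwa [h.top.azero] at this
    have hrec' : ∀ i, a (q i) (τ δ i) / τ δ i * τ δ i = a (q i) (τ δ i) := fun i =>
      div_mul_cancel₀ _ (hW i).1
    have hLδ : 0 < (L : ℝ) * δ := by positivity
    have hpos : ∀ i, 0 < τ δ i → ∀ j, 0 < τ δ (i + j) := by
      intro i hi j
      induction j with
      | zero => exact hi
      | succ j ih =>
        rw [← add_assoc, hrec]
        have := h.top.amono (q (i + j)) ih
        rw [h.top.azero] at this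
        linarith
    rcases lt_or_gt_of_ne (hW 0).1 with g1 | g1
    · -- negative
      have hneg : ∀ i, τ δ i < 0 := by
        intro i
        by_contra hcon
        push Not at hcon
        have g2 : 0 < τ δ i := lt_of_le_of_ne hcon (Ne.symm (hW i).1)
        have g3 := hpos i g2 (L * (i + 1) - i)
        have g4 : i + (L * (i + 1) - i) = 0 + L * (i + 1) := by
          have : i + 1 ≤ L * (i + 1) := Nat.le_mul_of_pos_left _ hL1
          omega
        rw [g4, hpL] at g3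
        linarith
      have g2 := rec_neg hL1 (t := fun i => -τ δ i) (r := fun i => a (q i) (τ δ i) / τ δ i) hδ
        (fun i => by have := hneg i; linarith) (fun i => by
          show -τ δ (i + 1) = _ * -τ δ i - δ
          rw [hrec]
          have := hrec' i
          linarith) (by show -τ δ L = -τ δ 0; rw [hp0])
      have g3 : ∑ i ∈ Finset.range L, -τ δ i = ∑ i ∈ Finset.range L, |τ δ i| :=
        Finset.sum_congr rfl fun i _ => (abs_of_neg (hneg i)).symm
      rw [g3] at g2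
      have g4 : (L : ℝ) * δ * L ≤ |∑ i ∈ Finset.range L, Real.log (a (q i) (τ δ i) / τ δ i)| *
          (L * δ + L * δ * Q) := by
        refine g2.trans ?_
        refine mul_le_mul (le_abs_self _) (by linarith) ?_ (abs_nonneg _)
        have : 0 ≤ ∑ i ∈ Finset.range L, |τ δ i| := Finset.sum_nonneg fun i _ => abs_nonneg _
        linarith
      have g5 : (L : ℝ) * δ * L ≤ L * δ *
          (|∑ i ∈ Finset.range L, Real.log (a (q i) (τ δ i) / τ δ i)| * (1 + Q)) := by
        refine g4.trans (le_of_eq ?_)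
        ring
      exact le_of_mul_le_mul_left g5 hLδ
    · have hpos' : ∀ i, 0 < τ δ i := by
        intro i
        have := hpos 0 g1 i
        rwa [zero_add] at this
      have g2 := rec_pos hL1 (t := fun i => τ δ i) (r := fun i => a (q i) (τ δ i) / τ δ i) hδ
        hpos' hrat (fun i => by
          show τ δ (i + 1) = _ * τ δ i + δ
          rw [hrec, hrec']) hp0
      have g3 : ∑ i ∈ Finset.range L, τ δ i = ∑ i ∈ Finset.range L, |τ δ i| :=
        Finset.sum_congr rfl fun i _ => (abs_of_pos (hpos' i)).symm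
      rw [g3] at g2
      have g4 : (L : ℝ) * δ * L ≤ |∑ i ∈ Finset.range L, Real.log (a (q i) (τ δ i) / τ δ i)| *
          (L * δ + L * δ * Q) := by
        refine g2.trans ?_
        refine mul_le_mul (neg_le_abs _) (by linarith) ?_ (abs_nonneg _)
        exact Finset.sum_nonneg fun i _ => abs_nonneg _
      have g5 : (L : ℝ) * δ * L ≤ L * δ *
          (|∑ i ∈ Finset.range L, Real.log (a (q i) (τ δ i) / τ δ i)| * (1 + Q)) := by
        refine g4.trans (le_of_eq ?_)
        ring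
      exact le_of_mul_le_mul_left g5 hLδ
  have hfin := le_of_tendsto_of_tendsto tendsto_const_nhds (hX.abs.mul hQ) hineq
  rw [hL, per_sum (k := k) (g := fun i => Real.log (A (q i))) (fun i => by rw [hqk]) m] at hfin
  have hmc : (0 : ℝ) < m := by exact_mod_cast hm
  rw [abs_mul, abs_of_pos hmc] at hfin
  push_cast at hfin
  have g5 : (m : ℝ) * k ≤ m * (|∑ i ∈ Finset.range k, Real.log (A (q i))| *
      (1 + (∑ i ∈ Finset.range m, deriv (Vf F ψ θ₀ (q i)) s) / m)) := by
    refine hfin.trans (le_of_eq ?_)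
    ring
  exact le_of_mul_le_mul_left g5 hmc

end DE

end

end Pool.Agent.V5helper25.EX
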